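import Pool.Agent.U160.VP.Stm

/-!
# Project VP, package F3: moments of sums of independent bounded complex variables
-/

set_option autoImplicit false

namespace Pool.Agent.U160.VP

open MeasureTheory ProbabilityTheory Finset

/-- one power is bounded by exponentials -/
theorem f3_pow_le (x : ℝ) (m : ℕ) : x ^ (2 * m) ≤ (2 * m).factorial * (Real.exp x + Real.exp (-x)) := by
  have h : ∀ y : ℝ, 0 ≤ y → y ^ (2 * m) ≤ (2 * m).factorial * Real.exp y := by
    intro y hy
    have h1 := Real.pow_div_factorial_le_exp y hy (2 * m)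
    have h2 : (0 : ℝ) < (2 * m).factorial := by exact_mod_cast Nat.factorial_pos _
    rw [div_le_iff₀ h2] at h1
    linarith [mul_comm (Real.exp y) ((2 * m).factorial : ℝ)]
  have hf : (0 : ℝ) ≤ (2 * m).factorial := by positivity
  rcases le_total 0 x with hx | hx
  · have := h x hx
    have h2 : 0 ≤ ((2 * m).factorial : ℝ) * Real.exp (-x) := by positivity
    linarith [mul_add ((2 * m).factorial : ℝ) (Real.exp x) (Real.exp (-x))]
  · have := h (-x) (by linarith)
    have e : (-x) ^ (2 * m) = x ^ (2 * m) := by rw [pow_mul, pow_mul, neg_sq]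
    rw [e] at this
    have h2 : 0 ≤ ((2 * m).factorial : ℝ) * Real.exp x := by positivity
    linarith [mul_add ((2 * m).factorial : ℝ) (Real.exp x) (Real.exp (-x))]

/-- the real statement -/
theorem f3_real {Ω : Type*} [MeasurableSpace Ω] (P : Measure Ω) [IsProbabilityMeasure P] (b : ℕ → Ω → ℝ)
    (hb : ∀ n, Measurable (b n)) (hi : iIndepFun b P) (h1 : ∀ n ω, |b n ω| ≤ 1) (m : ℕ) (F : Finset ℕ)
    (hF : F.Nonempty) :
    ∫ ω, (∑ n ∈ F, (b n ω - ∫ ω', b n ω' ∂P)) ^ (2 * m) ∂P ≤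
      (2 * (2 * m).factorial * Real.exp (1 / 2)) * (F.card : ℝ) ^ m := by
  set X : ℕ → Ω → ℝ := fun n ω => b n ω - ∫ ω', b n ω' ∂P with hX
  have hXi : iIndepFun X P := hi.comp (fun n x => x - ∫ ω', b n ω' ∂P) (fun n => by fun_prop)
  have hsub : ∀ n ∈ F, HasSubgaussianMGF (X n) (1 : NNReal) P := by
    intro n _
    have h := hasSubgaussianMGF_of_mem_Icc (μ := P) (X := b n) (a := -1) (b := 1) (hb n).aemeasurable
      (Filter.Eventually.of_forall fun ω => ⟨(abs_le.1 (h1 n ω)).1, (abs_le.1 (h1 n ω)).2⟩)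
    have e : ((‖(1 : ℝ) - (-1)‖₊ / 2) ^ 2 : NNReal) = 1 := by
      have e0 : ‖(1 : ℝ) - (-1)‖₊ = 2 := by
        ext
        norm_num
      rw [e0]
      norm_num
    rw [e] at h
    exact h
  have hS := HasSubgaussianMGF.sum_of_iIndepFun (s := F) (c := fun _ => (1 : NNReal)) hXi hsub
  set S : Ω → ℝ := fun ω => ∑ n ∈ F, X n ω with hSd
  have hcard : (0 : ℝ) < F.card := by exact_mod_cast hF.card_pos
  set t : ℝ := (Real.sqrt F.card)⁻¹ with ht
  have ht2 : t ^ 2 = (F.card : ℝ)⁻¹ := by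
    rw [ht, inv_pow, Real.sq_sqrt hcard.le]
  have hc : ((∑ _i ∈ F, (1 : NNReal) : NNReal) : ℝ) = F.card := by simp
  have hm1 : ∫ ω, Real.exp (t * S ω) ∂P ≤ Real.exp (1 / 2) := by
    have h := hS.mgf_le t
    rw [hc, ht2, mul_inv_cancel₀ hcard.ne'] at h
    exact h
  have hm2 : ∫ ω, Real.exp (-t * S ω) ∂P ≤ Real.exp (1 / 2) := by
    have h := hS.mgf_le (-t)
    rw [hc, neg_sq, ht2, mul_inv_cancel₀ hcard.ne'] at h
    exact h
  have hi1 : Integrable (fun ω => Real.exp (t * S ω)) P := hS.integrable_exp_mul t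
  have hi2 : Integrable (fun ω => Real.exp (-t * S ω)) P := hS.integrable_exp_mul (-t)
  have hkey : ∫ ω, (t * S ω) ^ (2 * m) ∂P ≤ ((2 * m).factorial : ℝ) * (Real.exp (1 / 2) + Real.exp (1 / 2)) := by
    calc ∫ ω, (t * S ω) ^ (2 * m) ∂P
        ≤ ∫ ω, ((2 * m).factorial : ℝ) * (Real.exp (t * S ω) + Real.exp (-t * S ω)) ∂P := by
          apply integral_mono_of_nonneg
          · exact Filter.Eventually.of_forall fun ω => by
              simp only [Pi.zero_apply]
              rw [pow_mul]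
              positivity
          · exact (hi1.add hi2).const_mul _
          · refine Filter.Eventually.of_forall fun ω => ?_
            have := f3_pow_le (t * S ω) m
            simpa [neg_mul] using this
      _ = ((2 * m).factorial : ℝ) * ((∫ ω, Real.exp (t * S ω) ∂P) + ∫ ω, Real.exp (-t * S ω) ∂P) := by
          rw [integral_const_mul, integral_add hi1 hi2]
      _ ≤ _ := by gcongr
  have e1 : ∫ ω, (t * S ω) ^ (2 * m) ∂P = ((F.card : ℝ)⁻¹) ^ m * ∫ ω, S ω ^ (2 * m) ∂P := by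
    rw [← integral_const_mul]
    congr 1
    funext ω
    rw [mul_pow, pow_mul t, ht2]
  rw [e1] at hkey
  have hpos : (0 : ℝ) < (F.card : ℝ) ^ m := pow_pos hcard m
  have e2 : ∫ ω, S ω ^ (2 * m) ∂P = (F.card : ℝ) ^ m * (((F.card : ℝ)⁻¹) ^ m * ∫ ω, S ω ^ (2 * m) ∂P) := by
    rw [← mul_assoc, ← mul_pow, mul_inv_cancel₀ hcard.ne', one_pow, one_mul]
  calc ∫ ω, S ω ^ (2 * m) ∂P = (F.card : ℝ) ^ m * (((F.card : ℝ)⁻¹) ^ m * ∫ ω, S ω ^ (2 * m) ∂P) := e2
    _ ≤ (F.card : ℝ) ^ m * (((2 * m).factorial : ℝ) * (Real.exp (1 / 2) + Real.exp (1 / 2))) := by gcongr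
    _ = _ := by ring

/-- package F3 -/
theorem t_F3 : S_F3 := by
  intro m
  set K : ℝ := 2 * (2 * m).factorial * Real.exp (1 / 2) with hK
  have hK0 : 0 < K := by
    have : (0 : ℝ) < (2 * m).factorial := by exact_mod_cast Nat.factorial_pos _
    positivity
  refine ⟨2 ^ m * (K + K) , by positivity, ?_⟩
  intro Ω _ P _ Y hY hi hb F
  rcases F.eq_empty_or_nonempty with rfl | hF
  · rcases Nat.eq_zero_or_pos m with rfl | hm
    · simp [hK]
      have : (1 : ℝ) ≤ Real.exp (1 / 2) := Real.one_le_exp (by norm_num)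
      have h2 : Real.exp (1 / 2) = Real.exp 2⁻¹ := by norm_num
      rw [h2] at this
      linarith
    · have h2m : 2 * m ≠ 0 := by omega
      simp [h2m, hm.ne']
  have hre : ∀ n, Measurable fun ω => (Y n ω).re := fun n => Complex.measurable_re.comp (hY n)
  have him : ∀ n, Measurable fun ω => (Y n ω).im := fun n => Complex.measurable_im.comp (hY n)
  have hint : ∀ n, Integrable (Y n) P := fun n =>
    Integrable.of_bound (hY n).aestronglyMeasurable 1 (Filter.Eventually.of_forall (hb n))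
  have hrei : iIndepFun (fun n ω => (Y n ω).re) P := hi.comp (fun _ z => z.re) (fun _ => Complex.measurable_re)
  have himi : iIndepFun (fun n ω => (Y n ω).im) P := hi.comp (fun _ z => z.im) (fun _ => Complex.measurable_im)
  have hre1 : ∀ n ω, |(Y n ω).re| ≤ 1 := fun n ω => (Complex.abs_re_le_norm _).trans (hb n ω)
  have him1 : ∀ n ω, |(Y n ω).im| ≤ 1 := fun n ω => (Complex.abs_im_le_norm _).trans (hb n ω)
  have hR := f3_real P (fun n ω => (Y n ω).re) hre hrei hre1 m F hF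
  have hI := f3_real P (fun n ω => (Y n ω).im) him himi him1 m F hF
  have eR : ∀ n, (∫ ω', Y n ω' ∂P).re = ∫ ω', (Y n ω').re ∂P := fun n => by
    have := integral_re (hint n) (𝕜 := ℂ)
    simpa using this.symm
  have eI : ∀ n, (∫ ω', Y n ω' ∂P).im = ∫ ω', (Y n ω').im ∂P := fun n => by
    have := integral_im (hint n) (𝕜 := ℂ)
    simpa using this.symm
  set Z : Ω → ℂ := fun ω => ∑ n ∈ F, (Y n ω - ∫ ω', Y n ω' ∂P) with hZ
  set A : Ω → ℝ := fun ω => ∑ n ∈ F, ((Y n ω).re - ∫ ω', (Y n ω').re ∂P) with hA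
  set B : Ω → ℝ := fun ω => ∑ n ∈ F, ((Y n ω).im - ∫ ω', (Y n ω').im ∂P) with hB
  have hAB : ∀ ω, ‖Z ω‖ ^ 2 = A ω ^ 2 + B ω ^ 2 := by
    intro ω
    have e1 : (Z ω).re = A ω := by
      rw [hZ, hA]
      simp only [Complex.re_sum, Complex.sub_re, eR]
    have e2 : (Z ω).im = B ω := by
      rw [hZ, hB]
      simp only [Complex.im_sum, Complex.sub_im, eI]
    rw [← Complex.normSq_eq_norm_sq, Complex.normSq_apply, e1, e2]
    ring
  have hbd : ∀ ω, ‖Z ω‖ ^ (2 * m) ≤ 2 ^ m * (A ω ^ (2 * m) + B ω ^ (2 * m)) := by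
    intro ω
    rw [pow_mul, hAB, pow_mul, pow_mul]
    have h0 : (A ω ^ 2 + B ω ^ 2) ≤ 2 * max (A ω ^ 2) (B ω ^ 2) := by
      have h1 := le_max_left (A ω ^ 2) (B ω ^ 2)
      have h2 := le_max_right (A ω ^ 2) (B ω ^ 2)
      linarith
    calc (A ω ^ 2 + B ω ^ 2) ^ m ≤ (2 * max (A ω ^ 2) (B ω ^ 2)) ^ m := by gcongr
      _ = 2 ^ m * (max (A ω ^ 2) (B ω ^ 2)) ^ m := by rw [mul_pow]
      _ ≤ 2 ^ m * ((A ω ^ 2) ^ m + (B ω ^ 2) ^ m) := by
          gcongr
          rcases max_choice (A ω ^ 2) (B ω ^ 2) with h | h <;> rw [h]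
          · have : 0 ≤ (B ω ^ 2) ^ m := by positivity
            linarith
          · have : 0 ≤ (A ω ^ 2) ^ m := by positivity
            linarith
  have hAm : Measurable A := by
    apply Finset.measurable_fun_sum
    intro n _
    exact (hre n).sub_const _
  have hBm : Measurable B := by
    apply Finset.measurable_fun_sum
    intro n _
    exact (him n).sub_const _
  have hAb : ∀ ω, |A ω| ≤ ∑ n ∈ F, (2 : ℝ) := by
    intro ω
    refine (Finset.abs_sum_le_sum_abs _ _).trans (Finset.sum_le_sum fun n _ => ?_)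
    have h2 : |∫ ω', (Y n ω').re ∂P| ≤ 1 := by
      have h := norm_integral_le_of_norm_le_const (μ := P) (C := 1) (f := fun ω => (Y n ω).re)
        (Filter.Eventually.of_forall (fun ω => by rw [Real.norm_eq_abs]; exact hre1 n ω))
      simpa using h
    calc _ ≤ |(Y n ω).re| + |∫ ω', (Y n ω').re ∂P| := abs_sub _ _
      _ ≤ 2 := by linarith [hre1 n ω]
  have hBb : ∀ ω, |B ω| ≤ ∑ n ∈ F, (2 : ℝ) := by
    intro ω
    refine (Finset.abs_sum_le_sum_abs _ _).trans (Finset.sum_le_sum fun n _ => ?_)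
    have h2 : |∫ ω', (Y n ω').im ∂P| ≤ 1 := by
      have h := norm_integral_le_of_norm_le_const (μ := P) (C := 1) (f := fun ω => (Y n ω).im)
        (Filter.Eventually.of_forall (fun ω => by rw [Real.norm_eq_abs]; exact him1 n ω))
      simpa using h
    calc _ ≤ |(Y n ω).im| + |∫ ω', (Y n ω').im ∂P| := abs_sub _ _
      _ ≤ 2 := by linarith [him1 n ω]
  have hAi : Integrable (fun ω => A ω ^ (2 * m)) P := by
    apply Integrable.of_bound (hAm.pow_const _).aestronglyMeasurable ((∑ n ∈ F, (2 : ℝ)) ^ (2 * m))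
    refine Filter.Eventually.of_forall fun ω => ?_
    rw [Real.norm_eq_abs, abs_pow]
    exact pow_le_pow_left₀ (abs_nonneg _) (hAb ω) _
  have hBi : Integrable (fun ω => B ω ^ (2 * m)) P := by
    apply Integrable.of_bound (hBm.pow_const _).aestronglyMeasurable ((∑ n ∈ F, (2 : ℝ)) ^ (2 * m))
    refine Filter.Eventually.of_forall fun ω => ?_
    rw [Real.norm_eq_abs, abs_pow]
    exact pow_le_pow_left₀ (abs_nonneg _) (hBb ω) _
  calc ∫ ω, ‖Z ω‖ ^ (2 * m) ∂P ≤ ∫ ω, 2 ^ m * (A ω ^ (2 * m) + B ω ^ (2 * m)) ∂P := by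
        apply integral_mono_of_nonneg
        · exact Filter.Eventually.of_forall fun ω => by positivity
        · exact (hAi.add hBi).const_mul _
        · exact Filter.Eventually.of_forall hbd
    _ = 2 ^ m * ((∫ ω, A ω ^ (2 * m) ∂P) + ∫ ω, B ω ^ (2 * m) ∂P) := by
        rw [integral_const_mul, integral_add hAi hBi]
    _ ≤ 2 ^ m * (K * (F.card : ℝ) ^ m + K * (F.card : ℝ) ^ m) := by
        gcongr
    _ = 2 ^ m * (K + K) * (F.card : ℝ) ^ m := by ring

end Pool.Agent.U160.VP
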