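import Pool.Agent.U160.VP.Stm

/-!
# Project VP, package I: densities with small support and absolutely summable Fourier series
-/

set_option autoImplicit false

namespace Pool.Agent.U160.VP

open MeasureTheory Set Filter Topology

namespace I

lemma sqd (y : ℝ) : HasDerivAt (fun y : ℝ => (max y 0) ^ 2) (2 * max y 0) y := by
  rcases lt_trichotomy y 0 with hy | hy | hy
  · rw [max_eq_right hy.le, mul_zero]
    refine (hasDerivAt_const y (0 : ℝ)).congr_of_eventuallyEq ?_
    filter_upwards [Iio_mem_nhds hy] with z hz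
    rw [max_eq_right (le_of_lt hz)]
    norm_num
  · subst hy
    rw [hasDerivAt_iff_tendsto_slope_zero]
    have h1 : Tendsto (fun t : ℝ => max t 0) (𝓝[≠] 0) (𝓝 (2 * max (0 : ℝ) 0)) := by
      have h2 : Tendsto (fun t : ℝ => max t 0) (𝓝 0) (𝓝 (max 0 0)) :=
        (continuous_id.max continuous_const).tendsto 0
      rw [max_self] at h2
      rw [max_self, mul_zero]
      exact h2.mono_left nhdsWithin_le_nhds
    refine h1.congr' ?_
    filter_upwards [self_mem_nhdsWithin] with t ht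
    have ht' : t ≠ 0 := ht
    rw [zero_add, max_self, smul_eq_mul]
    rcases le_total t 0 with h | h
    · rw [max_eq_right h]; norm_num
    · rw [max_eq_left h]
      field_simp
      ring
  · rw [max_eq_left hy.le]
    have h1 : HasDerivAt (fun y : ℝ => y ^ 2) (2 * y) y := by
      simpa using hasDerivAt_pow 2 y
    refine h1.congr_of_eventuallyEq ?_
    filter_upwards [Ioi_mem_nhds hy] with z hz
    rw [max_eq_left (le_of_lt hz)]

lemma max_mul (y : ℝ) : max y 0 * y = (max y 0) ^ 2 := by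
  rcases le_total y 0 with h | h
  · rw [max_eq_right h]; ring
  · rw [max_eq_left h]; ring

lemma cud (y : ℝ) : HasDerivAt (fun y : ℝ => (max y 0) ^ 3) (3 * (max y 0) ^ 2) y := by
  have h := (sqd y).mul (hasDerivAt_id y)
  have e1 : (fun y : ℝ => (max y 0) ^ 3) = (fun y : ℝ => (max y 0) ^ 2) * id := by
    funext z
    simp only [Pi.mul_apply, id]
    rw [pow_succ (max z 0) 2, sq, mul_assoc, mul_assoc, max_mul]
    ring
  have h2 := max_mul y
  have e2 : 3 * (max y 0) ^ 2 = 2 * max y 0 * id y + max y 0 ^ 2 * 1 := by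
    show 3 * max y 0 ^ 2 = 2 * max y 0 * y + max y 0 ^ 2 * 1
    linear_combination (-2 : ℝ) * h2
  rw [e1, e2]
  exact h

/-- absolutely summable Fourier series -/
lemma four (r0 r1 r2 : ℝ → ℝ) (h0 : ∀ x, HasDerivAt r0 (r1 x) x) (h1 : ∀ x, HasDerivAt r1 (r2 x) x)
    (h2 : Continuous r2) (a0 : r0 0 = 0) (a1 : r0 1 = 0) (b0 : r1 0 = 0) (b1 : r1 1 = 0) :
    ∃ c : ℤ → ℂ, (Summable fun h : ℤ => ‖c h‖) ∧
      ∀ u ∈ Icc (0 : ℝ) 1, (r0 u : ℂ) = ∑' h : ℤ, c h * ee (h * u) := by
  have hT : Fact ((0 : ℝ) < 1) := ⟨one_pos⟩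
  have hc0 : Continuous r0 := continuous_iff_continuousAt.2 fun x => (h0 x).continuousAt
  have hc1 : Continuous r1 := continuous_iff_continuousAt.2 fun x => (h1 x).continuousAt
  set f : ℝ → ℂ := fun x => (r0 x : ℂ) with hf
  set f1 : ℝ → ℂ := fun x => (r1 x : ℂ) with hf1
  set f2 : ℝ → ℂ := fun x => (r2 x : ℂ) with hf2
  have d0 : ∀ x, HasDerivAt f (f1 x) x := fun x => (h0 x).ofReal_comp
  have d1 : ∀ x, HasDerivAt f1 (f2 x) x := fun x => (h1 x).ofReal_comp
  have hcf : Continuous f := Complex.continuous_ofReal.comp hc0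
  have hcf1 : Continuous f1 := Complex.continuous_ofReal.comp hc1
  have hcf2 : Continuous f2 := Complex.continuous_ofReal.comp h2
  have hf01 : f 0 = f 1 := by simp [hf, a0, a1]
  let F : C(AddCircle (1 : ℝ), ℂ) :=
    ⟨AddCircle.liftIco 1 0 f, AddCircle.liftIco_zero_continuous hf01 hcf.continuousOn⟩
  have hab : (0 : ℝ) < 0 + 1 := by norm_num
  have hab' : (0 : ℝ) < 1 := one_pos
  have hcoef : ∀ n : ℤ, fourierCoeff F n = fourierCoeffOn hab' f n := by
    intro n
    have h := fourierCoeff_liftIco_eq (T := 1) (a := 0) f n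
    have h' : fourierCoeffOn (lt_add_of_pos_right 0 hT.out) f n = fourierCoeffOn hab' f n := by
      congr 1; norm_num
    exact h.trans h'
  -- bound for the coefficients
  obtain ⟨M, hM⟩ : ∃ M : ℝ, ∀ x ∈ Icc (0 : ℝ) 1, ‖f2 x‖ ≤ M :=
    isCompact_Icc.exists_bound_of_continuousOn hcf2.continuousOn
  have hM0 : 0 ≤ M := (norm_nonneg _).trans (hM 0 ⟨le_refl _, zero_le_one⟩)
  have hb2 : ∀ n : ℤ, ‖fourierCoeffOn hab' f2 n‖ ≤ M := by
    intro n
    rw [fourierCoeffOn_eq_integral, norm_smul]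
    have h1 : ‖∫ x in (0 : ℝ)..1, fourier (-n) (x : AddCircle ((1 : ℝ) - 0)) • f2 x‖ ≤ M * |1 - 0| := by
      apply intervalIntegral.norm_integral_le_of_norm_le_const
      intro x hx
      rw [uIoc_of_le zero_le_one] at hx
      rw [norm_smul]
      have : ‖fourier (-n) (x : AddCircle ((1 : ℝ) - 0))‖ = 1 := by
        rw [fourier_apply, Circle.norm_coe]
      rw [this, one_mul]
      exact hM x ⟨hx.1.le, hx.2⟩
    norm_num at h1 ⊢
    exact h1
  have hstep : ∀ (g g1 : ℝ → ℂ), (∀ x, HasDerivAt g (g1 x) x) → Continuous g1 → g 0 = 0 → g 1 = 0 →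
      ∀ n : ℤ, n ≠ 0 → ‖fourierCoeffOn hab' g n‖ = (1 / (2 * Real.pi * |(n : ℝ)|)) * ‖fourierCoeffOn hab' g1 n‖ := by
    intro g g1 hg hg1 hg0 hg1' n hn
    rw [fourierCoeffOn_of_hasDerivAt hab' hn (fun x _ => hg x) (hg1.intervalIntegrable _ _), hg0, hg1']
    simp only [sub_self, mul_zero, zero_sub]
    rw [norm_mul, norm_neg, norm_mul, norm_div]
    have e1 : ‖(-2 * (Real.pi : ℂ) * Complex.I * (n : ℂ))‖ = 2 * Real.pi * |(n : ℝ)| := by
      rw [norm_mul, norm_mul, norm_mul, Complex.norm_I, Complex.norm_intCast, Complex.norm_real, norm_neg,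
        Real.norm_of_nonneg Real.pi_pos.le]
      norm_num
    rw [e1]
    norm_num
  have hcb : ∀ n : ℤ, n ≠ 0 → ‖fourierCoeff F n‖ ≤ M * (1 / (n : ℝ) ^ 2) := by
    intro n hn
    rw [hcoef n, hstep f f1 d0 hcf1 (by simp [hf, a0]) (by simp [hf, a1]) n hn,
      hstep f1 f2 d1 hcf2 (by simp [hf1, b0]) (by simp [hf1, b1]) n hn]
    have hn' : (0 : ℝ) < |(n : ℝ)| := abs_pos.2 (by exact_mod_cast hn)
    have hpi : 1 ≤ 2 * Real.pi := by linarith [Real.pi_gt_three]
    have e2 : 1 / (2 * Real.pi * |(n : ℝ)|) ≤ 1 / |(n : ℝ)| := by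
      apply one_div_le_one_div_of_le hn'
      nlinarith
    have e3 : (0 : ℝ) ≤ 1 / (2 * Real.pi * |(n : ℝ)|) := by positivity
    have e4 : (1 / (n : ℝ) ^ 2) = (1 / |(n : ℝ)|) * (1 / |(n : ℝ)|) := by
      rw [← sq_abs (n : ℝ)]; field_simp
    rw [e4]
    calc 1 / (2 * Real.pi * |(n : ℝ)|) * (1 / (2 * Real.pi * |(n : ℝ)|) * ‖fourierCoeffOn hab' f2 n‖)
        ≤ 1 / |(n : ℝ)| * (1 / |(n : ℝ)| * M) := by
          apply mul_le_mul e2 _ (by positivity) (by positivity)
          exact mul_le_mul e2 (hb2 n) (norm_nonneg _) (by positivity)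
      _ = M * (1 / |(n : ℝ)| * (1 / |(n : ℝ)|)) := by ring
  have hsum : Summable (fourierCoeff F) := by
    refine Summable.of_norm_bounded_eventually (g := fun n : ℤ => M * (1 / (n : ℝ) ^ 2)) ?_ ?_
    · exact (Real.summable_one_div_int_pow.2 (by norm_num)).mul_left M
    · have : ∀ᶠ n : ℤ in cofinite, n ≠ 0 := (Set.finite_singleton (0 : ℤ)).eventually_cofinite_notMem.mono
        fun n hn => hn
      exact this.mono fun n hn => hcb n hn
  refine ⟨fourierCoeff F, hsum.norm, ?_⟩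
  have hico : ∀ u ∈ Ico (0 : ℝ) 1, (r0 u : ℂ) = ∑' h : ℤ, fourierCoeff F h * ee (h * u) := by
    intro u hu
    have h := has_pointwise_sum_fourier_series_of_summable hsum (u : AddCircle (1 : ℝ))
    have e1 : F (u : AddCircle (1 : ℝ)) = (r0 u : ℂ) := by
      have e0 : AddCircle.liftIco 1 0 f (u : AddCircle (1 : ℝ)) = f u := AddCircle.liftIco_zero_coe_apply hu
      exact e0
    rw [e1] at h
    rw [← h.tsum_eq]
    refine tsum_congr fun n => ?_
    rw [smul_eq_mul, fourier_coe_apply]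
    unfold ee
    congr 2
    push_cast
    ring
  intro u hu
  rcases eq_or_lt_of_le hu.2 with h1 | h1
  · subst h1
    rw [a1, ← a0, hico 0 ⟨le_refl _, one_pos⟩]
    refine tsum_congr fun n => ?_
    congr 1
    unfold ee
    have e1 : (2 * (Real.pi : ℂ) * Complex.I * (((n : ℝ) * 0 : ℝ) : ℂ)) = 0 := by push_cast; ring
    have e2 : (2 * (Real.pi : ℂ) * Complex.I * (((n : ℝ) * 1 : ℝ) : ℂ)) = (n : ℂ) * (2 * Real.pi * Complex.I) := by
      push_cast; ring
    rw [e1, e2, Complex.exp_int_mul_two_pi_mul_I, Complex.exp_zero]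
  · exact hico u ⟨hu.1, h1⟩

end I

open I in
theorem t_I : S_I := by
  intro δ hδ
  set d : ℝ := min δ 1 with hd
  have hd0 : 0 < d := lt_min hδ one_pos
  have hd1 : d ≤ 1 := min_le_right _ _
  set q : ℝ → ℝ := fun x => x * (d - x) with hq
  have hqc : Continuous q := by rw [hq]; fun_prop
  have hqd : ∀ x, HasDerivAt q (d - 2 * x) x := by
    intro x
    have h := (hasDerivAt_id x).mul ((hasDerivAt_id x).const_sub d)
    have e : d - 2 * x = 1 * (d - id x) + id x * (-1) := by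
      show d - 2 * x = 1 * (d - x) + x * (-1)
      ring
    rw [e]
    exact h
  have hm0 : ∀ x, d ≤ x → max (q x) 0 = 0 := by
    intro x hx
    apply max_eq_right
    rw [hq]
    exact mul_nonpos_of_nonneg_of_nonpos (hd0.le.trans hx) (by linarith)
  have hmz : max (q 0) 0 = 0 := by rw [hq]; simp
  set Z : ℝ := ∫ u in Icc (0 : ℝ) 1, (max (q u) 0) ^ 3 with hZ
  have hp3c : Continuous fun u => (max (q u) 0) ^ 3 := by fun_prop
  have hZpos : 0 < Z := by
    have e1 : Z = ∫ u in (0 : ℝ)..1, (max (q u) 0) ^ 3 := by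
      rw [hZ, intervalIntegral.integral_of_le zero_le_one, integral_Icc_eq_integral_Ioc]
    have e2 : ∫ u in (0 : ℝ)..1, (max (q u) 0) ^ 3 =
        (∫ u in (0 : ℝ)..d, (max (q u) 0) ^ 3) + ∫ u in d..1, (max (q u) 0) ^ 3 :=
      (intervalIntegral.integral_add_adjacent_intervals (hp3c.intervalIntegrable _ _)
        (hp3c.intervalIntegrable _ _)).symm
    have e3 : 0 < ∫ u in (0 : ℝ)..d, (max (q u) 0) ^ 3 := by
      apply intervalIntegral.intervalIntegral_pos_of_pos_on (hp3c.intervalIntegrable _ _) _ hd0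
      intro x hx
      have : 0 < q x := mul_pos hx.1 (by linarith [hx.2])
      have : 0 < max (q x) 0 := lt_max_of_lt_left this
      positivity
    have e4 : 0 ≤ ∫ u in d..1, (max (q u) 0) ^ 3 :=
      intervalIntegral.integral_nonneg hd1 fun u _ => by positivity
    rw [e1, e2]; linarith
  set r0 : ℝ → ℝ := fun x => Z⁻¹ * (max (q x) 0) ^ 3 with hr0
  set r1 : ℝ → ℝ := fun x => Z⁻¹ * (3 * (max (q x) 0) ^ 2 * (d - 2 * x)) with hr1
  set r2 : ℝ → ℝ := fun x => Z⁻¹ * (3 * (2 * max (q x) 0 * (d - 2 * x)) * (d - 2 * x) +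
    3 * (max (q x) 0) ^ 2 * (-2)) with hr2
  have d0 : ∀ x, HasDerivAt r0 (r1 x) x := by
    intro x
    have h := ((cud (q x)).comp x (hqd x)).const_mul Z⁻¹
    exact h
  have d1 : ∀ x, HasDerivAt r1 (r2 x) x := by
    intro x
    have h1 : HasDerivAt (fun x => 3 * (max (q x) 0) ^ 2) (3 * (2 * max (q x) 0 * (d - 2 * x))) x :=
      ((sqd (q x)).comp x (hqd x)).const_mul 3
    have h2 : HasDerivAt (fun x : ℝ => d - 2 * x) (-2) x := by
      have := ((hasDerivAt_id x).const_mul (2 : ℝ)).const_sub d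
      simpa using this
    have h3 := (h1.mul h2).const_mul Z⁻¹
    exact h3
  have hr2c : Continuous r2 := by
    rw [hr2]; fun_prop
  have hr0c : Continuous r0 := continuous_iff_continuousAt.2 fun x => (d0 x).continuousAt
  obtain ⟨c, hc1, hc2⟩ := four r0 r1 r2 d0 d1 hr2c (by rw [hr0]; simp only; rw [hmz]; ring)
    (by rw [hr0]; simp only; rw [hm0 1 hd1]; ring) (by rw [hr1]; simp only; rw [hmz]; ring)
    (by rw [hr1]; simp only; rw [hm0 1 hd1]; ring)
  refine ⟨r0, c, ⟨hr0c.measurable, ?_, ?_, hc1, hc2⟩, hr0c, ?_⟩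
  · intro u
    rw [hr0]
    have := hZpos.le
    positivity
  · rw [hr0, integral_const_mul, ← hZ]
    exact inv_mul_cancel₀ hZpos.ne'
  · intro u hu
    rw [hr0]
    simp only
    rw [hm0 u ((min_le_left _ _).trans hu)]
    ring

end Pool.Agent.U160.VP
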