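import Pool.Agent.U160.VP.Stm3

set_option autoImplicit false

namespace Pool.Agent.U160.VP

open MeasureTheory ProbabilityTheory Set Filter Topology

theorem t_Q : S_Q := by
  classical
  intro ν hν δ hδ hc
  have hδ1 : cdf ν δ = 1 := by
    have h1 : ν (Iic δ) = 1 := by
      rw [← prob_compl_eq_zero_iff measurableSet_Iic]
      refine measure_mono_null ?_ hc
      intro y hy hy2
      exact hy hy2.2
    have h2 := ofReal_cdf ν δ
    rw [h1] at h2
    have h3 : ENNReal.toReal (ENNReal.ofReal (cdf ν δ)) = 1 := by rw [h2]; simp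
    rwa [ENNReal.toReal_ofReal (cdf_nonneg ν δ)] at h3
  have hneg : ∀ x : ℝ, x < 0 → cdf ν x = 0 := by
    intro x hx
    have h1 : ν (Iic x) = 0 := by
      refine measure_mono_null ?_ hc
      intro y hy hy2
      exact absurd (lt_of_le_of_lt hy hx) (not_lt.mpr hy2.1)
    have h2 := ofReal_cdf ν x
    rw [h1] at h2
    have h3 := ENNReal.ofReal_eq_zero.mp h2
    exact le_antisymm h3 (cdf_nonneg ν x)
  set S : ℝ → Set ℝ := fun u => {x | u ≤ cdf ν x} with hS
  have hmem : ∀ u, u ∈ Ioc (0 : ℝ) 1 → δ ∈ S u := by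
    intro u hu
    show u ≤ cdf ν δ
    rw [hδ1]
    exact hu.2
  have hlb : ∀ u, u ∈ Ioc (0 : ℝ) 1 → ∀ x ∈ S u, 0 ≤ x := by
    intro u hu x hx
    by_contra h
    push Not at h
    have h1 : u ≤ cdf ν x := hx
    rw [hneg x h] at h1
    exact absurd hu.1 (not_lt.mpr h1)
  have hbdd : ∀ u, u ∈ Ioc (0 : ℝ) 1 → BddBelow (S u) := fun u hu => ⟨0, fun x hx => hlb u hu x hx⟩
  let G : ℝ → ℝ := fun u => if u ∈ Ioc (0 : ℝ) 1 then sInf (S u) else 0
  have hG1 : ∀ u, u ∈ Ioc (0 : ℝ) 1 → G u = sInf (S u) := fun u hu => if_pos hu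
  have hG0 : ∀ u, u ∉ Ioc (0 : ℝ) 1 → G u = 0 := fun u hu => if_neg hu
  have hiff : ∀ u, u ∈ Ioc (0 : ℝ) 1 → ∀ x, G u ≤ x ↔ u ≤ cdf ν x := by
    intro u hu x
    rw [hG1 u hu]
    constructor
    · intro h
      have hs : u ≤ cdf ν (sInf (S u)) := by
        have hcont : Tendsto (cdf ν) (𝓝[>] (sInf (S u))) (𝓝 (cdf ν (sInf (S u)))) :=
          ((cdf ν).right_continuous (sInf (S u))).mono Ioi_subset_Ici_self
        refine ge_of_tendsto hcont ?_
        filter_upwards [self_mem_nhdsWithin] with y hy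
        obtain ⟨x', hx', hlt⟩ := exists_lt_of_csInf_lt ⟨δ, hmem u hu⟩ hy
        exact le_trans hx' (monotone_cdf ν hlt.le)
      exact le_trans hs (monotone_cdf ν h)
    · intro h
      exact csInf_le (hbdd u hu) h
  have hbound : ∀ u, 0 ≤ G u ∧ G u ≤ δ := by
    intro u
    by_cases hu : u ∈ Ioc (0 : ℝ) 1
    · rw [hG1 u hu]
      exact ⟨le_csInf ⟨δ, hmem u hu⟩ (hlb u hu), csInf_le (hbdd u hu) (hmem u hu)⟩
    · rw [hG0 u hu]
      exact ⟨le_refl _, hδ⟩
  have hmeas : Measurable G := by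
    refine measurable_of_Iic fun x => ?_
    have e : G ⁻¹' (Iic x) = (Ioc 0 1 ∩ Iic (cdf ν x)) ∪ ((Ioc 0 1)ᶜ ∩ {_u : ℝ | 0 ≤ x}) := by
      ext u
      by_cases hu : u ∈ Ioc (0 : ℝ) 1
      · have := hiff u hu x
        simp only [mem_preimage, mem_Iic, mem_union, mem_inter_iff, mem_compl_iff, mem_setOf_eq]
        tauto
      · have h0 := hG0 u hu
        simp only [mem_preimage, mem_Iic, mem_union, mem_inter_iff, mem_compl_iff, mem_setOf_eq]
        rw [h0]
        tauto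
    rw [e]
    exact (measurableSet_Ioc.inter measurableSet_Iic).union
      (measurableSet_Ioc.compl.inter (MeasurableSet.const _))
  refine ⟨G, hmeas, hbound, ?_⟩
  have hres : (volume : Measure ℝ).restrict (Icc 0 1) = (volume : Measure ℝ).restrict (Ioc 0 1) :=
    Measure.restrict_congr_set Ioc_ae_eq_Icc.symm
  haveI : IsFiniteMeasure (Measure.map G ((volume : Measure ℝ).restrict (Icc 0 1))) := by
    refine ⟨?_⟩
    rw [Measure.map_apply hmeas MeasurableSet.univ]
    exact measure_lt_top _ _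
  refine Measure.ext_of_Iic _ _ fun x => ?_
  rw [Measure.map_apply hmeas measurableSet_Iic, hres, Measure.restrict_apply (hmeas measurableSet_Iic)]
  have e : G ⁻¹' (Iic x) ∩ Ioc 0 1 = Ioc 0 (cdf ν x) := by
    ext u
    constructor
    · rintro ⟨h1, h2⟩
      exact ⟨h2.1, (hiff u h2 x).mp h1⟩
    · rintro ⟨h1, h2⟩
      have h3 : u ∈ Ioc (0 : ℝ) 1 := ⟨h1, le_trans h2 (cdf_le_one ν x)⟩
      exact ⟨(hiff u h3 x).mpr h2, h3⟩
  rw [e, Real.volume_Ioc, sub_zero, ofReal_cdf]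

end Pool.Agent.U160.VP
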