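import Pool.Agent.U160.VP.Stm

set_option autoImplicit false

/-!
# Project VP, package A: the bound for the oscillatory integral of a polynomial phase
-/

namespace Pool.Agent.U160.VP

open MeasureTheory Finset Polynomial

noncomputable section

/-- the polynomial `β_1 X + ... + β_k X^k` -/
def ppA {k : ℕ} (β : Fin k → ℝ) : ℝ[X] := ∑ j : Fin k, C (β j) * X ^ (j.val + 1)

lemma ppA_eval {k : ℕ} (β : Fin k → ℝ) (x : ℝ) : (ppA β).eval x = ph β x := by
  simp [ppA, ph, eval_finsetSum]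

lemma ppA_coeff {k : ℕ} (β : Fin k → ℝ) (j : Fin k) : (ppA β).coeff (j.val + 1) = β j := by
  simp only [ppA, finsetSum_coeff, coeff_C_mul, coeff_X_pow]
  rw [Finset.sum_eq_single j]
  · simp
  · intro b _ hb
    rw [if_neg, mul_zero]
    intro h; apply hb; ext; omega
  · simp

lemma ppA_natDegree {k : ℕ} (β : Fin k → ℝ) : (ppA β).natDegree ≤ k := by
  apply natDegree_sum_le_of_forall_le
  intro j _
  exact (natDegree_C_mul_X_pow_le _ _).trans (by omega)

lemma ppA_deriv_eval {k : ℕ} (β : Fin k → ℝ) (i : ℕ) (x : ℝ) :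
    (derivative^[i] (ppA β)).eval x =
      ∑ j : Fin k, β j * (derivative^[i] (X ^ (j.val + 1) : ℝ[X])).eval x := by
  simp only [ppA, iterate_derivative_sum, iterate_derivative_C_mul, eval_finsetSum, eval_mul,
    eval_C]

lemma bound_poly (Q : ℝ[X]) : ∃ C : ℝ, ∀ x ∈ Set.Icc (0:ℝ) 1, |Q.eval x| ≤ C := by
  obtain ⟨C, hC⟩ := isCompact_Icc.exists_bound_of_continuousOn
    (Q.continuous.continuousOn (s := Set.Icc (0:ℝ) 1))
  exact ⟨C, fun x hx => by simpa using hC x hx⟩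

lemma ppA_deriv_bound (k : ℕ) : ∃ L : ℝ, 0 < L ∧ ∀ (β : Fin k → ℝ) (i : ℕ), i < k + 2 →
    ∀ x ∈ Set.Icc (0:ℝ) 1, |(derivative^[i] (ppA β)).eval x| ≤ L * ‖β‖ := by
  choose K hK using fun (p : ℕ × ℕ) => bound_poly (derivative^[p.1] (X ^ (p.2 + 1) : ℝ[X]))
  refine ⟨1 + ∑ i ∈ Finset.range (k + 2), ∑ j : Fin k, |K (i, j.val)|, by positivity, ?_⟩
  intro β i hi x hx
  rw [ppA_deriv_eval]
  have h1 : |∑ j : Fin k, β j * (derivative^[i] (X ^ (j.val + 1) : ℝ[X])).eval x| ≤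
      ∑ j : Fin k, ‖β‖ * |K (i, j.val)| := by
    refine (Finset.abs_sum_le_sum_abs _ _).trans ?_
    apply Finset.sum_le_sum
    intro j _
    rw [abs_mul]
    apply mul_le_mul (by simpa using norm_le_pi_norm β j)
      ((hK (i, j.val) x hx).trans (le_abs_self _)) (abs_nonneg _) (norm_nonneg _)
  refine h1.trans ?_
  rw [← Finset.mul_sum, mul_comm]
  apply mul_le_mul_of_nonneg_right _ (norm_nonneg _)
  have h2 : ∑ j : Fin k, |K (i, j.val)| ≤
      ∑ i ∈ Finset.range (k + 2), ∑ j : Fin k, |K (i, j.val)| :=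
    Finset.single_le_sum (f := fun i => ∑ j : Fin k, |K (i, j.val)|)
      (fun i _ => by positivity) (Finset.mem_range.mpr hi)
  linarith

lemma ppA_lip {k : ℕ} {L : ℝ} (hL : ∀ (β : Fin k → ℝ) (i : ℕ), i < k + 2 →
    ∀ x ∈ Set.Icc (0:ℝ) 1, |(derivative^[i] (ppA β)).eval x| ≤ L * ‖β‖)
    (β : Fin k → ℝ) (i : ℕ) (hi : i ≤ k) {x y : ℝ} (hx : x ∈ Set.Icc (0:ℝ) 1)
    (hy : y ∈ Set.Icc (0:ℝ) 1) :
    |(derivative^[i] (ppA β)).eval y - (derivative^[i] (ppA β)).eval x| ≤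
      L * ‖β‖ * |y - x| := by
  have := Convex.norm_image_sub_le_of_norm_hasDerivWithin_le (𝕜 := ℝ)
    (f := fun z => (derivative^[i] (ppA β)).eval z)
    (f' := fun z => (derivative^[i + 1] (ppA β)).eval z) (s := Set.Icc (0:ℝ) 1) (C := L * ‖β‖)
    (fun z _ => by
      rw [Function.iterate_succ_apply']
      exact ((derivative^[i] (ppA β)).hasDerivAt z).hasDerivWithinAt)
    (fun z hz => by
      rw [Real.norm_eq_abs]
      exact hL β (i + 1) (by omega) z hz)
    (convex_Icc 0 1) hx hy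
  simpa using this

lemma ppA_lower (k : ℕ) (hk : 1 ≤ k) : ∃ c : ℝ, 0 < c ∧ ∀ β : Fin k → ℝ, ∀ x ∈ Set.Icc (0:ℝ) 1,
    ∃ i, 1 ≤ i ∧ i ≤ k ∧ c * ‖β‖ ≤ |(derivative^[i] (ppA β)).eval x| := by
  set K : ℝ := ∑ j : Fin k, ∑ n ∈ Finset.range (k + 1), (((n + (j.val + 1)).choose (j.val + 1) : ℕ) : ℝ)
    with hKdef
  have hKj : ∀ j : Fin k,
      ∑ n ∈ Finset.range (k + 1), (((n + (j.val + 1)).choose (j.val + 1) : ℕ) : ℝ) ≤ K :=
    fun j => Finset.single_le_sum (f := fun j : Fin k =>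
      ∑ n ∈ Finset.range (k + 1), (((n + (j.val + 1)).choose (j.val + 1) : ℕ) : ℝ))
      (fun i _ => by positivity) (Finset.mem_univ j)
  have hKpos : 0 < K := by
    have h0 := hKj ⟨0, hk⟩
    have h1 : (0:ℝ) < ∑ n ∈ Finset.range (k + 1),
        (((n + ((⟨0, hk⟩ : Fin k).val + 1)).choose ((⟨0, hk⟩ : Fin k).val + 1) : ℕ) : ℝ) := by
      apply Finset.sum_pos
      · intro n _
        exact_mod_cast Nat.choose_pos (by simp)
      · simp
    linarith
  refine ⟨1 / K, by positivity, ?_⟩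
  intro β x hx
  by_contra hcon
  push Not at hcon
  have hβ : 0 < ‖β‖ := by
    have := hcon 1 le_rfl hk
    by_contra h
    have h' : ‖β‖ = 0 := le_antisymm (not_lt.mp h) (norm_nonneg _)
    rw [h', mul_zero] at this
    exact absurd this (not_lt.mpr (abs_nonneg _))
  set Q : ℝ[X] := taylor x (ppA β) with hQ
  have hQd : Q.natDegree ≤ k := by
    rw [hQ, natDegree_taylor]; exact ppA_natDegree β
  have hQc : ∀ i, 1 ≤ i → |Q.coeff i| < 1 / K * ‖β‖ := by
    intro i hi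
    by_cases hik : i ≤ k
    · have h1 := hcon i hi hik
      rw [hQ, taylor_coeff]
      have h2 : (derivative^[i] (ppA β)).eval x = (i.factorial : ℝ) * (hasseDeriv i (ppA β)).eval x := by
        rw [← factorial_smul_hasseDeriv]
        simp
      rw [h2, abs_mul] at h1
      have h3 : (1:ℝ) ≤ |(i.factorial : ℝ)| := by
        rw [abs_of_nonneg (by positivity)]
        exact_mod_cast Nat.one_le_iff_ne_zero.mpr (Nat.factorial_ne_zero i)
      have h4 := abs_nonneg ((hasseDeriv i (ppA β)).eval x)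
      nlinarith
    · rw [coeff_eq_zero_of_natDegree_lt (by omega)]
      simp only [abs_zero]
      positivity
  have hlt : ‖β‖ < ‖β‖ := by
    rw [pi_norm_lt_iff hβ]
    intro j
    rw [← ppA_coeff β j]
    have h1 : ppA β = taylor (-x) Q := by
      rw [hQ, taylor_taylor]; simp
    rw [h1, taylor_coeff, eval_eq_sum_range' (n := k + 1)]
    · simp only [hasseDeriv_coeff]
      refine lt_of_le_of_lt (norm_sum_le _ _) ?_
      have h2 : ∀ n ∈ Finset.range (k + 1),
          ‖(((n + (j.val + 1)).choose (j.val + 1) : ℕ) : ℝ) * Q.coeff (n + (j.val + 1)) * (-x) ^ n‖ <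
          (((n + (j.val + 1)).choose (j.val + 1) : ℕ) : ℝ) * (1 / K * ‖β‖) := by
        intro n _
        rw [norm_mul, norm_mul, norm_pow, norm_neg]
        have h3 : ‖x‖ ^ n ≤ 1 := by
          apply pow_le_one₀ (norm_nonneg _)
          rw [Real.norm_eq_abs, abs_of_nonneg hx.1]; exact hx.2
        have h4 : 0 < (((n + (j.val + 1)).choose (j.val + 1) : ℕ) : ℝ) := by
          exact_mod_cast Nat.choose_pos (by omega)
        have h5 := hQc (n + (j.val + 1)) (by omega)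
        rw [Real.norm_of_nonneg h4.le, Real.norm_eq_abs (Q.coeff _)]
        calc (((n + (j.val + 1)).choose (j.val + 1) : ℕ) : ℝ) * |Q.coeff (n + (j.val + 1))| * ‖x‖ ^ n
            ≤ (((n + (j.val + 1)).choose (j.val + 1) : ℕ) : ℝ) * |Q.coeff (n + (j.val + 1))| * 1 := by
              apply mul_le_mul_of_nonneg_left h3; positivity
          _ < (((n + (j.val + 1)).choose (j.val + 1) : ℕ) : ℝ) * (1 / K * ‖β‖) := by
              rw [mul_one]
              exact mul_lt_mul_of_pos_left h5 h4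
      refine lt_of_lt_of_le (Finset.sum_lt_sum_of_nonempty (by simp) h2) ?_
      rw [← Finset.sum_mul]
      calc (∑ n ∈ Finset.range (k + 1), (((n + (j.val + 1)).choose (j.val + 1) : ℕ) : ℝ)) * (1 / K * ‖β‖)
          ≤ K * (1 / K * ‖β‖) := by
            apply mul_le_mul_of_nonneg_right (hKj j); positivity
        _ = ‖β‖ := by field_simp
    · refine lt_of_le_of_lt (natDegree_hasseDeriv_le _ _) ?_
      omega
  exact lt_irrefl _ hlt

lemma ee_norm (x : ℝ) : ‖ee x‖ = 1 := by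
  unfold ee
  rw [show (2 * (Real.pi : ℂ) * Complex.I * (x : ℂ)) = ((2 * Real.pi * x : ℝ) : ℂ) * Complex.I by
    push_cast; ring]
  exact Complex.norm_exp_ofReal_mul_I _

lemma ee_cont : Continuous ee := by
  unfold ee
  fun_prop

lemma ee_hasDerivAt {f : ℝ → ℝ} {f' x : ℝ} (hf : HasDerivAt f f' x) :
    HasDerivAt (fun y => ee (f y)) (ee (f x) * (2 * (Real.pi : ℂ) * Complex.I * (f' : ℂ))) x := by
  unfold ee
  have h1 : HasDerivAt (fun y => ((f y : ℝ) : ℂ)) (f' : ℂ) x := hf.ofReal_comp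
  have h2 := (h1.const_mul (2 * (Real.pi : ℂ) * Complex.I)).cexp
  exact h2

lemma vdc1 (P : ℝ[X]) (a b lam A : ℝ) (hab : a ≤ b) (hb : b - a ≤ 1) (hlam : 0 < lam)
    (h1 : ∀ x ∈ Set.Icc a b, lam ≤ |P.derivative.eval x|)
    (h2 : ∀ x ∈ Set.Icc a b, |P.derivative.derivative.eval x| ≤ A) :
    ‖∫ x in a..b, ee (P.eval x)‖ ≤ 2 / lam + A / lam ^ 2 := by
  have hne : ∀ x ∈ Set.Icc a b, P.derivative.eval x ≠ 0 := by
    intro x hx h0
    have := h1 x hx
    rw [h0, abs_zero] at this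
    linarith
  set w : ℂ := 2 * (Real.pi : ℂ) * Complex.I with hw
  have hw0 : w ≠ 0 := by
    rw [hw]; simp [Real.pi_ne_zero, Complex.I_ne_zero]
  have hwn : 1 ≤ ‖w‖ := by
    rw [hw]
    simp only [norm_mul, Complex.norm_I, mul_one, Complex.norm_real, Complex.norm_ofNat,
      Real.norm_eq_abs, abs_of_pos Real.pi_pos]
    linarith [Real.pi_gt_three]
  set F : ℝ → ℂ := fun x => ee (P.eval x) * (w * ((P.derivative.eval x : ℝ) : ℂ))⁻¹ with hF
  set G : ℝ → ℂ := fun x => ee (P.eval x) * (w⁻¹ * ((P.derivative.derivative.eval x : ℝ) : ℂ) *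
    (((P.derivative.eval x : ℝ) : ℂ) ^ 2)⁻¹) with hG
  have hFd : ∀ x ∈ Set.uIcc a b, HasDerivAt F (ee (P.eval x) - G x) x := by
    intro x hx
    rw [Set.uIcc_of_le hab] at hx
    have hx0 : ((P.derivative.eval x : ℝ) : ℂ) ≠ 0 := by exact_mod_cast hne x hx
    have e1 := ee_hasDerivAt (P.hasDerivAt x)
    have e2 : HasDerivAt (fun y => w * ((P.derivative.eval y : ℝ) : ℂ))
        (w * ((P.derivative.derivative.eval x : ℝ) : ℂ)) x :=
      (P.derivative.hasDerivAt x).ofReal_comp.const_mul w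
    have e3 := e2.inv (mul_ne_zero hw0 hx0)
    have e4 := e1.mul e3
    refine e4.congr_deriv ?_
    simp only [hG, ← hw, Pi.inv_apply]
    field_simp
    ring
  have hcP : Continuous fun x => ee (P.eval x) := ee_cont.comp P.continuous
  have hGc : ContinuousOn G (Set.uIcc a b) := by
    rw [Set.uIcc_of_le hab]
    apply hcP.continuousOn.mul
    apply ContinuousOn.mul
    · exact (continuous_const.mul (Complex.continuous_ofReal.comp
        P.derivative.derivative.continuous)).continuousOn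
    · apply ContinuousOn.inv₀
      · exact ((Complex.continuous_ofReal.comp P.derivative.continuous).pow 2).continuousOn
      · intro x hx
        exact pow_ne_zero 2 (by exact_mod_cast hne x hx)
  have hGi : IntervalIntegrable G volume a b := hGc.intervalIntegrable
  have hEi : IntervalIntegrable (fun x => ee (P.eval x)) volume a b := hcP.intervalIntegrable a b
  have key := intervalIntegral.integral_eq_sub_of_hasDerivAt hFd (hEi.sub hGi)
  rw [intervalIntegral.integral_sub hEi hGi] at key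
  have key2 : ∫ x in a..b, ee (P.eval x) = F b - F a + ∫ x in a..b, G x := by
    rw [← key]; ring
  rw [key2]
  have hFn : ∀ x ∈ Set.Icc a b, ‖F x‖ ≤ 1 / lam := by
    intro x hx
    rw [hF]
    simp only
    rw [norm_mul, ee_norm, one_mul, norm_inv, norm_mul, Complex.norm_real, Real.norm_eq_abs,
      one_div]
    apply inv_anti₀ hlam
    calc lam ≤ |P.derivative.eval x| := h1 x hx
      _ = 1 * |P.derivative.eval x| := (one_mul _).symm
      _ ≤ ‖w‖ * |P.derivative.eval x| := mul_le_mul_of_nonneg_right hwn (abs_nonneg _)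
  have hA : 0 ≤ A := (abs_nonneg _).trans (h2 a ⟨le_rfl, hab⟩)
  have hGn : ∀ x ∈ Set.Icc a b, ‖G x‖ ≤ A / lam ^ 2 := by
    intro x hx
    rw [hG]
    simp only
    rw [norm_mul, ee_norm, one_mul, norm_mul, norm_mul, norm_inv, norm_inv, norm_pow,
      Complex.norm_real, Complex.norm_real, Real.norm_eq_abs, Real.norm_eq_abs]
    have e1 : ‖w‖⁻¹ ≤ 1 := inv_le_one_of_one_le₀ hwn
    have e2 := h2 x hx
    have e3 : (|P.derivative.eval x| ^ 2)⁻¹ ≤ (lam ^ 2)⁻¹ := by
      apply inv_anti₀ (by positivity)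
      exact pow_le_pow_left₀ hlam.le (h1 x hx) 2
    calc ‖w‖⁻¹ * |P.derivative.derivative.eval x| * (|P.derivative.eval x| ^ 2)⁻¹
        ≤ 1 * A * (lam ^ 2)⁻¹ := by
          apply mul_le_mul _ e3 (by positivity) (by positivity)
          apply mul_le_mul e1 e2 (abs_nonneg _) (by norm_num)
      _ = A / lam ^ 2 := by rw [one_mul]; rfl
  have hint : ‖∫ x in a..b, G x‖ ≤ A / lam ^ 2 * |b - a| := by
    apply intervalIntegral.norm_integral_le_of_norm_le_const
    intro x hx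
    rw [Set.uIoc_of_le hab] at hx
    exact hGn x ⟨hx.1.le, hx.2⟩
  have hint2 : A / lam ^ 2 * |b - a| ≤ A / lam ^ 2 := by
    have : |b - a| ≤ 1 := by rw [abs_of_nonneg (by linarith)]; exact hb
    calc A / lam ^ 2 * |b - a| ≤ A / lam ^ 2 * 1 := mul_le_mul_of_nonneg_left this (by positivity)
      _ = A / lam ^ 2 := mul_one _
  calc ‖F b - F a + ∫ x in a..b, G x‖ ≤ ‖F b - F a‖ + ‖∫ x in a..b, G x‖ := norm_add_le _ _
    _ ≤ (‖F b‖ + ‖F a‖) + A / lam ^ 2 := add_le_add (norm_sub_le _ _) (hint.trans hint2)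
    _ ≤ (1 / lam + 1 / lam) + A / lam ^ 2 := by
        have := hFn b ⟨hab, le_rfl⟩
        have := hFn a ⟨le_rfl, hab⟩
        linarith
    _ = 2 / lam + A / lam ^ 2 := by ring

lemma piece_bound (hA1 : S_A1) (k : ℕ) (hk : 1 ≤ k) (c L : ℝ) (hc : 0 < c) (hL : 0 < L)
    (hLb : ∀ (β : Fin k → ℝ) (i : ℕ), i < k + 2 →
      ∀ x ∈ Set.Icc (0:ℝ) 1, |(derivative^[i] (ppA β)).eval x| ≤ L * ‖β‖) :
    ∃ D : ℝ, 0 < D ∧ ∀ (β : Fin k → ℝ), 1 ≤ ‖β‖ → ∀ i : ℕ, 1 ≤ i → i ≤ k → ∀ a b : ℝ,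
      0 ≤ a → a ≤ b → b ≤ 1 →
      (∀ x ∈ Set.Icc a b, c * ‖β‖ ≤ |(derivative^[i] (ppA β)).eval x|) →
      ‖∫ x in a..b, ee (ph β x)‖ ≤ D * ‖β‖ ^ (-(1 / (k : ℝ))) := by
  have hkR : (1:ℝ) ≤ k := by exact_mod_cast hk
  have hi : ∀ i : ℕ, ∃ D : ℝ, 0 < D ∧ ∀ (β : Fin k → ℝ), 1 ≤ ‖β‖ → 1 ≤ i → i ≤ k → ∀ a b : ℝ,
      0 ≤ a → a ≤ b → b ≤ 1 →
      (∀ x ∈ Set.Icc a b, c * ‖β‖ ≤ |(derivative^[i] (ppA β)).eval x|) →
      ‖∫ x in a..b, ee (ph β x)‖ ≤ D * ‖β‖ ^ (-(1 / (k : ℝ))) := by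
    intro i
    rcases Nat.lt_or_ge i 1 with h | h
    · exact ⟨1, one_pos, fun β _ h1 => absurd h1 (by omega)⟩
    rcases Nat.eq_or_lt_of_le h with h1 | h2
    · subst h1
      refine ⟨2 / c + L / c ^ 2, by positivity, ?_⟩
      intro β hβ _ hk1 a b ha hab hb hx
      have hβ0 : 0 < ‖β‖ := by linarith
      have := vdc1 (ppA β) a b (c * ‖β‖) (L * ‖β‖) hab (by linarith) (by positivity)
        (by simpa using hx)
        (fun x hx' => by simpa using hLb β 2 (by omega) x ⟨ha.trans hx'.1, hx'.2.trans hb⟩)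
      simp only [ppA_eval] at this
      refine this.trans ?_
      have e : 2 / (c * ‖β‖) + L * ‖β‖ / (c * ‖β‖) ^ 2 = (2 / c + L / c ^ 2) * ‖β‖⁻¹ := by
        field_simp
      rw [e]
      apply mul_le_mul_of_nonneg_left _ (by positivity)
      rw [← Real.rpow_neg_one]
      apply Real.rpow_le_rpow_of_exponent_le hβ
      have : 1 / (k:ℝ) ≤ 1 := by
        rw [div_le_one (by linarith)]; exact hkR
      linarith
    · obtain ⟨C, hC, h⟩ := hA1 i h2
      refine ⟨C * c ^ (-(1 / (i : ℝ))), by positivity, ?_⟩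
      intro β hβ _ hk1 a b ha hab hb hx
      have hβ0 : 0 < ‖β‖ := by linarith
      have := h (ppA β) a b (c * ‖β‖) hab (by positivity) hx
      simp only [ppA_eval] at this
      refine this.trans ?_
      rw [Real.mul_rpow hc.le (norm_nonneg _), ← mul_assoc]
      apply mul_le_mul_of_nonneg_left _ (by positivity)
      apply Real.rpow_le_rpow_of_exponent_le hβ
      have hi0 : (0:ℝ) < i := by
        have : 0 < i := by omega
        exact_mod_cast this
      have : 1 / (k:ℝ) ≤ 1 / (i:ℝ) := by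
        apply one_div_le_one_div_of_le hi0
        exact_mod_cast hk1
      linarith
  choose D hD hDb using hi
  refine ⟨∑ i ∈ Finset.range (k + 1), D i, Finset.sum_pos (fun i _ => hD i) (by simp), ?_⟩
  intro β hβ i h1 h2 a b ha hab hb hx
  refine (hDb i β hβ h1 h2 a b ha hab hb hx).trans ?_
  apply mul_le_mul_of_nonneg_right _ (by positivity)
  exact Finset.single_le_sum (f := D) (fun i _ => (hD i).le) (Finset.mem_range.mpr (by omega))

theorem t_A : S_A1 → S_A := by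
  intro hA1 k hk
  have hkR : (1:ℝ) ≤ k := by exact_mod_cast hk
  obtain ⟨L, hL, hLb⟩ := ppA_deriv_bound k
  obtain ⟨c, hc, hcb⟩ := ppA_lower k hk
  obtain ⟨D, hD, hDb⟩ := piece_bound hA1 k hk (c / 2) L (by positivity) hL hLb
  -- the number of pieces
  obtain ⟨M, hM⟩ := exists_nat_gt (2 * L / c)
  have hMpos : (0:ℝ) < M := lt_trans (by positivity) hM
  have hLM : L * (1 / M) ≤ c / 2 := by
    rw [mul_one_div, div_le_iff₀ hMpos]
    rw [div_lt_iff₀ hc] at hM
    linarith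
  -- short intervals
  have hshort : ∀ β : Fin k → ℝ, 1 ≤ ‖β‖ → ∀ a b : ℝ, 0 ≤ a → a ≤ b → b ≤ 1 → b - a ≤ 1 / M →
      ‖∫ x in a..b, ee (ph β x)‖ ≤ D * ‖β‖ ^ (-(1 / (k : ℝ))) := by
    intro β hβ a b ha hab hb hlen
    have ha1 : a ∈ Set.Icc (0:ℝ) 1 := ⟨ha, hab.trans hb⟩
    obtain ⟨i, hi1, hi2, hi3⟩ := hcb β a ha1
    apply hDb β hβ i hi1 hi2 a b ha hab hb
    intro x hx
    have hx1 : x ∈ Set.Icc (0:ℝ) 1 := ⟨ha.trans hx.1, hx.2.trans hb⟩
    have h1 := ppA_lip hLb β i hi2 ha1 hx1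
    have h2 : |x - a| ≤ 1 / M := by
      rw [abs_of_nonneg (by linarith [hx.1])]
      linarith [hx.2]
    have h3 : L * ‖β‖ * |x - a| ≤ c / 2 * ‖β‖ := by
      calc L * ‖β‖ * |x - a| ≤ L * ‖β‖ * (1 / M) := mul_le_mul_of_nonneg_left h2 (by positivity)
        _ = L * (1 / M) * ‖β‖ := by ring
        _ ≤ c / 2 * ‖β‖ := mul_le_mul_of_nonneg_right hLM (norm_nonneg _)
    have h4 : |(derivative^[i] (ppA β)).eval a| ≤ |(derivative^[i] (ppA β)).eval x| +
        |(derivative^[i] (ppA β)).eval x - (derivative^[i] (ppA β)).eval a| := by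
      have := abs_sub_abs_le_abs_sub ((derivative^[i] (ppA β)).eval a)
        ((derivative^[i] (ppA β)).eval x)
      rw [abs_sub_comm ((derivative^[i] (ppA β)).eval a)] at this
      linarith
    linarith
  have hcont : ∀ β : Fin k → ℝ, Continuous fun x => ee (ph β x) := by
    intro β
    apply ee_cont.comp
    unfold ph
    fun_prop
  have hlong : ∀ n : ℕ, ∀ β : Fin k → ℝ, 1 ≤ ‖β‖ → ∀ a b : ℝ, 0 ≤ a → a ≤ b → b ≤ 1 →
      b - a ≤ n * (1 / M) →
      ‖∫ x in a..b, ee (ph β x)‖ ≤ n * (D * ‖β‖ ^ (-(1 / (k : ℝ)))) := by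
    intro n
    induction n with
    | zero =>
      intro β hβ a b ha hab hb hlen
      have : a = b := by
        simp at hlen
        linarith
      subst this
      simp
    | succ n ih =>
      intro β hβ a b ha hab hb hlen
      have hinv : 0 < 1 / (M:ℝ) := by positivity
      have hm1 : a ≤ min (a + 1 / M) b := le_min (by linarith) hab
      have hm2 : min (a + 1 / M) b ≤ b := min_le_right _ _
      have hm3 : min (a + 1 / M) b - a ≤ 1 / M := by
        have := min_le_left (a + 1 / M) b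
        linarith
      have hm4 : b - min (a + 1 / M) b ≤ n * (1 / M) := by
        rcases le_total (a + 1 / M) b with h | h
        · rw [min_eq_left h]
          push_cast at hlen
          linarith
        · rw [min_eq_right h, sub_self]
          positivity
      have e1 := hshort β hβ a _ ha hm1 (hm2.trans hb) hm3
      have e2 := ih β hβ _ b (ha.trans hm1) hm2 hb hm4
      rw [← intervalIntegral.integral_add_adjacent_intervals
        ((hcont β).intervalIntegrable a (min (a + 1 / M) b))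
        ((hcont β).intervalIntegrable (min (a + 1 / M) b) b)]
      refine (norm_add_le _ _).trans ?_
      push_cast
      linarith
  refine ⟨2 * (M * D) + 2, by positivity, ?_⟩
  intro β a b ha hab hb
  have htriv : ‖∫ x in a..b, ee (ph β x)‖ ≤ 1 := by
    have := intervalIntegral.norm_integral_le_of_norm_le_const (a := a) (b := b) (C := 1)
      (f := fun x => ee (ph β x)) (fun x _ => (ee_norm _).le)
    refine this.trans ?_
    rw [one_mul, abs_of_nonneg (by linarith)]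
    linarith
  have hexp : 0 ≤ 1 / (k:ℝ) := by positivity
  have hexp1 : 1 / (k:ℝ) ≤ 1 := by rw [div_le_one (by linarith)]; exact hkR
  have h2 : (1:ℝ) / 2 ≤ 2 ^ (-(1 / (k:ℝ))) := by
    calc (1:ℝ) / 2 = 2 ^ (-1 : ℝ) := by rw [Real.rpow_neg_one]; norm_num
      _ ≤ 2 ^ (-(1 / (k:ℝ))) := Real.rpow_le_rpow_of_exponent_le (by norm_num) (by linarith)
  rcases lt_or_ge ‖β‖ 1 with hβ | hβ
  · have h3 : (2:ℝ) ^ (-(1 / (k:ℝ))) ≤ (1 + ‖β‖) ^ (-(1 / (k:ℝ))) := by
      apply Real.rpow_le_rpow_of_nonpos (by positivity) (by linarith) (by linarith)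
    have h4 : (1:ℝ) / 2 ≤ (1 + ‖β‖) ^ (-(1 / (k:ℝ))) := h2.trans h3
    have h5 : 0 ≤ 2 * (M * D) * (1 + ‖β‖) ^ (-(1 / (k:ℝ))) := by positivity
    calc ‖∫ x in a..b, ee (ph β x)‖ ≤ 1 := htriv
      _ ≤ 2 * (M * D) * (1 + ‖β‖) ^ (-(1 / (k:ℝ))) + 2 * (1 + ‖β‖) ^ (-(1 / (k:ℝ))) := by linarith
      _ = (2 * (M * D) + 2) * (1 + ‖β‖) ^ (-(1 / (k:ℝ))) := by ring
  · have hβ0 : 0 < ‖β‖ := by linarith
    have h3 := hlong M β hβ a b ha hab hb (by
      rw [mul_one_div_cancel hMpos.ne']; linarith)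
    have h4 : (1 / 2) * ‖β‖ ^ (-(1 / (k:ℝ))) ≤ (1 + ‖β‖) ^ (-(1 / (k:ℝ))) := by
      calc (1 / 2) * ‖β‖ ^ (-(1 / (k:ℝ))) ≤ 2 ^ (-(1 / (k:ℝ))) * ‖β‖ ^ (-(1 / (k:ℝ))) :=
            mul_le_mul_of_nonneg_right h2 (by positivity)
        _ = (2 * ‖β‖) ^ (-(1 / (k:ℝ))) := by rw [Real.mul_rpow (by norm_num) (norm_nonneg _)]
        _ ≤ (1 + ‖β‖) ^ (-(1 / (k:ℝ))) :=
            Real.rpow_le_rpow_of_nonpos (by positivity) (by linarith) (by linarith)
    have h5 : 0 ≤ (1 + ‖β‖) ^ (-(1 / (k:ℝ))) := by positivity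
    have hMD : 0 ≤ 2 * (M * D) := by positivity
    calc ‖∫ x in a..b, ee (ph β x)‖ ≤ M * (D * ‖β‖ ^ (-(1 / (k : ℝ)))) := h3
      _ = 2 * (M * D) * ((1 / 2) * ‖β‖ ^ (-(1 / (k : ℝ)))) := by ring
      _ ≤ 2 * (M * D) * (1 + ‖β‖) ^ (-(1 / (k:ℝ))) := mul_le_mul_of_nonneg_left h4 hMD
      _ ≤ (2 * (M * D) + 2) * (1 + ‖β‖) ^ (-(1 / (k:ℝ))) := by
        apply mul_le_mul_of_nonneg_right _ h5; linarith

end

end Pool.Agent.U160.VP
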