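import Pool.Agent.U160.VP.Stm
import Pool.Agent.Helper646.Vdc

/-!
# Project VP, package A1: the derivative test of order `j ≥ 2` for polynomials
-/

set_option autoImplicit false

namespace Pool.Agent.U160.VP

open MeasureTheory intervalIntegral Set

namespace A1

theorem ee_norm (x : ℝ) : ‖ee x‖ = 1 := by
  unfold ee
  have : (2 * (Real.pi : ℂ) * Complex.I * (x : ℂ)) = ((2 * Real.pi * x : ℝ) : ℂ) * Complex.I := by
    push_cast
    ring
  rw [this]
  exact Complex.norm_exp_ofReal_mul_I _

theorem ee_neg (x : ℝ) : ee (-x) = (starRingEnd ℂ) (ee x) := by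
  unfold ee
  rw [← Complex.exp_conj]
  congr 1
  have h : (starRingEnd ℂ) 2 = 2 := map_ofNat _ 2
  simp [h]

theorem hasDerivAt_g (P : Polynomial ℝ) (t : ℝ) :
    HasDerivAt (fun x : ℝ => ee (P.eval x))
      (Complex.I * ((2 * Real.pi * (Polynomial.derivative P).eval t : ℝ) : ℂ) * ee (P.eval t)) t := by
  unfold ee
  have h1 : HasDerivAt (fun x : ℝ => ((P.eval x : ℝ) : ℂ))
      (((Polynomial.derivative P).eval t : ℝ) : ℂ) t := (P.hasDerivAt t).ofReal_comp
  have h2 := (h1.const_mul (2 * (Real.pi : ℂ) * Complex.I)).cexp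
  refine h2.congr_deriv ?_
  push_cast
  ring

theorem cont_g (P : Polynomial ℝ) : Continuous (fun x : ℝ => ee (P.eval x)) :=
  continuous_iff_continuousAt.2 fun t => (hasDerivAt_g P t).continuousAt

theorem trivial_bound (P : Polynomial ℝ) {a b : ℝ} (hab : a ≤ b) :
    ‖∫ x in a..b, ee (P.eval x)‖ ≤ b - a :=
  Pool.Agent.Helper646.Vdc.norm_int_le hab fun _ => ee_norm _

theorem int_neg (P : Polynomial ℝ) (a b : ℝ) :
    ‖∫ x in a..b, ee ((-P).eval x)‖ = ‖∫ x in a..b, ee (P.eval x)‖ := by
  have h : ∀ x : ℝ, ee ((-P).eval x) = (starRingEnd ℂ) (ee (P.eval x)) := by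
    intro x
    rw [Polynomial.eval_neg, ee_neg]
  simp_rw [h]
  have h2 : ∫ x in a..b, (starRingEnd ℂ) (ee (P.eval x)) =
      (starRingEnd ℂ) (∫ x in a..b, ee (P.eval x)) := by
    rw [intervalIntegral, intervalIntegral, map_sub, ← integral_conj, ← integral_conj]
  rw [h2, RCLike.norm_conj]

theorem slope {Q : Polynomial ℝ} {a b lam : ℝ}
    (h : ∀ x ∈ Icc a b, lam ≤ (Polynomial.derivative Q).eval x) {x y : ℝ} (hx : x ∈ Icc a b)
    (hy : y ∈ Icc a b) (hxy : x ≤ y) : lam * (y - x) ≤ Q.eval y - Q.eval x := by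
  apply Convex.mul_sub_le_image_sub_of_le_deriv (convex_Icc a b) Q.continuous.continuousOn
    (fun t _ => Q.differentiable.differentiableAt.differentiableWithinAt) _ x hx y hy hxy
  intro t ht
  rw [Polynomial.deriv]
  exact h t (interior_subset ht)

/-- the statement of order `j` with constant `C` -/
def K (j : ℕ) (C : ℝ) : Prop := ∀ (P : Polynomial ℝ) (a b lam : ℝ), a ≤ b → 0 < lam →
  ((∀ x ∈ Icc a b, lam ≤ ((Polynomial.derivative^[j]) P).eval x) ∨
    (∀ x ∈ Icc a b, ((Polynomial.derivative^[j]) P).eval x ≤ -lam)) →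
  ‖∫ x in a..b, ee (P.eval x)‖ ≤ C * lam ^ (-(1 / (j : ℝ)))

theorem K_of_pos {j : ℕ} {C : ℝ} (h : ∀ (P : Polynomial ℝ) (a b lam : ℝ), a ≤ b → 0 < lam →
    (∀ x ∈ Icc a b, lam ≤ ((Polynomial.derivative^[j]) P).eval x) →
    ‖∫ x in a..b, ee (P.eval x)‖ ≤ C * lam ^ (-(1 / (j : ℝ)))) : K j C := by
  intro P a b lam hab hlam hP
  rcases hP with hP | hP
  · exact h P a b lam hab hlam hP
  · rw [← int_neg]
    refine h (-P) a b lam hab hlam fun x hx => ?_
    rw [Polynomial.iterate_derivative_neg, Polynomial.eval_neg]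
    linarith [hP x hx]

theorem K_two : K 2 4 := by
  refine K_of_pos fun P a b lam hab hlam hP => ?_
  have hpi := Real.pi_pos
  set d : ℝ := lam ^ (-(1 / ((2 : ℕ) : ℝ))) with hd
  have hd0 : 0 < d := Real.rpow_pos_of_pos hlam _
  have hdd : lam * d = d⁻¹ := by
    have h1 : d * d = lam⁻¹ := by
      rw [hd, ← Real.rpow_add hlam, ← Real.rpow_neg_one]
      congr 1
      norm_num
    have h2 : lam * (d * d) = 1 := by rw [h1, mul_inv_cancel₀ hlam.ne']
    field_simp
    linarith
  have := Pool.Agent.Helper646.Vdc.vdc_two (g := fun x : ℝ => ee (P.eval x))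
    (w := fun t => 2 * Real.pi * (Polynomial.derivative P).eval t)
    (w' := fun t => 2 * Real.pi * (Polynomial.derivative (Polynomial.derivative P)).eval t)
    (l := 2 * Real.pi * lam) (d := d) hab (by positivity) hd0
    (fun t => hasDerivAt_g P t) (fun t => ee_norm _)
    (fun t => ((Polynomial.derivative P).hasDerivAt t).const_mul _)
    (continuous_const.mul (Polynomial.continuous _))
    (fun t ht => by
      have := hP t ht
      rw [Function.iterate_succ_apply', Function.iterate_one] at this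
      exact mul_le_mul_of_nonneg_left this (by positivity))
  refine this.trans ?_
  have e : 2 / (2 * Real.pi * lam * d) = d / Real.pi := by
    rw [mul_assoc (2 * Real.pi), hdd]
    field_simp
  rw [e]
  have h3 : d / Real.pi ≤ d := by
    rw [div_le_iff₀ hpi]
    nlinarith [Real.pi_gt_three]
  linarith

theorem half_pos {j : ℕ} {C : ℝ} (hC : 0 < C) (hK : K j C) (P : Polynomial ℝ) (a b lam d : ℝ) (hab : a ≤ b)
    (hlam : 0 < lam) (hd : 0 < d)
    (hP : ∀ x ∈ Icc a b, lam ≤ ((Polynomial.derivative^[j + 1]) P).eval x)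
    (h0 : 0 ≤ ((Polynomial.derivative^[j]) P).eval a) :
    ‖∫ x in a..b, ee (P.eval x)‖ ≤ d + C * (lam * d) ^ (-(1 / (j : ℝ))) := by
  have hpos : 0 < C * (lam * d) ^ (-(1 / (j : ℝ))) := by positivity
  rw [Function.iterate_succ_apply'] at hP
  rcases le_or_gt b (a + d) with h | h
  · have := trivial_bound P hab
    linarith
  · have hsplit : ∫ t in a..b, ee (P.eval t) = (∫ t in a..(a + d), ee (P.eval t)) +
        ∫ t in (a + d)..b, ee (P.eval t) :=
      (intervalIntegral.integral_add_adjacent_intervals ((cont_g P).intervalIntegrable _ _)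
        ((cont_g P).intervalIntegrable _ _)).symm
    have h1 := trivial_bound P (show a ≤ a + d by linarith)
    have h2 := hK P (a + d) b (lam * d) h.le (by positivity) (Or.inl fun x hx => by
      have := slope hP (left_mem_Icc.2 hab) (y := x) ⟨by linarith [hx.1], hx.2⟩ (by linarith [hx.1])
      have h3 : lam * d ≤ lam * (x - a) := mul_le_mul_of_nonneg_left (by linarith [hx.1]) hlam.le
      linarith)
    rw [hsplit]
    refine (norm_add_le _ _).trans ?_
    linarith

theorem half_neg {j : ℕ} {C : ℝ} (hC : 0 < C) (hK : K j C) (P : Polynomial ℝ) (a b lam d : ℝ) (hab : a ≤ b)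
    (hlam : 0 < lam) (hd : 0 < d)
    (hP : ∀ x ∈ Icc a b, lam ≤ ((Polynomial.derivative^[j + 1]) P).eval x)
    (h0 : ((Polynomial.derivative^[j]) P).eval b ≤ 0) :
    ‖∫ x in a..b, ee (P.eval x)‖ ≤ d + C * (lam * d) ^ (-(1 / (j : ℝ))) := by
  have hpos : 0 < C * (lam * d) ^ (-(1 / (j : ℝ))) := by positivity
  rw [Function.iterate_succ_apply'] at hP
  rcases le_or_gt (b - d) a with h | h
  · have := trivial_bound P hab
    linarith
  · have hsplit : ∫ t in a..b, ee (P.eval t) = (∫ t in a..(b - d), ee (P.eval t)) +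
        ∫ t in (b - d)..b, ee (P.eval t) :=
      (intervalIntegral.integral_add_adjacent_intervals ((cont_g P).intervalIntegrable _ _)
        ((cont_g P).intervalIntegrable _ _)).symm
    have h1 := trivial_bound P (show b - d ≤ b by linarith)
    have h2 := hK P a (b - d) (lam * d) h.le (by positivity) (Or.inr fun x hx => by
      have := slope hP (x := x) (y := b) ⟨hx.1, by linarith [hx.2]⟩ (right_mem_Icc.2 hab)
        (by linarith [hx.2])
      have h3 : lam * d ≤ lam * (b - x) := mul_le_mul_of_nonneg_left (by linarith [hx.2]) hlam.le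
      linarith)
    rw [hsplit]
    refine (norm_add_le _ _).trans ?_
    linarith

theorem K_succ {j : ℕ} (hj : 1 ≤ j) {C : ℝ} (hC : 0 < C) (hK : K j C) : K (j + 1) (2 + 2 * C) := by
  refine K_of_pos fun P a b lam hab hlam hP => ?_
  have hj0 : (0 : ℝ) < (j : ℝ) := by exact_mod_cast hj
  set d : ℝ := lam ^ (-(1 / ((j + 1 : ℕ) : ℝ))) with hd
  have hd0 : 0 < d := Real.rpow_pos_of_pos hlam _
  have hdd : (lam * d) ^ (-(1 / (j : ℝ))) = d := by
    have h1 : lam * d = lam ^ (1 - 1 / ((j + 1 : ℕ) : ℝ)) := by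
      rw [sub_eq_add_neg, Real.rpow_add hlam, Real.rpow_one]
    rw [h1, ← Real.rpow_mul hlam.le, hd]
    congr 1
    push_cast
    field_simp
    ring
  set Q := (Polynomial.derivative^[j]) P with hQ
  have hc : Continuous fun x => Q.eval x := Q.continuous
  rcases le_or_gt 0 (Q.eval a) with h1 | h1
  · have := half_pos hC hK P a b lam d hab hlam hd0 hP h1
    rw [hdd] at this
    nlinarith
  · rcases le_or_gt (Q.eval b) 0 with h2 | h2
    · have := half_neg hC hK P a b lam d hab hlam hd0 hP h2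
      rw [hdd] at this
      nlinarith
    · obtain ⟨c, hcm, hc0⟩ := intermediate_value_Icc hab hc.continuousOn ⟨h1.le, h2.le⟩
      have hc0 : Q.eval c = 0 := hc0
      have hsplit : ∫ t in a..b, ee (P.eval t) = (∫ t in a..c, ee (P.eval t)) +
          ∫ t in c..b, ee (P.eval t) :=
        (intervalIntegral.integral_add_adjacent_intervals ((cont_g P).intervalIntegrable _ _)
          ((cont_g P).intervalIntegrable _ _)).symm
      have h3 := half_neg hC hK P a c lam d hcm.1 hlam hd0
        (fun t ht => hP t ⟨ht.1, ht.2.trans hcm.2⟩) hc0.le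
      have h4 := half_pos hC hK P c b lam d hcm.2 hlam hd0
        (fun t ht => hP t ⟨hcm.1.trans ht.1, ht.2⟩) hc0.ge
      rw [hdd] at h3 h4
      rw [hsplit]
      refine (norm_add_le _ _).trans ?_
      linarith

theorem K_all (j : ℕ) (hj : 2 ≤ j) : ∃ C : ℝ, 0 < C ∧ K j C := by
  induction j, hj using Nat.le_induction with
  | base => exact ⟨4, by norm_num, K_two⟩
  | succ j hj ih =>
    obtain ⟨C, hC, hK⟩ := ih
    exact ⟨2 + 2 * C, by positivity, K_succ (by omega) hC hK⟩

end A1

/-- package A1 -/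
theorem t_A1 : S_A1 := by
  intro j hj
  obtain ⟨C, hC, hK⟩ := A1.K_all j hj
  refine ⟨C, hC, fun P a b lam hab hlam hP => hK P a b lam hab hlam ?_⟩
  set Q := (Polynomial.derivative^[j]) P with hQ
  have hc : Continuous fun x => Q.eval x := Q.continuous
  have hne : ∀ x ∈ Icc a b, Q.eval x ≠ 0 := fun x hx h0 => by
    have := hP x hx
    rw [h0, abs_zero] at this
    linarith
  rcases le_or_gt 0 (Q.eval a) with h1 | h1
  · left
    intro x hx
    have h2 : 0 ≤ Q.eval x := by
      by_contra h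
      push Not at h
      obtain ⟨c, hcm, hc0⟩ := intermediate_value_Icc' hx.1 hc.continuousOn ⟨h.le, h1⟩
      exact hne c ⟨hcm.1, hcm.2.trans hx.2⟩ hc0
    have := hP x hx
    rwa [abs_of_nonneg h2] at this
  · right
    intro x hx
    have h2 : Q.eval x ≤ 0 := by
      by_contra h
      push Not at h
      obtain ⟨c, hcm, hc0⟩ := intermediate_value_Icc hx.1 hc.continuousOn ⟨h1.le, h.le⟩
      exact hne c ⟨hcm.1, hcm.2.trans hx.2⟩ hc0
    have := hP x hx
    rw [abs_of_nonpos h2] at this
    linarith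

end Pool.Agent.U160.VP
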