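import Pool.Agent.U160.VP.Stm

set_option autoImplicit false

/-!
# Package B: moments of `II` over boxes
-/

namespace Pool.Agent.U160.VP

open MeasureTheory Finset

namespace PkgB

variable {k : ℕ}

theorem ph_scale (β : Fin k → ℝ) (R y : ℝ) :
    ph (fun j : Fin k => R ^ (j.val + 1) * β j) y = ph β (R * y) := by
  unfold ph
  refine Finset.sum_congr rfl fun j _ => ?_
  rw [mul_pow]
  ring

theorem II_scale (N : ℕ) (β : Fin k → ℝ) :
    II N β = ((N : ℝ) + 1) • ∫ y in (((N : ℝ) + 1)⁻¹)..1,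
      ee (ph (fun j : Fin k => ((N : ℝ) + 1) ^ (j.val + 1) * β j) y) := by
  have hR : ((N : ℝ) + 1) ≠ 0 := by positivity
  simp only [ph_scale]
  rw [intervalIntegral.integral_comp_mul_left (fun x => ee (ph β x)) hR, smul_smul,
    mul_inv_cancel₀ hR, one_smul, mul_one]
  rfl

theorem II_bound {C : ℝ} (hA : ∀ (β : Fin k → ℝ) (a b : ℝ), 0 ≤ a → a ≤ b → b ≤ 1 →
    ‖∫ x in a..b, ee (ph β x)‖ ≤ C * (1 + ‖β‖) ^ (-(1 / (k : ℝ)))) (N : ℕ) (β : Fin k → ℝ) :
    ‖II N β‖ ≤ ((N : ℝ) + 1) * (C * (1 + ‖fun j : Fin k => ((N : ℝ) + 1) ^ (j.val + 1) * β j‖) ^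
      (-(1 / (k : ℝ)))) := by
  have hR : (1 : ℝ) ≤ (N : ℝ) + 1 := by
    have : (0 : ℝ) ≤ N := Nat.cast_nonneg N
    linarith
  rw [II_scale, norm_smul, Real.norm_of_nonneg (by positivity)]
  refine mul_le_mul_of_nonneg_left (hA _ _ _ (by positivity) (inv_le_one_of_one_le₀ hR) le_rfl)
    (by positivity)

/-- `x^p ≤ T^p + T^(p-q) x^q` -/
theorem split_le {x T : ℝ} (hx : 0 < x) (hT : 0 < T) {p q : ℝ} (hp : 0 ≤ p) (hpq : p ≤ q) :
    x ^ p ≤ T ^ p + T ^ (p - q) * x ^ q := by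
  rcases le_total x T with h | h
  · have h1 : x ^ p ≤ T ^ p := Real.rpow_le_rpow hx.le h hp
    have h2 : 0 ≤ T ^ (p - q) * x ^ q := by positivity
    linarith
  · have h1 : x ^ (p - q) ≤ T ^ (p - q) := Real.rpow_le_rpow_of_nonpos hT h (by linarith)
    have h2 : x ^ p = x ^ (p - q) * x ^ q := by
      rw [← Real.rpow_add hx]
      congr 1
      ring
    rw [h2]
    have h3 : x ^ (p - q) * x ^ q ≤ T ^ (p - q) * x ^ q :=
      mul_le_mul_of_nonneg_right h1 (by positivity)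
    have h4 : 0 ≤ T ^ p := by positivity
    linarith

theorem box_vol (v : Fin k → ℝ) {r : ℝ} (hr : 0 < r) :
    (volume : Measure (Fin k → ℝ)).real (box k v r) = (2 * r) ^ k := by
  unfold box
  rw [Measure.real, Real.volume_Icc_pi]
  have h : ∀ i : Fin k, ENNReal.ofReal (v i + r - (v i - r)) = ENNReal.ofReal (2 * r) := by
    intro i
    congr 1
    ring
  simp only [h, Finset.prod_const, Finset.card_univ, Fintype.card_fin]
  rw [ENNReal.toReal_pow, ENNReal.toReal_ofReal (by positivity)]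

end PkgB

open PkgB

theorem t_B : S_A → S_B0 → S_B := by
  intro hA hB0 k p hk r hr
  obtain ⟨C₁, hC₁, hA⟩ := hA k hk
  obtain ⟨C₂, hC₂, hB⟩ := hB0 k hk
  have hk0 : (0 : ℝ) < k := by exact_mod_cast hk
  set q : ℝ := k * (k + 1 / 2) with hq
  set K : ℝ := (k : ℝ) * ((k : ℝ) + 1) / 2 with hK
  set t : ℝ := (k : ℝ) / (2 * k + 1) with ht
  refine ⟨C₁ ^ p * ((2 * r) ^ k + C₂) * 2 ^ (p : ℝ), by positivity, fun N hN v => ?_⟩
  have hN1 : (1 : ℝ) ≤ N := by exact_mod_cast hN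
  set R : ℝ := (N : ℝ) + 1 with hR
  have hR1 : 1 ≤ R := by rw [hR]; linarith
  have hR0 : 0 < R := by linarith
  obtain ⟨hi, hB⟩ := hB R hR1
  set g : (Fin k → ℝ) → ℝ := fun β =>
    (1 + ‖fun j : Fin k => R ^ (j.val + 1) * β j‖) ^ (-(1 / (k : ℝ))) with hg
  have hg0 : ∀ β, 0 < g β := fun β => by
    simp only [hg]
    positivity
  have hgq : ∀ β, g β ^ q = (1 + ‖fun j : Fin k => R ^ (j.val + 1) * β j‖) ^
      (-((k : ℝ) + 1 / 2)) := by
    intro β
    simp only [hg]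
    rw [← Real.rpow_mul (by positivity)]
    congr 1
    rw [hq]
    field_simp
  have hG : ∀ β, ‖II N β‖ ^ p ≤ C₁ ^ p * (R * g β) ^ (p : ℝ) := by
    intro β
    have h1 := II_bound hA N β
    have h2 : ‖II N β‖ ^ p ≤ (R * (C₁ * g β)) ^ p := pow_le_pow_left₀ (norm_nonneg _) h1 p
    refine h2.trans (le_of_eq ?_)
    rw [Real.rpow_natCast, ← mul_pow]
    congr 1
    ring
  have hi' : Integrable (fun β : Fin k → ℝ => g β ^ q) := by
    simp only [hgq]
    exact hi
  have hB' : ∫ β in box k v r, g β ^ q ≤ C₂ * R ^ (-K) := by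
    refine le_trans ?_ hB
    simp only [hgq]
    exact setIntegral_le_integral hi (Filter.Eventually.of_forall fun β => by positivity)
  have hRN : R ≤ 2 * N := by rw [hR]; linarith
  -- powers of `R`
  have hpow : ∀ a : ℝ, 0 ≤ a → a ≤ p → R ^ a ≤ 2 ^ (p : ℝ) * (N : ℝ) ^ a := by
    intro a ha hap
    have h1 : R ^ a ≤ (2 * N : ℝ) ^ a := Real.rpow_le_rpow hR0.le hRN ha
    rw [Real.mul_rpow (by norm_num) (by positivity)] at h1
    refine h1.trans (mul_le_mul_of_nonneg_right ?_ (by positivity))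
    exact Real.rpow_le_rpow_of_exponent_le (by norm_num) hap
  have hAA : AA p k N = (N : ℝ) ^ ((p : ℝ) * k / (2 * k + 1)) + (N : ℝ) ^ ((p : ℝ) - K) := rfl
  rw [hAA]
  have ht0 : 0 ≤ t := by rw [ht]; positivity
  have ht1 : t ≤ 1 := by
    rw [ht, div_le_one (by positivity)]
    linarith
  rcases le_total q p with hqp | hqp
  · -- `p ≥ q`
    have hKq : K ≤ q := by
      rw [hK, hq]
      nlinarith
    have h1 : ∫ β in box k v r, ‖II N β‖ ^ p ≤
        ∫ β in box k v r, C₁ ^ p * R ^ (p : ℝ) * g β ^ q := by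
      refine integral_mono_of_nonneg (Filter.Eventually.of_forall fun β => by positivity)
        ((hi'.const_mul _).integrableOn) (Filter.Eventually.of_forall fun β => ?_)
      show ‖II N β‖ ^ p ≤ C₁ ^ p * R ^ (p : ℝ) * g β ^ q
      refine (hG β).trans ?_
      rw [Real.mul_rpow hR0.le (hg0 β).le, mul_assoc]
      refine mul_le_mul_of_nonneg_left (mul_le_mul_of_nonneg_left ?_ (by positivity))
        (by positivity)
      refine Real.rpow_le_rpow_of_exponent_ge (hg0 β) ?_ hqp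
      have h0 : 0 ≤ ‖(fun j : Fin k => R ^ (j.val + 1) * β j)‖ := norm_nonneg _
      simp only [hg]
      exact Real.rpow_le_one_of_one_le_of_nonpos (by linarith) (by
          rw [neg_nonpos]
          positivity)
    rw [integral_const_mul] at h1
    have h2 : C₁ ^ p * R ^ (p : ℝ) * ∫ β in box k v r, g β ^ q ≤
        C₁ ^ p * R ^ (p : ℝ) * (C₂ * R ^ (-K)) := mul_le_mul_of_nonneg_left hB' (by positivity)
    have h3 : C₁ ^ p * R ^ (p : ℝ) * (C₂ * R ^ (-K)) = C₁ ^ p * C₂ * R ^ ((p : ℝ) - K) := by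
      rw [sub_eq_add_neg, Real.rpow_add hR0]
      ring
    have hK0 : 0 ≤ K := by rw [hK]; positivity
    have h4 := hpow ((p : ℝ) - K) (by linarith) (by linarith)
    calc ∫ β in box k v r, ‖II N β‖ ^ p ≤ C₁ ^ p * C₂ * R ^ ((p : ℝ) - K) := by
          rw [← h3]; exact h1.trans h2
      _ ≤ C₁ ^ p * C₂ * (2 ^ (p : ℝ) * (N : ℝ) ^ ((p : ℝ) - K)) :=
          mul_le_mul_of_nonneg_left h4 (by positivity)
      _ ≤ C₁ ^ p * ((2 * r) ^ k + C₂) * 2 ^ (p : ℝ) *
          ((N : ℝ) ^ ((p : ℝ) * k / (2 * k + 1)) + (N : ℝ) ^ ((p : ℝ) - K)) := by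
          have h5 : 0 ≤ (2 * r) ^ k := by positivity
          have h6 : 0 ≤ (N : ℝ) ^ ((p : ℝ) * k / (2 * k + 1)) := by positivity
          have h7 : 0 ≤ (N : ℝ) ^ ((p : ℝ) - K) := by positivity
          have h8 : 0 ≤ C₁ ^ p * 2 ^ (p : ℝ) := by positivity
          have h9 : C₂ * (N : ℝ) ^ ((p : ℝ) - K) ≤ ((2 * r) ^ k + C₂) *
              ((N : ℝ) ^ ((p : ℝ) * k / (2 * k + 1)) + (N : ℝ) ^ ((p : ℝ) - K)) := by
            nlinarith [mul_nonneg h5 h6, mul_nonneg h5 h7, mul_nonneg hC₂.le h6]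
          calc C₁ ^ p * C₂ * (2 ^ (p : ℝ) * (N : ℝ) ^ ((p : ℝ) - K)) =
              (C₁ ^ p * 2 ^ (p : ℝ)) * (C₂ * (N : ℝ) ^ ((p : ℝ) - K)) := by ring
            _ ≤ (C₁ ^ p * 2 ^ (p : ℝ)) * (((2 * r) ^ k + C₂) *
              ((N : ℝ) ^ ((p : ℝ) * k / (2 * k + 1)) + (N : ℝ) ^ ((p : ℝ) - K))) :=
                mul_le_mul_of_nonneg_left h9 h8
            _ = _ := by ring
  · -- `p ≤ q`
    set T : ℝ := R ^ t with hT
    have hT0 : 0 < T := by rw [hT]; positivity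
    have hbi : IntegrableOn (fun _ : Fin k → ℝ => (1 : ℝ)) (box k v r) := by
      rw [integrableOn_const_iff]
      right
      unfold box
      rw [Real.volume_Icc_pi]
      exact ENNReal.prod_lt_top fun i _ => ENNReal.ofReal_lt_top
    have h1 : ∫ β in box k v r, ‖II N β‖ ^ p ≤
        ∫ β in box k v r, (C₁ ^ p * T ^ (p : ℝ) * 1 +
          C₁ ^ p * (T ^ ((p : ℝ) - q) * R ^ q) * g β ^ q) := by
      refine integral_mono_of_nonneg (Filter.Eventually.of_forall fun β => by positivity)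
        ((hbi.const_mul _).add ((hi'.const_mul _).integrableOn))
        (Filter.Eventually.of_forall fun β => ?_)
      refine (hG β).trans ?_
      have h2 := split_le (mul_pos hR0 (hg0 β)) hT0 (p := (p : ℝ)) (q := q)
        (Nat.cast_nonneg p) hqp
      rw [Real.mul_rpow (z := q) hR0.le (hg0 β).le] at h2
      have h3 : C₁ ^ p * (R * g β) ^ (p : ℝ) ≤ C₁ ^ p * (T ^ (p : ℝ) +
          T ^ ((p : ℝ) - q) * (R ^ q * g β ^ q)) := mul_le_mul_of_nonneg_left h2 (by positivity)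
      refine h3.trans (le_of_eq ?_)
      ring
    rw [integral_add (hbi.const_mul _) ((hi'.const_mul _).integrableOn), integral_const_mul,
      integral_const_mul, integral_const, smul_eq_mul, mul_one, Measure.real,
      Measure.restrict_apply_univ, ← Measure.real, box_vol v hr] at h1
    have h2 : C₁ ^ p * (T ^ ((p : ℝ) - q) * R ^ q) * ∫ β in box k v r, g β ^ q ≤
        C₁ ^ p * (T ^ ((p : ℝ) - q) * R ^ q) * (C₂ * R ^ (-K)) :=
      mul_le_mul_of_nonneg_left hB' (by positivity)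
    have hTp : T ^ (p : ℝ) = R ^ ((p : ℝ) * k / (2 * k + 1)) := by
      rw [hT, ← Real.rpow_mul hR0.le]
      congr 1
      rw [ht]
      ring
    have h3 : T ^ ((p : ℝ) - q) * R ^ q * R ^ (-K) = R ^ ((p : ℝ) * k / (2 * k + 1)) := by
      rw [hT, ← Real.rpow_mul hR0.le, ← Real.rpow_add hR0, ← Real.rpow_add hR0]
      congr 1
      rw [ht, hq, hK]
      field_simp
      ring
    have h4 : ∫ β in box k v r, ‖II N β‖ ^ p ≤
        C₁ ^ p * ((2 * r) ^ k + C₂) * R ^ ((p : ℝ) * k / (2 * k + 1)) := by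
      rw [hTp] at h1
      have h5 : C₁ ^ p * (T ^ ((p : ℝ) - q) * R ^ q) * (C₂ * R ^ (-K)) =
          C₁ ^ p * C₂ * R ^ ((p : ℝ) * k / (2 * k + 1)) := by
        rw [← h3]
        ring
      rw [h5] at h2
      refine h1.trans ?_
      linarith
    have h5 : (p : ℝ) * k / (2 * k + 1) = p * t := by
      rw [ht]
      ring
    have h6 := hpow ((p : ℝ) * k / (2 * k + 1)) (by positivity) (by
      rw [h5]
      exact mul_le_of_le_one_right (Nat.cast_nonneg p) ht1)
    calc ∫ β in box k v r, ‖II N β‖ ^ p ≤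
        C₁ ^ p * ((2 * r) ^ k + C₂) * R ^ ((p : ℝ) * k / (2 * k + 1)) := h4
      _ ≤ C₁ ^ p * ((2 * r) ^ k + C₂) * (2 ^ (p : ℝ) * (N : ℝ) ^ ((p : ℝ) * k / (2 * k + 1))) :=
          mul_le_mul_of_nonneg_left h6 (by positivity)
      _ ≤ C₁ ^ p * ((2 * r) ^ k + C₂) * (2 ^ (p : ℝ) *
          ((N : ℝ) ^ ((p : ℝ) * k / (2 * k + 1)) + (N : ℝ) ^ ((p : ℝ) - K))) := by
          refine mul_le_mul_of_nonneg_left (mul_le_mul_of_nonneg_left ?_ (by positivity))
            (by positivity)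
          have : 0 ≤ (N : ℝ) ^ ((p : ℝ) - K) := by positivity
          linarith
      _ = _ := by ring

end Pool.Agent.U160.VP
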