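import Pool.Agent.U160.VP.Stm

set_option autoImplicit false

/-! Package B0: scaling of the integral of `(1+‖x‖)^(-(k+1/2))`. -/

namespace Pool.Agent.U160.VP

open MeasureTheory ProbabilityTheory Finset

noncomputable section

namespace PkgB0

/-- the integrand -/
def g (k : ℕ) (x : Fin k → ℝ) : ℝ := (1 + ‖x‖) ^ (-((k : ℝ) + 1 / 2))

lemma g_int (k : ℕ) : Integrable (g k) := by
  refine integrable_one_add_norm (E := Fin k → ℝ) (r := (k : ℝ) + 1 / 2) ?_
  rw [Module.finrank_fin_fun]
  linarith

lemma sum_fin (k : ℕ) : ((∑ j : Fin k, (j.val + 1) : ℕ) : ℝ) = (k : ℝ) * ((k : ℝ) + 1) / 2 := by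
  induction k with
  | zero => simp
  | succ n ih =>
    rw [Fin.sum_univ_castSucc]
    push_cast at ih ⊢
    simp only [Fin.val_castSucc]
    rw [ih]
    ring

end PkgB0

open PkgB0 in
theorem t_B0 : S_B0 := by
  intro k hk
  have h0 : 0 ≤ ∫ x : Fin k → ℝ, g k x := integral_nonneg fun x => by unfold g; positivity
  refine ⟨(∫ x : Fin k → ℝ, g k x) + 1, by positivity, fun R hR => ?_⟩
  have hR0 : 0 < R := by linarith
  set D : Fin k → ℝ := fun j => R ^ (j.val + 1) with hD
  have hdet : (Matrix.diagonal D).det = R ^ (∑ j : Fin k, (j.val + 1)) := by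
    rw [Matrix.det_diagonal, hD, Finset.prod_pow_eq_pow_sum]
  have hpos : 0 < (Matrix.diagonal D).det := by rw [hdet]; positivity
  have hv := Real.smul_map_diagonal_volume_pi (D := D) hpos.ne'
  have hT : ∀ β : Fin k → ℝ, Matrix.toLin' (Matrix.diagonal D) β = fun j : Fin k => R ^ (j.val + 1) * β j := by
    intro β
    ext j
    rw [Matrix.toLin'_apply, Matrix.mulVec_diagonal]
  have hmeas : Measurable (Matrix.toLin' (Matrix.diagonal D)) :=
    (LinearMap.continuous_on_pi _).measurable
  have hmap : Measure.map (Matrix.toLin' (Matrix.diagonal D)) (volume : Measure (Fin k → ℝ)) =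
      (ENNReal.ofReal |(Matrix.diagonal D).det|)⁻¹ • volume := by
    rw [← hv, smul_smul, ENNReal.inv_mul_cancel, one_smul]
    · rw [hv]
    · exact (ENNReal.ofReal_pos.mpr (abs_pos.mpr hpos.ne')).ne'
    · exact ENNReal.ofReal_ne_top
  have hg : AEStronglyMeasurable (g k) (Measure.map (Matrix.toLin' (Matrix.diagonal D)) volume) := by
    have : Continuous (g k) := by
      unfold g
      refine Continuous.rpow_const (by fun_prop) fun x => Or.inl (by positivity)
    exact this.aestronglyMeasurable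
  have hcne : (ENNReal.ofReal |(Matrix.diagonal D).det|)⁻¹ ≠ ⊤ := by
    rw [Ne, ENNReal.inv_eq_top, ENNReal.ofReal_eq_zero, not_le]
    exact abs_pos.mpr hpos.ne'
  have hfun : (fun β : Fin k → ℝ => (1 + ‖fun j : Fin k => R ^ (j.val + 1) * β j‖) ^ (-((k : ℝ) + 1 / 2))) =
      fun β => g k (Matrix.toLin' (Matrix.diagonal D) β) := by
    funext β
    rw [hT]
    rfl
  rw [hfun]
  refine ⟨?_, ?_⟩
  · refine (integrable_map_measure hg hmeas.aemeasurable).mp ?_
    rw [hmap]
    exact (g_int k).smul_measure hcne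
  · rw [← integral_map hmeas.aemeasurable hg, hmap, integral_smul_measure, abs_of_pos hpos,
      ENNReal.toReal_inv, ENNReal.toReal_ofReal hpos.le, hdet, smul_eq_mul, ← Real.rpow_natCast, sum_fin,
      ← Real.rpow_neg hR0.le, mul_comm]
    refine mul_le_mul_of_nonneg_right (by linarith) (by positivity)

end

end Pool.Agent.U160.VP
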