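import Pool.Agent.U160.VP.Stm

set_option autoImplicit false

/-! Package C: the Fourier transform of the kernel. -/

namespace Pool.Agent.U160.VP

open MeasureTheory ProbabilityTheory Finset

noncomputable section

namespace PkgC

/-- the one-dimensional transform -/
def RR (u : ℝ) : ℝ := 2 * ∫ t in (0 : ℝ)..(1 / 8), (1 / 8 - t) * Real.cos (2 * Real.pi * (t * u))

lemma ee_add_neg (x : ℝ) : ee x + ee (-x) = ((2 * Real.cos (2 * Real.pi * x) : ℝ) : ℂ) := by
  unfold ee
  push_cast
  rw [Complex.cos]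
  have h1 : 2 * (Real.pi : ℂ) * Complex.I * (x : ℂ) = 2 * (Real.pi : ℂ) * (x : ℂ) * Complex.I := by ring
  have h2 : 2 * (Real.pi : ℂ) * Complex.I * (-(x : ℂ)) = -(2 * (Real.pi : ℂ) * (x : ℂ)) * Complex.I := by ring
  rw [h1, h2]
  ring

lemma ee_cont : Continuous ee := by
  unfold ee
  fun_prop

lemma one_dim (u : ℝ) :
    ∫ t in Set.Icc (-(1 / 8) : ℝ) (1 / 8), ((1 / 8 - |t| : ℝ) : ℂ) * ee (t * u) = (RR u : ℂ) := by
  have hc : Continuous fun t : ℝ => ((1 / 8 - |t| : ℝ) : ℂ) * ee (t * u) := by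
    have := ee_cont
    fun_prop
  rw [integral_Icc_eq_integral_Ioc, ← intervalIntegral.integral_of_le (by norm_num)]
  rw [← intervalIntegral.integral_add_adjacent_intervals (b := 0) (hc.intervalIntegrable _ _)
    (hc.intervalIntegrable _ _)]
  have h1 : ∫ t in (-(1 / 8) : ℝ)..0, ((1 / 8 - |t| : ℝ) : ℂ) * ee (t * u) =
      ∫ t in (0 : ℝ)..(1 / 8), ((1 / 8 - |(-t)| : ℝ) : ℂ) * ee (-t * u) := by
    have := intervalIntegral.integral_comp_neg (a := (0 : ℝ)) (b := 1 / 8)
      (fun t : ℝ => ((1 / 8 - |t| : ℝ) : ℂ) * ee (t * u))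
    rw [neg_zero] at this
    exact this.symm
  rw [h1, ← intervalIntegral.integral_add]
  · unfold RR
    rw [← intervalIntegral.integral_const_mul, ← intervalIntegral.integral_ofReal]
    refine intervalIntegral.integral_congr fun t ht => ?_
    rw [Set.uIcc_of_le (by norm_num)] at ht
    have e1 : |t| = t := abs_of_nonneg ht.1
    simp only [abs_neg, e1]
    rw [← mul_add, neg_mul, add_comm (ee (-(t * u))), ee_add_neg]
    push_cast
    ring
  · refine Continuous.intervalIntegrable ?_ _ _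
    have := ee_cont
    fun_prop
  · exact hc.intervalIntegrable _ _

lemma RR_nonneg (u : ℝ) : 0 ≤ RR u := by
  unfold RR
  refine mul_nonneg (by norm_num) ?_
  by_cases hu : u = 0
  · subst hu
    refine intervalIntegral.integral_nonneg (by norm_num) fun t ht => ?_
    simp only [mul_zero, Real.cos_zero, mul_one]
    linarith [ht.2]
  · set w : ℝ := 2 * Real.pi * u with hw
    have hw0 : w ≠ 0 := by
      rw [hw]; have := Real.pi_ne_zero; positivity
    have hd : ∀ t ∈ Set.uIcc (0 : ℝ) (1 / 8), HasDerivAt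
        (fun t : ℝ => (1 / 8 - t) * (Real.sin (w * t) / w) - Real.cos (w * t) / w ^ 2)
        ((1 / 8 - t) * Real.cos (2 * Real.pi * (t * u))) t := by
      intro t _
      have e0 : HasDerivAt (fun t : ℝ => w * t) w t := by
        simpa using (hasDerivAt_id t).const_mul w
      have e1 : HasDerivAt (fun t : ℝ => Real.sin (w * t) / w) (Real.cos (w * t) * w / w) t :=
        (e0.sin).div_const w
      have e2 : HasDerivAt (fun t : ℝ => Real.cos (w * t) / w ^ 2) (-Real.sin (w * t) * w / w ^ 2) t :=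
        (e0.cos).div_const (w ^ 2)
      have e3 : HasDerivAt (fun t : ℝ => (1 / 8 - t)) (-1) t := by
        exact (hasDerivAt_id t).const_sub (1 / 8)
      have e4 := (e3.mul e1).sub e2
      refine e4.congr_deriv ?_
      have e5 : 2 * Real.pi * (t * u) = w * t := by rw [hw]; ring
      rw [e5]
      field_simp
      ring
    rw [intervalIntegral.integral_eq_sub_of_hasDerivAt hd]
    · have h1 := Real.cos_le_one (w * (1 / 8))
      have : (1 / 8 - 1 / 8) * (Real.sin (w * (1 / 8)) / w) - Real.cos (w * (1 / 8)) / w ^ 2 -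
          ((1 / 8 - 0) * (Real.sin (w * 0) / w) - Real.cos (w * 0) / w ^ 2) =
          (1 - Real.cos (w * (1 / 8))) / w ^ 2 := by
        rw [mul_zero, Real.sin_zero, Real.cos_zero]; ring
      rw [this]
      exact div_nonneg (by linarith) (by positivity)
    · refine Continuous.intervalIntegrable ?_ _ _
      fun_prop

lemma RR_lower {u : ℝ} (hu : |u| < 1) : 1 / 128 ≤ RR u := by
  unfold RR
  have h : ∫ t in (0 : ℝ)..(1 / 8), (1 / 8 - t) * (1 / 2) ≤
      ∫ t in (0 : ℝ)..(1 / 8), (1 / 8 - t) * Real.cos (2 * Real.pi * (t * u)) := by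
    refine intervalIntegral.integral_mono_on (by norm_num) ?_ ?_ fun t ht => ?_
    · exact Continuous.intervalIntegrable (by fun_prop) _ _
    · exact Continuous.intervalIntegrable (by fun_prop) _ _
    · refine mul_le_mul_of_nonneg_left ?_ (by linarith [ht.2])
      have hpi := Real.pi_pos
      have hx : |2 * Real.pi * (t * u)| ≤ Real.pi / 3 := by
        rw [abs_mul, abs_of_pos (by positivity : 0 < 2 * Real.pi), abs_mul, abs_of_nonneg ht.1]
        have : t * |u| ≤ 1 / 8 * 1 := mul_le_mul ht.2 hu.le (abs_nonneg _) (by norm_num)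
        nlinarith
      rw [← Real.cos_abs, ← Real.cos_pi_div_three]
      exact Real.cos_le_cos_of_nonneg_of_le_pi (abs_nonneg _) (by linarith) hx
  have e : ∫ t in (0 : ℝ)..(1 / 8), (1 / 8 - t) * (1 / 2) = 1 / 256 := by
    rw [intervalIntegral.integral_mul_const, intervalIntegral.integral_sub (by simp) (by simp)]
    simp
    norm_num
  linarith

lemma kerhat_eq {k : ℕ} (u : Fin k → ℝ) : kerhat u = ((∏ j : Fin k, RR (u j) : ℝ) : ℂ) := by
  unfold kerhat box ker
  have hf : ∀ γ : Fin k → ℝ, ((∏ j : Fin k, (1 / 8 - |γ j|) : ℝ) : ℂ) * ee (∑ j : Fin k, γ j * u j) =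
      ∏ j : Fin k, (((1 / 8 - |γ j| : ℝ) : ℂ) * ee (γ j * u j)) := by
    intro γ
    rw [Finset.prod_mul_distrib]
    congr 1
    · push_cast; rfl
    · unfold ee
      rw [← Complex.exp_sum]
      congr 1
      push_cast
      rw [Finset.mul_sum]
  simp_rw [hf]
  rw [← Set.pi_univ_Icc, volume_pi, Measure.restrict_pi_pi,
    integral_fintype_prod_eq_prod (fun (j : Fin k) (t : ℝ) => ((1 / 8 - |t| : ℝ) : ℂ) * ee (t * u j))]
  push_cast
  refine Finset.prod_congr rfl fun j _ => ?_
  have := one_dim (u j)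
  simp only [Pi.zero_apply, zero_sub, zero_add]
  push_cast at this ⊢
  exact this

end PkgC

open PkgC in
theorem t_C : S_C := by
  intro k
  refine ⟨(1 / 128) ^ k, by positivity, fun u => ?_⟩
  rw [kerhat_eq]
  refine ⟨?_, Complex.ofReal_im _, fun h => ?_⟩
  · rw [Complex.ofReal_re]
    exact Finset.prod_nonneg fun j _ => RR_nonneg _
  · rw [Complex.ofReal_re]
    calc (1 / 128 : ℝ) ^ k = ∏ _j : Fin k, (1 / 128 : ℝ) := by simp
      _ ≤ ∏ j : Fin k, RR (u j) := Finset.prod_le_prod (fun _ _ => by norm_num) fun j _ => RR_lower (h j)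

end

end Pool.Agent.U160.VP
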