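import Pool.Agent.U160.VP.Stm

set_option autoImplicit false

/-! # Package D of project VP: moments of the mean -/

namespace Pool.Agent.U160.VP

open MeasureTheory ProbabilityTheory Finset

noncomputable section

theorem pkgD_ee_norm (x : ℝ) : ‖ee x‖ = 1 := by
  unfold ee
  have : (2 * (Real.pi : ℂ) * Complex.I * (x : ℂ)) = ((2 * Real.pi * x : ℝ) : ℂ) * Complex.I := by
    push_cast; ring
  rw [this]
  exact Complex.norm_exp_ofReal_mul_I _

theorem pkgD_ee_add (x y : ℝ) : ee (x + y) = ee x * ee y := by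
  unfold ee
  rw [← Complex.exp_add]
  congr 1
  push_cast; ring

theorem pkgD_ee_int (m : ℤ) : ee (m : ℝ) = 1 := by
  unfold ee
  rw [Complex.exp_eq_one_iff]
  exact ⟨m, by push_cast; ring⟩

theorem pkgD_ee_cont : Continuous ee := by
  unfold ee
  fun_prop

theorem pkgD_ph_cont {k : ℕ} : Continuous (fun q : (Fin k → ℝ) × ℝ => ph q.1 q.2) := by
  unfold ph
  fun_prop

theorem pkgD_ph_shift {k : ℕ} (hk : 1 ≤ k) (α : Fin k → ℝ) (h : ℝ) (x : ℝ) :
    ph (α + Pi.single (⟨0, hk⟩ : Fin k) h) x = ph α x + h * x := by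
  unfold ph
  simp only [Pi.add_apply, add_mul, Finset.sum_add_distrib]
  congr 1
  rw [Finset.sum_eq_single (⟨0, hk⟩ : Fin k)]
  · simp
  · intro b _ hb
    rw [Pi.single_eq_of_ne hb]; simp
  · intro hh; exact absurd (Finset.mem_univ _) hh

/-- the direction of the shift -/
def pkgD_sh (k : ℕ) (hk : 1 ≤ k) (h : ℤ) : Fin k → ℝ := Pi.single (⟨0, hk⟩ : Fin k) (h : ℝ)

theorem pkgD_zz (ρ : ℝ → ℝ) (c : ℤ → ℂ) (hd : Dens ρ c) {k : ℕ} (hk : 1 ≤ k) (n : ℕ) (α : Fin k → ℝ) :
    HasSum (fun h : ℤ => c h * ∫ x in (n : ℝ)..((n : ℝ) + 1), ee (ph (α + pkgD_sh k hk h) x)) (zz ρ n α) := by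
  have hcont : ∀ h : ℤ, Continuous (fun u : ℝ => c h * ee (ph (α + pkgD_sh k hk h) ((n : ℝ) + u))) := by
    intro h
    have h1 : Continuous (fun u : ℝ => ee (ph (α + pkgD_sh k hk h) ((n : ℝ) + u))) :=
      pkgD_ee_cont.comp (pkgD_ph_cont.comp (by fun_prop :
        Continuous (fun u : ℝ => ((α + pkgD_sh k hk h, (n : ℝ) + u) : (Fin k → ℝ) × ℝ))))
    exact continuous_const.mul h1
  have key := hasSum_integral_of_summable_integral_norm
    (μ := (volume : Measure ℝ).restrict (Set.Icc (0 : ℝ) 1))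
    (F := fun (h : ℤ) (u : ℝ) => c h * ee (ph (α + pkgD_sh k hk h) ((n : ℝ) + u)))
    (fun h => (hcont h).integrableOn_Icc) ?_
  · have e1 : ∫ u in Set.Icc (0 : ℝ) 1, ∑' h : ℤ, c h * ee (ph (α + pkgD_sh k hk h) ((n : ℝ) + u)) = zz ρ n α := by
      unfold zz
      refine setIntegral_congr_fun measurableSet_Icc fun u hu => ?_
      rw [hd.expansion u hu, ← tsum_mul_right]
      refine tsum_congr fun h => ?_
      have : ee (ph (α + pkgD_sh k hk h) ((n : ℝ) + u)) = ee (h * u) * ee (ph α ((n : ℝ) + u)) := by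
        unfold pkgD_sh
        rw [pkgD_ph_shift hk, pkgD_ee_add, mul_add, pkgD_ee_add]
        have : ee ((h : ℝ) * (n : ℝ)) = 1 := by
          have := pkgD_ee_int (h * n)
          push_cast at this
          exact this
        rw [this]; ring
      rw [this]; ring
    rw [e1] at key
    have e2 : ∀ h : ℤ, ∫ u in Set.Icc (0 : ℝ) 1, c h * ee (ph (α + pkgD_sh k hk h) ((n : ℝ) + u)) =
        c h * ∫ x in (n : ℝ)..((n : ℝ) + 1), ee (ph (α + pkgD_sh k hk h) x) := by
      intro h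
      rw [integral_const_mul]
      congr 1
      rw [integral_Icc_eq_integral_Ioc, ← intervalIntegral.integral_of_le zero_le_one,
        intervalIntegral.integral_comp_add_left (fun x => ee (ph (α + pkgD_sh k hk h) x)) (n : ℝ), add_zero]
    simpa only [e2] using key
  · refine hd.summable.congr fun h => ?_
    simp only [norm_mul, pkgD_ee_norm, mul_one]
    simp

theorem pkgD_II_sum {k : ℕ} (N : ℕ) (β : Fin k → ℝ) :
    ∑ n ∈ Finset.Icc 1 N, ∫ x in (n : ℝ)..((n : ℝ) + 1), ee (ph β x) = II N β := by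
  have hI : Finset.Icc 1 N = Finset.Ico 1 (N + 1) := by
    ext m
    rw [Finset.mem_Icc, Finset.mem_Ico]
    omega
  rw [hI]
  unfold II
  have h2 := intervalIntegral.sum_integral_adjacent_intervals_Ico (μ := volume)
    (f := fun x => ee (ph β x)) (a := fun n : ℕ => (n : ℝ)) (m := 1) (n := N + 1) (by omega) ?_
  · push_cast at h2
    exact h2
  · intro n _
    exact (pkgD_ee_cont.comp (pkgD_ph_cont.comp (by fun_prop :
        Continuous (fun u : ℝ => ((β, u) : (Fin k → ℝ) × ℝ))))).intervalIntegrable _ _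

theorem pkgD_MM (ρ : ℝ → ℝ) (c : ℤ → ℂ) (hd : Dens ρ c) {k : ℕ} (hk : 1 ≤ k) (N : ℕ) (α : Fin k → ℝ) :
    HasSum (fun h : ℤ => c h * II N (α + pkgD_sh k hk h)) (MM ρ N α) := by
  have h1 := hasSum_sum (s := Finset.Icc 1 N) (fun n _ => pkgD_zz ρ c hd hk n α)
  unfold MM
  have e3 : ∀ h : ℤ, ∑ n ∈ Finset.Icc 1 N, c h * ∫ x in (n : ℝ)..((n : ℝ) + 1), ee (ph (α + pkgD_sh k hk h) x) =
      c h * II N (α + pkgD_sh k hk h) := by
    intro h
    rw [← Finset.mul_sum]
    congr 1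
    exact pkgD_II_sum N _
  simpa only [e3] using h1

theorem pkgD_II_cont {k : ℕ} (N : ℕ) : Continuous (fun β : Fin k → ℝ => II N β) := by
  unfold II
  have := pkgD_ee_cont.comp (pkgD_ph_cont (k := k))
  exact intervalIntegral.continuous_parametric_intervalIntegral_of_continuous' (μ := volume)
    (f := fun (β : Fin k → ℝ) (x : ℝ) => ee (ph β x)) this _ _

theorem pkgD_II_norm {k : ℕ} (N : ℕ) (β : Fin k → ℝ) : ‖II N β‖ ≤ N := by
  unfold II
  have := intervalIntegral.norm_integral_le_of_norm_le_const (a := (1 : ℝ)) (b := (N : ℝ) + 1)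
    (f := fun x => ee (ph β x)) (C := 1) (fun x _ => (pkgD_ee_norm _).le)
  refine this.trans ?_
  rw [add_sub_cancel_right, abs_of_nonneg (Nat.cast_nonneg N), one_mul]

/-- Jensen for finite sums -/
theorem pkgD_jensen_fin {ι : Type*} (T : Finset ι) (a b : ι → ℝ) (ha : ∀ i, 0 ≤ a i) (hb : ∀ i, 0 ≤ b i)
    (p : ℕ) : (∑ i ∈ T, a i * b i) ^ (p + 1) ≤ (∑ i ∈ T, a i) ^ p * ∑ i ∈ T, a i * b i ^ (p + 1) := by
  rcases (Finset.sum_nonneg fun i (_ : i ∈ T) => ha i).eq_or_lt with h0 | h0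
  · have hz : ∀ i ∈ T, a i = 0 := (Finset.sum_eq_zero_iff_of_nonneg fun i _ => ha i).mp h0.symm
    have h1 : ∑ i ∈ T, a i * b i = 0 := Finset.sum_eq_zero fun i hi => by rw [hz i hi, zero_mul]
    have h2 : ∑ i ∈ T, a i * b i ^ (p + 1) = 0 := Finset.sum_eq_zero fun i hi => by rw [hz i hi, zero_mul]
    rw [h1, h2]; simp
  · set S := ∑ i ∈ T, a i with hS
    have key := Real.pow_arith_mean_le_arith_mean_pow T (fun i => a i / S) b
      (fun i _ => div_nonneg (ha i) h0.le) (by rw [← Finset.sum_div, div_self h0.ne']) (fun i _ => hb i) (p + 1)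
    have e1 : ∑ i ∈ T, a i / S * b i = (∑ i ∈ T, a i * b i) / S := by
      rw [Finset.sum_div]; exact Finset.sum_congr rfl fun i _ => by ring
    have e2 : ∑ i ∈ T, a i / S * b i ^ (p + 1) = (∑ i ∈ T, a i * b i ^ (p + 1)) / S := by
      rw [Finset.sum_div]; exact Finset.sum_congr rfl fun i _ => by ring
    rw [e1, e2, div_pow, div_le_div_iff₀ (pow_pos h0 _) h0] at key
    have h3 : (∑ i ∈ T, a i * b i) ^ (p + 1) * S ≤ (S ^ p * ∑ i ∈ T, a i * b i ^ (p + 1)) * S := by
      calc _ ≤ _ := key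
        _ = _ := by ring
    exact le_of_mul_le_mul_right h3 h0

/-- Jensen for series -/
theorem pkgD_jensen (a b : ℤ → ℝ) (B : ℝ) (ha : ∀ i, 0 ≤ a i) (hb : ∀ i, 0 ≤ b i) (hB : ∀ i, b i ≤ B)
    (hs : Summable a) (p : ℕ) :
    (∑' i, a i * b i) ^ (p + 1) ≤ (∑' i, a i) ^ p * ∑' i, a i * b i ^ (p + 1) := by
  have hB0 : 0 ≤ B := (hb 0).trans (hB 0)
  have s1 : Summable fun i => a i * b i :=
    Summable.of_nonneg_of_le (fun i => mul_nonneg (ha i) (hb i))
      (fun i => mul_le_mul_of_nonneg_left (hB i) (ha i)) (hs.mul_right B)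
  have s2 : Summable fun i => a i * b i ^ (p + 1) :=
    Summable.of_nonneg_of_le (fun i => mul_nonneg (ha i) (pow_nonneg (hb i) _))
      (fun i => mul_le_mul_of_nonneg_left (pow_le_pow_left₀ (hb i) (hB i) _) (ha i)) (hs.mul_right (B ^ (p + 1)))
  have t0 : Filter.Tendsto (fun T : Finset ℤ => ∑ i ∈ T, a i * b i) Filter.atTop (nhds (∑' i, a i * b i)) :=
    s1.hasSum
  have t1 : Filter.Tendsto (fun T : Finset ℤ => ∑ i ∈ T, a i) Filter.atTop (nhds (∑' i, a i)) := hs.hasSum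
  have t2 : Filter.Tendsto (fun T : Finset ℤ => ∑ i ∈ T, a i * b i ^ (p + 1)) Filter.atTop
    (nhds (∑' i, a i * b i ^ (p + 1))) := s2.hasSum
  exact le_of_tendsto_of_tendsto' (t0.pow (p + 1)) ((t1.pow p).mul t2)
    fun T => pkgD_jensen_fin T a b ha hb p

/-- translation of a box -/
theorem pkgD_trans {k : ℕ} (v : Fin k → ℝ) (r : ℝ) (F : (Fin k → ℝ) → ℝ) :
    ∫ α in box k 0 r, F (α + v) = ∫ β in box k v r, F β := by
  have h1 := (measurePreserving_add_right (volume : Measure (Fin k → ℝ)) v).setIntegral_preimage_emb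
    (MeasurableEquiv.addRight v).measurableEmbedding F (box k v r)
  rw [← h1]
  congr 2
  ext α
  unfold box
  simp only [Set.mem_preimage, Set.mem_Icc, Pi.le_def, Pi.add_apply, Pi.zero_apply]
  constructor
  · rintro ⟨h1, h2⟩
    exact ⟨fun j => by have := h1 j; simp at this ⊢; linarith, fun j => by have := h2 j; simp at this ⊢; linarith⟩
  · rintro ⟨h1, h2⟩
    exact ⟨fun j => by have := h1 j; simp at this ⊢; linarith, fun j => by have := h2 j; simp at this ⊢; linarith⟩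

theorem pkgD_AA_nonneg (p k N : ℕ) : 0 ≤ AA p k N := by
  unfold AA
  positivity

theorem t_D : S_B → S_D := by
  intro hB ρ c hd k p hk r hr
  obtain ⟨C, hC, hCB⟩ := hB k p hk r hr
  set S : ℝ := ∑' h : ℤ, ‖c h‖ with hS
  have hS0 : 0 ≤ S := tsum_nonneg fun _ => norm_nonneg _
  refine ⟨S ^ p * C + C, by positivity, fun N hN => ?_⟩
  have hA := pkgD_AA_nonneg p k N
  rcases p with _ | p
  · have h1 := hCB N hN 0
    simp only [pow_zero] at h1 ⊢
    refine h1.trans ?_
    nlinarith [mul_nonneg hC.le hA]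
  -- the pointwise bound
  have hcontF : ∀ h : ℤ, Continuous (fun α : Fin k → ℝ => ‖c h‖ * ‖II N (α + pkgD_sh k hk h)‖ ^ (p + 1)) := by
    intro h
    have := pkgD_II_cont (k := k) N
    exact continuous_const.mul (((this.comp (continuous_id.add continuous_const)).norm).pow _)
  have hbd : ∀ (h : ℤ) (α : Fin k → ℝ), ‖‖c h‖ * ‖II N (α + pkgD_sh k hk h)‖ ^ (p + 1)‖ ≤
      ‖c h‖ * (N : ℝ) ^ (p + 1) := by
    intro h α
    rw [Real.norm_of_nonneg (by positivity)]
    exact mul_le_mul_of_nonneg_left (pow_le_pow_left₀ (norm_nonneg _) (pkgD_II_norm N _) _) (norm_nonneg _)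
  have hcontS : Continuous (fun α : Fin k → ℝ => ∑' h : ℤ, ‖c h‖ * ‖II N (α + pkgD_sh k hk h)‖ ^ (p + 1)) :=
    continuous_tsum hcontF (hd.summable.mul_right _) hbd
  have hpt : ∀ α : Fin k → ℝ, ‖MM ρ N α‖ ^ (p + 1) ≤
      S ^ p * ∑' h : ℤ, ‖c h‖ * ‖II N (α + pkgD_sh k hk h)‖ ^ (p + 1) := by
    intro α
    have h1 := pkgD_MM ρ c hd hk N α
    have hsn : Summable fun h : ℤ => ‖c h * II N (α + pkgD_sh k hk h)‖ := by
      refine Summable.of_nonneg_of_le (fun h => norm_nonneg _) (fun h => ?_) (hd.summable.mul_right (N : ℝ))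
      rw [norm_mul]
      exact mul_le_mul_of_nonneg_left (pkgD_II_norm N _) (norm_nonneg _)
    have h2 : ‖MM ρ N α‖ ≤ ∑' h : ℤ, ‖c h‖ * ‖II N (α + pkgD_sh k hk h)‖ := by
      rw [← h1.tsum_eq]
      refine (norm_tsum_le_tsum_norm hsn).trans (le_of_eq ?_)
      exact tsum_congr fun h => norm_mul _ _
    refine (pow_le_pow_left₀ (norm_nonneg _) h2 _).trans ?_
    exact pkgD_jensen (fun h => ‖c h‖) (fun h => ‖II N (α + pkgD_sh k hk h)‖) N
      (fun _ => norm_nonneg _) (fun _ => norm_nonneg _) (fun _ => pkgD_II_norm N _) hd.summable p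
  have hint : ∀ h : ℤ, ∫ α in box k 0 r, ‖c h‖ * ‖II N (α + pkgD_sh k hk h)‖ ^ (p + 1) ≤
      ‖c h‖ * (C * AA (p + 1) k N) := by
    intro h
    rw [integral_const_mul]
    refine mul_le_mul_of_nonneg_left ?_ (norm_nonneg _)
    rw [pkgD_trans (pkgD_sh k hk h) r (fun β => ‖II N β‖ ^ (p + 1))]
    exact hCB N hN _
  have hbox : ∀ (f : (Fin k → ℝ) → ℝ), Continuous f → IntegrableOn f (box k 0 r) := by
    intro f hf
    exact hf.integrableOn_Icc
  have hsum := hasSum_integral_of_summable_integral_norm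
    (μ := (volume : Measure (Fin k → ℝ)).restrict (box k 0 r))
    (F := fun (h : ℤ) (α : Fin k → ℝ) => ‖c h‖ * ‖II N (α + pkgD_sh k hk h)‖ ^ (p + 1))
    (fun h => hbox _ (hcontF h)) (by
      refine Summable.of_nonneg_of_le (fun h => integral_nonneg fun _ => norm_nonneg _) (fun h => ?_)
        (hd.summable.mul_right (C * AA (p + 1) k N))
      refine le_trans (le_of_eq ?_) (hint h)
      refine integral_congr_ae (Filter.Eventually.of_forall fun α => ?_)
      exact Real.norm_of_nonneg (by positivity))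
  calc ∫ α in box k 0 r, ‖MM ρ N α‖ ^ (p + 1)
      ≤ ∫ α in box k 0 r, S ^ p * ∑' h : ℤ, ‖c h‖ * ‖II N (α + pkgD_sh k hk h)‖ ^ (p + 1) := by
        refine integral_mono_of_nonneg (Filter.Eventually.of_forall fun α => by positivity) ?_
          (Filter.Eventually.of_forall hpt)
        exact hbox _ (continuous_const.mul hcontS)
    _ = S ^ p * ∑' h : ℤ, ∫ α in box k 0 r, ‖c h‖ * ‖II N (α + pkgD_sh k hk h)‖ ^ (p + 1) := by
        rw [integral_const_mul, hsum.tsum_eq]
    _ ≤ S ^ p * (S * (C * AA (p + 1) k N)) := by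
        refine mul_le_mul_of_nonneg_left ?_ (pow_nonneg hS0 _)
        rw [hS, ← tsum_mul_right]
        exact hsum.summable.tsum_le_tsum hint (hd.summable.mul_right _)
    _ ≤ (S ^ (p + 1) * C + C) * AA (p + 1) k N := by
        have : 0 ≤ C * AA (p + 1) k N := mul_nonneg hC.le hA
        have e : (S ^ (p + 1) * C + C) * AA (p + 1) k N =
            S ^ p * (S * (C * AA (p + 1) k N)) + C * AA (p + 1) k N := by ring
        rw [e]
        exact le_add_of_nonneg_right this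

end

end Pool.Agent.U160.VP

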