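import Pool.Agent.U160.VP.Stm

/-!
# Project VP, package F1: covariances come from pairs of events with a common coordinate
-/

set_option autoImplicit false

namespace Pool.Agent.U160.VP

open MeasureTheory ProbabilityTheory Finset

namespace F1

variable {Ω : Type} [MeasurableSpace Ω]

/-- the indicator function of a set of sequences -/
noncomputable def ind (B : Set (ℕ → ℝ)) (x : ℕ → ℝ) : ℝ := B.indicator (fun _ => (1 : ℝ)) x

lemma ind_nonneg (B : Set (ℕ → ℝ)) (x : ℕ → ℝ) : 0 ≤ ind B x :=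
  Set.indicator_nonneg (fun _ _ => zero_le_one) x

lemma ind_le (B : Set (ℕ → ℝ)) (x : ℕ → ℝ) : ind B x ≤ 1 := by
  unfold ind
  exact Set.indicator_le' (fun _ _ => le_refl 1) (fun _ _ => zero_le_one) x

lemma ind_meas {B : Set (ℕ → ℝ)} (hB : MeasurableSet B) : Measurable (ind B) :=
  measurable_const.indicator hB

open scoped Classical in
/-- extension by zero -/
noncomputable def ext0 (S : Finset ℕ) (y : S → ℝ) (n : ℕ) : ℝ := if h : n ∈ S then y ⟨n, h⟩ else 0

lemma ext0_meas (S : Finset ℕ) : Measurable (ext0 S) := by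
  classical
  refine measurable_pi_iff.2 fun n => ?_
  unfold ext0
  by_cases h : n ∈ S
  · simp only [h, dite_true]
    exact measurable_pi_apply _
  · simp only [h, dite_false]
    exact measurable_const

lemma ind_ext0 {B : Set (ℕ → ℝ)} {S : Finset ℕ}
    (hd : ∀ x y : ℕ → ℝ, (∀ n ∈ S, x n = y n) → (x ∈ B ↔ y ∈ B)) (x : ℕ → ℝ) :
    ind B (ext0 S (fun n : S => x n)) = ind B x := by
  classical
  have h : (ext0 S (fun n : S => x n) ∈ B) ↔ x ∈ B := hd _ _ fun n hn => by
    unfold ext0; simp [hn]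
  unfold ind
  by_cases hx : x ∈ B
  · rw [Set.indicator_of_mem hx, Set.indicator_of_mem (h.2 hx)]
  · rw [Set.indicator_of_notMem hx, Set.indicator_of_notMem (fun h' => hx (h.1 h'))]

/-- independence of events with disjoint supports -/
lemma prod_eq (P : Measure Ω) [IsProbabilityMeasure P] (X : ℕ → Ω → ℝ) (hX : ∀ n, Measurable (X n))
    (hind : iIndepFun X P) {S T : Finset ℕ} (hST : Disjoint S T) {A B : Set (ℕ → ℝ)}
    (hA : MeasurableSet A) (hB : MeasurableSet B)
    (hdA : ∀ x y : ℕ → ℝ, (∀ n ∈ S, x n = y n) → (x ∈ A ↔ y ∈ A))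
    (hdB : ∀ x y : ℕ → ℝ, (∀ n ∈ T, x n = y n) → (x ∈ B ↔ y ∈ B)) :
    ∫ ω, ind A (fun n => X n ω) * ind B (fun n => X n ω) ∂P =
      (∫ ω, ind A (fun n => X n ω) ∂P) * ∫ ω, ind B (fun n => X n ω) ∂P := by
  have h1 : IndepFun (fun a (i : S) => X i a) (fun a (i : T) => X i a) P :=
    hind.indepFun_finset S T hST hX
  have h2 := h1.comp ((ind_meas hA).comp (ext0_meas S)) ((ind_meas hB).comp (ext0_meas T))
  have e1 : ((ind A ∘ ext0 S) ∘ fun a (i : S) => X i a) = fun ω => ind A (fun n => X n ω) := by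
    funext ω
    exact ind_ext0 hdA (fun n => X n ω)
  have e2 : ((ind B ∘ ext0 T) ∘ fun a (i : T) => X i a) = fun ω => ind B (fun n => X n ω) := by
    funext ω
    exact ind_ext0 hdB (fun n => X n ω)
  rw [e1, e2] at h2
  have hXm : Measurable fun ω => (fun n => X n ω) := measurable_pi_iff.2 hX
  exact h2.integral_fun_mul_eq_mul_integral ((ind_meas hA).comp hXm).aestronglyMeasurable
    ((ind_meas hB).comp hXm).aestronglyMeasurable

end F1

open F1 in
theorem t_F1 : S_F1 := by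
  intro Ω _ P _ X hX hind ι F supp B U hB hU hdep
  classical
  change ∫ ω, (∑ i ∈ F, ind (B i) (fun n => X n ω)) ^ 2 ∂P ≤
    (∫ ω, (∑ i ∈ F, ind (B i) (fun n => X n ω)) ∂P) ^ 2 +
    ∫ ω, (∑ m ∈ U, (∑ i ∈ F with m ∈ supp i, ind (B i) (fun n => X n ω)) ^ 2) ∂P
  have hXm : Measurable fun ω => (fun n => X n ω) := measurable_pi_iff.2 hX
  set g : ι → Ω → ℝ := fun i ω => ind (B i) (fun n => X n ω) with hg
  have hgm : ∀ i ∈ F, Measurable (g i) := fun i hi => (ind_meas (hB i hi)).comp hXm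
  have hg0 : ∀ i ω, 0 ≤ g i ω := fun i ω => ind_nonneg _ _
  have hg1 : ∀ i ω, g i ω ≤ 1 := fun i ω => ind_le _ _
  have hint : ∀ i ∈ F, Integrable (g i) P := fun i hi => by
    refine Integrable.mono' (integrable_const (1 : ℝ)) (hgm i hi).aestronglyMeasurable ?_
    exact ae_of_all _ fun ω => by
      rw [Real.norm_eq_abs, abs_of_nonneg (hg0 i ω)]; exact hg1 i ω
  have hint2 : ∀ i ∈ F, ∀ j ∈ F, Integrable (fun ω => g i ω * g j ω) P := fun i hi j hj => by
    refine Integrable.mono' (integrable_const (1 : ℝ)) ((hgm i hi).mul (hgm j hj)).aestronglyMeasurable ?_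
    exact ae_of_all _ fun ω => by
      rw [Real.norm_eq_abs, abs_of_nonneg (mul_nonneg (hg0 i ω) (hg0 j ω))]
      exact mul_le_one₀ (hg1 i ω) (hg0 j ω) (hg1 j ω)
  -- left side
  have hL : ∫ ω, (∑ i ∈ F, g i ω) ^ 2 ∂P = ∑ i ∈ F, ∑ j ∈ F, ∫ ω, g i ω * g j ω ∂P := by
    have e : (fun ω => (∑ i ∈ F, g i ω) ^ 2) = fun ω => ∑ i ∈ F, ∑ j ∈ F, g i ω * g j ω := by
      funext ω
      rw [sq, Finset.sum_mul_sum]
    rw [e, integral_finsetSum]
    · refine Finset.sum_congr rfl fun i hi => ?_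
      rw [integral_finsetSum]
      exact fun j hj => hint2 i hi j hj
    · exact fun i hi => integrable_finsetSum _ fun j hj => hint2 i hi j hj
  have hR1 : (∫ ω, (∑ i ∈ F, g i ω) ∂P) ^ 2 = ∑ i ∈ F, ∑ j ∈ F, (∫ ω, g i ω ∂P) * ∫ ω, g j ω ∂P := by
    rw [integral_finsetSum _ hint, sq, Finset.sum_mul_sum]
  -- the number of common coordinates
  set K : ι → ι → ℝ := fun i j => ((U.filter fun m => m ∈ supp i ∧ m ∈ supp j).card : ℝ) with hK
  have hR2 : ∫ ω, (∑ m ∈ U, (∑ i ∈ F with m ∈ supp i, g i ω) ^ 2) ∂P =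
      ∑ i ∈ F, ∑ j ∈ F, K i j * ∫ ω, g i ω * g j ω ∂P := by
    have e : (fun ω => (∑ m ∈ U, (∑ i ∈ F with m ∈ supp i, g i ω) ^ 2)) =
        fun ω => ∑ i ∈ F, ∑ j ∈ F, K i j * (g i ω * g j ω) := by
      funext ω
      have e1 : ∀ m ∈ U, (∑ i ∈ F with m ∈ supp i, g i ω) ^ 2 =
          ∑ i ∈ F, ∑ j ∈ F, (if m ∈ supp i ∧ m ∈ supp j then (1 : ℝ) else 0) * (g i ω * g j ω) := by
        intro m _
        rw [sq, Finset.sum_mul_sum, Finset.sum_filter]
        refine Finset.sum_congr rfl fun i _ => ?_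
        by_cases h1 : m ∈ supp i
        · rw [if_pos h1, Finset.sum_filter]
          refine Finset.sum_congr rfl fun j _ => ?_
          by_cases h2 : m ∈ supp j
          · simp [h1, h2]
          · simp [h2]
        · rw [if_neg h1]
          symm
          apply Finset.sum_eq_zero
          intro j _
          simp [h1]
      rw [Finset.sum_congr rfl e1, Finset.sum_comm]
      refine Finset.sum_congr rfl fun i _ => ?_
      rw [Finset.sum_comm]
      refine Finset.sum_congr rfl fun j _ => ?_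
      rw [← Finset.sum_mul, hK]
      simp only
      rw [Finset.sum_ite, Finset.sum_const_zero, add_zero, Finset.sum_const, nsmul_eq_mul, mul_one]
    rw [e, integral_finsetSum]
    · refine Finset.sum_congr rfl fun i hi => ?_
      rw [integral_finsetSum]
      · refine Finset.sum_congr rfl fun j hj => ?_
        rw [integral_const_mul]
      · exact fun j hj => (hint2 i hi j hj).const_mul _
    · exact fun i hi => integrable_finsetSum _ fun j hj => (hint2 i hi j hj).const_mul _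
  rw [hL, hR1, hR2, ← Finset.sum_add_distrib]
  refine Finset.sum_le_sum fun i hi => ?_
  rw [← Finset.sum_add_distrib]
  refine Finset.sum_le_sum fun j hj => ?_
  have hij0 : 0 ≤ ∫ ω, g i ω * g j ω ∂P := integral_nonneg fun ω => mul_nonneg (hg0 i ω) (hg0 j ω)
  have hK0 : 0 ≤ K i j := by rw [hK]; positivity
  have hpp : 0 ≤ (∫ ω, g i ω ∂P) * ∫ ω, g j ω ∂P :=
    mul_nonneg (integral_nonneg (hg0 i)) (integral_nonneg (hg0 j))
  by_cases hd : Disjoint (supp i) (supp j)
  · have h := prod_eq P X hX hind hd (hB i hi) (hB j hj) (hdep i hi) (hdep j hj)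
    have h' : ∫ ω, g i ω * g j ω ∂P = (∫ ω, g i ω ∂P) * ∫ ω, g j ω ∂P := h
    have := mul_nonneg hK0 hij0
    linarith
  · obtain ⟨m, hm1, hm2⟩ := Finset.not_disjoint_iff.1 hd
    have hK1 : 1 ≤ K i j := by
      have : 0 < (U.filter fun m => m ∈ supp i ∧ m ∈ supp j).card :=
        Finset.card_pos.2 ⟨m, Finset.mem_filter.2 ⟨hU i hi hm1, hm1, hm2⟩⟩
      have h1 : (1 : ℝ) ≤ ((U.filter fun m => m ∈ supp i ∧ m ∈ supp j).card : ℝ) := by exact_mod_cast this
      exact h1
    nlinarith [mul_le_mul_of_nonneg_right hK1 hij0]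

end Pool.Agent.U160.VP
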