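import Pool.Agent.U160.VP.Stm

set_option autoImplicit false

/-!
# Project VP, package H: the lower bound
-/

namespace Pool.Agent.U160.VP

open Finset

noncomputable section

namespace PkgH

/-- the sum of the `(j+1)`-st powers of the shifted coordinates -/
def uu (θ : ℕ → ℝ) {s : ℕ} (x : Fin s → ℕ) (j : ℕ) : ℝ := ∑ i : Fin s, ((x i : ℝ) + θ (x i)) ^ (j + 1)

/-- the cell of `x` -/
def cell (θ : ℕ → ℝ) (k : ℕ) {s : ℕ} (x : Fin s → ℕ) : Fin k → ℕ := fun j => ⌊uu θ x j⌋₊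

lemma dif_eq (θ : ℕ → ℝ) {s : ℕ} (p : (Fin s → ℕ) × (Fin s → ℕ)) (j : ℕ) :
    dif θ p j = uu θ p.1 j - uu θ p.2 j := rfl

lemma uu_nonneg {θ : ℕ → ℝ} (h : ∀ n, 0 ≤ θ n ∧ θ n ≤ 1) {s : ℕ} (x : Fin s → ℕ) (j : ℕ) :
    0 ≤ uu θ x j := by
  refine Finset.sum_nonneg fun i _ => ?_
  have h1 : (0 : ℝ) ≤ (x i : ℝ) + θ (x i) := add_nonneg (Nat.cast_nonneg _) (h _).1
  exact pow_nonneg h1 _

lemma uu_le {θ : ℕ → ℝ} (h : ∀ n, 0 ≤ θ n ∧ θ n ≤ 1) {s N : ℕ} (x : Fin s → ℕ)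
    (hx : ∀ i, x i ∈ Icc 1 N) (j : ℕ) :
    uu θ x j ≤ (s : ℝ) * ((N : ℝ) + 1) ^ (j + 1) := by
  have : ∀ i ∈ (Finset.univ : Finset (Fin s)),
      ((x i : ℝ) + θ (x i)) ^ (j + 1) ≤ ((N : ℝ) + 1) ^ (j + 1) := by
    intro i _
    have h1 : (0 : ℝ) ≤ (x i : ℝ) + θ (x i) := add_nonneg (Nat.cast_nonneg _) (h _).1
    have h2 : (x i : ℝ) ≤ (N : ℝ) := by exact_mod_cast (Finset.mem_Icc.mp (hx i)).2
    have h3 := (h (x i)).2
    exact pow_le_pow_left₀ h1 (by linarith) _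
  calc uu θ x j ≤ ∑ _i : Fin s, ((N : ℝ) + 1) ^ (j + 1) := Finset.sum_le_sum this
    _ = (s : ℝ) * ((N : ℝ) + 1) ^ (j + 1) := by simp

lemma abs_lt_of_cell {θ : ℕ → ℝ} (h : ∀ n, 0 ≤ θ n ∧ θ n ≤ 1) {s k : ℕ} (x y : Fin s → ℕ)
    (hc : cell θ k x = cell θ k y) (j : Fin k) : |uu θ x j - uu θ y j| < 1 := by
  have h1 : ⌊uu θ x j⌋₊ = ⌊uu θ y j⌋₊ := congrFun hc j
  have hx1 := Nat.floor_le (uu_nonneg h x (j : ℕ))
  have hx2 := Nat.lt_floor_add_one (uu θ x j)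
  have hy1 := Nat.floor_le (uu_nonneg h y (j : ℕ))
  have hy2 := Nat.lt_floor_add_one (uu θ y j)
  rw [h1] at hx1 hx2
  rw [abs_lt]
  constructor <;> linarith

/-- the tuples in `[1,N]` -/
def T (s N : ℕ) : Finset (Fin s → ℕ) := Fintype.piFinset fun _ : Fin s => Finset.Icc 1 N

lemma card_T (s N : ℕ) : (T s N).card = N ^ s := by
  simp [T, Fintype.card_piFinset]

/-- the range of the cells -/
def R (s k N : ℕ) : Finset (Fin k → ℕ) :=
  Fintype.piFinset fun j : Fin k => Finset.range (s * (N + 1) ^ (j.val + 1) + 1)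

lemma cell_mem {θ : ℕ → ℝ} (h : ∀ n, 0 ≤ θ n ∧ θ n ≤ 1) {s N k : ℕ} (x : Fin s → ℕ)
    (hx : x ∈ T s N) : cell θ k x ∈ R s k N := by
  have hx' : ∀ i, x i ∈ Icc 1 N := by
    intro i
    exact Fintype.mem_piFinset.mp hx i
  refine Fintype.mem_piFinset.mpr fun j => ?_
  rw [Finset.mem_range, Nat.lt_succ_iff]
  refine Nat.floor_le_of_le ?_
  have := uu_le h x hx' (j : ℕ)
  push_cast
  exact this

lemma sum_succ (k : ℕ) : ((∑ j : Fin k, (j.val + 1) : ℕ) : ℝ) = (k : ℝ) * ((k : ℝ) + 1) / 2 := by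
  rw [Fin.sum_univ_eq_sum_range (fun j => j + 1) k]
  induction k with
  | zero => simp
  | succ n ih =>
    rw [Finset.sum_range_succ]
    push_cast at ih ⊢
    rw [ih]
    ring

/-- the constant -/
def K (s k : ℕ) : ℝ := ∏ j : Fin k, ((s : ℝ) * 2 ^ (j.val + 1) + 1)

lemma one_le_K (s k : ℕ) : 1 ≤ K s k := by
  have h : ∏ _j : Fin k, (1 : ℝ) ≤ K s k := by
    refine Finset.prod_le_prod (fun _ _ => zero_le_one) ?_
    intro j _
    have : (0 : ℝ) ≤ (s : ℝ) * 2 ^ (j.val + 1) := by positivity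
    linarith
  simpa using h

lemma card_R_le (s k N : ℕ) (hN : 1 ≤ N) :
    ((R s k N).card : ℝ) ≤ K s k * (N : ℝ) ^ (∑ j : Fin k, (j.val + 1)) := by
  have hN' : (1 : ℝ) ≤ (N : ℝ) := by exact_mod_cast hN
  rw [R, Fintype.card_piFinset, K, ← Finset.prod_pow_eq_pow_sum, ← Finset.prod_mul_distrib]
  push_cast
  refine Finset.prod_le_prod ?_ ?_
  · intro j _
    positivity
  · intro j _
    rw [Finset.card_range]
    push_cast
    have h1 : ((N : ℝ) + 1) ^ (j.val + 1) ≤ (2 * (N : ℝ)) ^ (j.val + 1) := by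
      refine pow_le_pow_left₀ (by positivity) (by linarith) _
    have h2 : (1 : ℝ) ≤ (N : ℝ) ^ (j.val + 1) := one_le_pow₀ hN'
    rw [mul_pow] at h1
    have h3 : (s : ℝ) * ((N : ℝ) + 1) ^ (j.val + 1) ≤ (s : ℝ) * (2 ^ (j.val + 1) * (N : ℝ) ^ (j.val + 1)) :=
      mul_le_mul_of_nonneg_left h1 (Nat.cast_nonneg _)
    nlinarith

open scoped Classical in
lemma J_ge_diag {θ : ℕ → ℝ} (s k N : ℕ) : N ^ s ≤ J θ s k N := by
  rw [← card_T s N, J]
  refine Finset.card_le_card_of_injOn (fun x => (x, x)) ?_ ?_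
  · intro x hx
    simp only [Finset.mem_coe, Finset.mem_filter, pairs, Finset.mem_product]
    refine ⟨⟨hx, hx⟩, fun j => ?_⟩
    rw [dif_eq]
    simp
  · intro x _ y _ hxy
    exact (Prod.mk.inj hxy).1

open scoped Classical in
lemma J_ge_cells {θ : ℕ → ℝ} (h : ∀ n, 0 ≤ θ n ∧ θ n ≤ 1) (s k N : ℕ) :
    ∑ r ∈ R s k N, ((T s N).filter fun x => cell θ k x = r).card ^ 2 ≤ J θ s k N := by
  have key : ∑ r ∈ R s k N, ((T s N).filter fun x => cell θ k x = r).card ^ 2 =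
      ((R s k N).biUnion fun r => ((T s N).filter fun x => cell θ k x = r) ×ˢ
        ((T s N).filter fun x => cell θ k x = r)).card := by
    rw [Finset.card_biUnion]
    · refine Finset.sum_congr rfl fun r _ => ?_
      rw [Finset.card_product, sq]
    · intro r _ r' _ hne
      rw [Function.onFun, Finset.disjoint_left]
      intro p hp hp'
      simp only [Finset.mem_product, Finset.mem_filter] at hp hp'
      exact hne (hp.1.2.symm.trans hp'.1.2)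
  rw [key, J]
  refine Finset.card_le_card ?_
  intro p hp
  simp only [Finset.mem_biUnion, Finset.mem_product, Finset.mem_filter] at hp
  obtain ⟨r, _, ⟨h1, h2⟩, h3, h4⟩ := hp
  simp only [Finset.mem_filter, pairs, Finset.mem_product]
  refine ⟨⟨h1, h3⟩, fun j => ?_⟩
  rw [dif_eq]
  exact abs_lt_of_cell h _ _ (h2.trans h4.symm) j

open scoped Classical in
lemma card_T_eq {θ : ℕ → ℝ} (h : ∀ n, 0 ≤ θ n ∧ θ n ≤ 1) (s k N : ℕ) :
    (T s N).card = ∑ r ∈ R s k N, ((T s N).filter fun x => cell θ k x = r).card :=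
  Finset.card_eq_sum_card_fiberwise fun x hx => cell_mem h x hx

lemma J_mul_card {θ : ℕ → ℝ} (h : ∀ n, 0 ≤ θ n ∧ θ n ≤ 1) (s k N : ℕ) :
    (N ^ s) ^ 2 ≤ (R s k N).card * J θ s k N := by
  classical
  rw [← card_T s N, card_T_eq h s k N]
  refine (sq_sum_le_card_mul_sum_sq).trans ?_
  exact Nat.mul_le_mul_left _ (J_ge_cells h s k N)

end PkgH

open PkgH in
/-- package H -/
theorem t_H : S_H := by
  intro s k _ _
  have hK := one_le_K s k
  have hK0 : 0 < K s k := by linarith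
  refine ⟨1 / (2 * K s k), by positivity, fun θ h N hN => ?_⟩
  have hN0 : (0 : ℝ) < (N : ℝ) := by exact_mod_cast hN
  have h1 : (N : ℝ) ^ (s : ℝ) ≤ (J θ s k N : ℝ) := by
    rw [Real.rpow_natCast]
    exact_mod_cast J_ge_diag (θ := θ) s k N
  have h2 : ((N : ℝ) ^ s) ^ 2 ≤ ((R s k N).card : ℝ) * (J θ s k N : ℝ) := by
    exact_mod_cast J_mul_card h s k N
  have hJ : (0 : ℝ) ≤ (J θ s k N : ℝ) := Nat.cast_nonneg _
  have h3 : ((N : ℝ) ^ s) ^ 2 ≤ K s k * (N : ℝ) ^ (∑ j : Fin k, (j.val + 1)) * (J θ s k N : ℝ) :=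
    h2.trans (mul_le_mul_of_nonneg_right (card_R_le s k N hN) hJ)
  have h4 : (N : ℝ) ^ (2 * (s : ℝ) - (k : ℝ) * ((k : ℝ) + 1) / 2) ≤ K s k * (J θ s k N : ℝ) := by
    rw [Real.rpow_sub hN0, ← sum_succ k, Real.rpow_natCast, div_le_iff₀ (by positivity)]
    have h5 : (N : ℝ) ^ (2 * (s : ℝ)) = ((N : ℝ) ^ s) ^ 2 := by
      rw [← pow_mul, ← Real.rpow_natCast]
      congr 1
      push_cast
      ring
    rw [h5]
    linarith
  have h6 : (1 / (2 * K s k)) * (N : ℝ) ^ (2 * (s : ℝ) - (k : ℝ) * ((k : ℝ) + 1) / 2) ≤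
      (J θ s k N : ℝ) / 2 := by
    calc (1 / (2 * K s k)) * (N : ℝ) ^ (2 * (s : ℝ) - (k : ℝ) * ((k : ℝ) + 1) / 2)
        ≤ (1 / (2 * K s k)) * (K s k * (J θ s k N : ℝ)) := mul_le_mul_of_nonneg_left h4 (by positivity)
      _ = (J θ s k N : ℝ) / 2 := by
        field_simp
  have h7 : (1 / (2 * K s k)) * (N : ℝ) ^ (s : ℝ) ≤ (J θ s k N : ℝ) / 2 := by
    have h8 : (1 / (2 * K s k)) ≤ 1 / 2 := by
      apply one_div_le_one_div_of_le <;> linarith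
    have h9 : (0 : ℝ) ≤ (N : ℝ) ^ (s : ℝ) := by positivity
    calc (1 / (2 * K s k)) * (N : ℝ) ^ (s : ℝ) ≤ (1 / 2) * (J θ s k N : ℝ) :=
          mul_le_mul h8 h1 h9 (by norm_num)
      _ = (J θ s k N : ℝ) / 2 := by ring
  rw [mul_add]
  linarith

end

end Pool.Agent.U160.VP
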