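import Pool.Agent.U160.VP.Stm

set_option autoImplicit false

/-!
# Project VP, package P1: probability of the weighted systems in distinct variables
-/

namespace Pool.Agent.U160.VP

open MeasureTheory ProbabilityTheory Finset
open scoped Pointwise

noncomputable section

namespace P1

theorem ee_add (x y : ℝ) : ee (x + y) = ee x * ee y := by
  unfold ee
  rw [← Complex.exp_add]
  congr 1
  push_cast
  ring

theorem ee_sum {ι : Type*} (s : Finset ι) (x : ι → ℝ) : ee (∑ i ∈ s, x i) = ∏ i ∈ s, ee (x i) := by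
  classical
  induction s using Finset.induction_on with
  | empty => simp [ee]
  | insert a s ha ih => rw [Finset.sum_insert ha, Finset.prod_insert ha, ee_add, ih]

theorem norm_ee (x : ℝ) : ‖ee x‖ = 1 := by
  unfold ee
  have : 2 * (Real.pi : ℂ) * Complex.I * (x : ℂ) = ((2 * Real.pi * x : ℝ) : ℂ) * Complex.I := by
    push_cast
    ring
  rw [this, Complex.norm_exp_ofReal_mul_I]

theorem continuous_ee : Continuous ee := by
  unfold ee
  fun_prop

theorem integral_law {ρ : ℝ → ℝ} (hm : Measurable ρ) (h0 : ∀ u, 0 ≤ ρ u) (g : ℝ → ℂ) :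
    ∫ u, g u ∂(law ρ) = ∫ u in Set.Icc (0 : ℝ) 1, (ρ u : ℂ) * g u := by
  unfold law
  rw [integral_withDensity_eq_integral_toReal_smul hm.ennreal_ofReal
    (ae_of_all _ fun u => ENNReal.ofReal_lt_top)]
  apply integral_congr_ae
  apply ae_of_all
  intro u
  simp only
  rw [ENNReal.toReal_ofReal (h0 u), Complex.real_smul]

variable {k d : ℕ}

/-- the weighted sums -/
def lin (w : Fin d → ℤ) (f : Fin d → ℕ) (y : Fin d → ℝ) : Fin k → ℝ := fun j =>
  ∑ i : Fin d, (w i : ℝ) * ((f i : ℝ) + y i) ^ (j.val + 1)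

theorem continuous_lin (w : Fin d → ℤ) (f : Fin d → ℕ) : Continuous (lin (k := k) w f) := by
  unfold lin
  fun_prop

theorem continuous_ker : Continuous (ker (k := k)) := by
  unfold ker
  fun_prop

/-- the integrand of `kerhat` along the weighted sums -/
def FF (w : Fin d → ℤ) (f : Fin d → ℕ) (y : Fin d → ℝ) (γ : Fin k → ℝ) : ℂ :=
  (ker γ : ℂ) * ee (∑ j : Fin k, γ j * lin w f y j)

theorem continuous_FF (w : Fin d → ℤ) (f : Fin d → ℕ) :
    Continuous (Function.uncurry (FF (k := k) w f)) := by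
  unfold FF Function.uncurry
  have h1 : Continuous fun p : (Fin d → ℝ) × (Fin k → ℝ) => ker p.2 := continuous_ker.comp continuous_snd
  have h2 : Continuous fun p : (Fin d → ℝ) × (Fin k → ℝ) =>
      ∑ j : Fin k, p.2 j * lin w f p.1 j := by
    apply continuous_finsetSum
    intro j _
    apply Continuous.mul
    · fun_prop
    · exact (continuous_apply j).comp ((continuous_lin w f).comp continuous_fst)
  exact (Complex.continuous_ofReal.comp h1).mul (continuous_ee.comp h2)

theorem measurableSet_box (v : Fin k → ℝ) (r : ℝ) : MeasurableSet (box k v r) :=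
  measurableSet_Icc

theorem abs_ker_le {γ : Fin k → ℝ} (h : γ ∈ box k 0 (1 / 8)) : |ker γ| ≤ 1 := by
  unfold ker
  rw [Finset.abs_prod]
  apply Finset.prod_le_one
  · intro j _
    exact abs_nonneg _
  · intro j _
    have h1 := h.1 j
    have h2 := h.2 j
    simp only [Pi.zero_apply, zero_sub, zero_add] at h1 h2
    rw [abs_le]
    have h3 : |γ j| ≤ 1 / 8 := abs_le.mpr ⟨h1, h2⟩
    have h4 := abs_nonneg (γ j)
    constructor <;> linarith

theorem norm_FF_le (w : Fin d → ℤ) (f : Fin d → ℕ) (y : Fin d → ℝ) {γ : Fin k → ℝ}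
    (h : γ ∈ box k 0 (1 / 8)) : ‖FF w f y γ‖ ≤ 1 := by
  unfold FF
  rw [norm_mul, norm_ee, mul_one, Complex.norm_real]
  exact abs_ker_le h

instance isFiniteMeasure_box (v : Fin k → ℝ) (r : ℝ) :
    IsFiniteMeasure ((volume : Measure (Fin k → ℝ)).restrict (box k v r)) :=
  ⟨by
    rw [Measure.restrict_apply_univ]
    exact (isCompact_Icc : IsCompact (box k v r)).measure_lt_top⟩

theorem integrable_FF (μ : Measure (Fin d → ℝ)) [IsProbabilityMeasure μ] (w : Fin d → ℤ)
    (f : Fin d → ℕ) : Integrable (Function.uncurry (FF (k := k) w f))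
      (μ.prod ((volume : Measure (Fin k → ℝ)).restrict (box k 0 (1 / 8)))) := by
  apply Integrable.mono' (g := fun _ => (1 : ℝ)) (integrable_const _)
  · exact (continuous_FF w f).aestronglyMeasurable
  · have h1 : ∀ᵐ p ∂(μ.prod ((volume : Measure (Fin k → ℝ)).restrict (box k 0 (1 / 8)))),
        p.2 ∈ box k 0 (1 / 8) := by
      have h2 : ∀ᵐ γ ∂((volume : Measure (Fin k → ℝ)).restrict (box k 0 (1 / 8))),
          γ ∈ box k 0 (1 / 8) := ae_restrict_mem (measurableSet_box _ _)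
      exact Measure.quasiMeasurePreserving_snd.ae h2
    filter_upwards [h1] with p hp
    exact norm_FF_le w f p.1 hp

section

variable {ρ : ℝ → ℝ} {c : ℤ → ℂ}

theorem zz_eq (h : Dens ρ c) (n : ℕ) (α : Fin k → ℝ) :
    zz ρ n α = ∫ u, ee (ph α ((n : ℝ) + u)) ∂(law ρ) := by
  rw [integral_law h.meas h.nonneg]
  rfl

theorem sum_lin (w : Fin d → ℤ) (f : Fin d → ℕ) (y : Fin d → ℝ) (γ : Fin k → ℝ) :
    ∑ j : Fin k, γ j * lin w f y j = ∑ i : Fin d, ph ((w i : ℝ) • γ) ((f i : ℝ) + y i) := by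
  unfold lin ph
  simp only [Finset.mul_sum]
  rw [Finset.sum_comm]
  apply Finset.sum_congr rfl
  intro i _
  apply Finset.sum_congr rfl
  intro j _
  rw [Pi.smul_apply, smul_eq_mul]
  ring

variable [IsProbabilityMeasure (law ρ)]

theorem integral_FF (h : Dens ρ c) (w : Fin d → ℤ) (f : Fin d → ℕ) (γ : Fin k → ℝ) :
    ∫ y, FF w f y γ ∂(Measure.pi fun _ : Fin d => law ρ) =
      (ker γ : ℂ) * ∏ i, zz ρ (f i) ((w i : ℝ) • γ) := by
  unfold FF
  rw [integral_const_mul]
  congr 1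
  have h1 : ∀ y : Fin d → ℝ, ee (∑ j : Fin k, γ j * lin w f y j) =
      ∏ i, (fun (i : Fin d) (u : ℝ) => ee (ph ((w i : ℝ) • γ) ((f i : ℝ) + u))) i (y i) := by
    intro y
    rw [sum_lin, ee_sum]
  rw [integral_congr_ae (ae_of_all _ h1)]
  rw [integral_fintype_prod_eq_prod (μ := fun _ : Fin d => law ρ)
    (f := fun (i : Fin d) (u : ℝ) => ee (ph ((w i : ℝ) • γ) ((f i : ℝ) + u)))]
  apply Finset.prod_congr rfl
  intro i _
  rw [zz_eq h]

theorem integrable_prod (h : Dens ρ c) (w : Fin d → ℤ) (f : Fin d → ℕ) :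
    Integrable (fun γ : Fin k → ℝ => (ker γ : ℂ) * ∏ i, zz ρ (f i) ((w i : ℝ) • γ))
      ((volume : Measure (Fin k → ℝ)).restrict (box k 0 (1 / 8))) := by
  have h1 := (integrable_FF (k := k) (Measure.pi fun _ : Fin d => law ρ) w f).integral_prod_right
  refine h1.congr (ae_of_all _ fun γ => ?_)
  exact integral_FF h w f γ

theorem mean_eq (h : Dens ρ c) (w : Fin d → ℤ) (f : Fin d → ℕ) :
    ∫ y, kerhat (lin (k := k) w f y) ∂(Measure.pi fun _ : Fin d => law ρ) =
      ∫ γ in box k 0 (1 / 8), (ker γ : ℂ) * ∏ i, zz ρ (f i) ((w i : ℝ) • γ) := by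
  have h1 : ∀ y, kerhat (lin (k := k) w f y) = ∫ γ in box k 0 (1 / 8), FF w f y γ := fun _ => rfl
  simp only [h1]
  rw [integral_integral_swap (integrable_FF _ w f)]
  apply integral_congr_ae
  exact ae_of_all _ fun γ => integral_FF h w f γ

theorem sum_mean_eq (h : Dens ρ c) (w : Fin d → ℤ) (N : ℕ) :
    ∑ f ∈ Fintype.piFinset (fun _ : Fin d => Finset.Icc 1 N),
        ∫ y, kerhat (lin (k := k) w f y) ∂(Measure.pi fun _ : Fin d => law ρ) =
      ∫ γ in box k 0 (1 / 8), (ker γ : ℂ) * ∏ i, MM ρ N ((w i : ℝ) • γ) := by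
  simp only [mean_eq h]
  rw [← integral_finsetSum _ fun f _ => integrable_prod h w f]
  apply integral_congr_ae
  apply ae_of_all
  intro γ
  simp only
  rw [← Finset.mul_sum]
  congr 1
  unfold MM
  rw [Finset.prod_univ_sum]

theorem measurable_zz (h : Dens ρ c) (n : ℕ) : StronglyMeasurable (zz (k := k) ρ n) := by
  have h1 : Continuous (Function.uncurry fun (α : Fin k → ℝ) (u : ℝ) =>
      ee (ph α ((n : ℝ) + u))) := by
    unfold ph Function.uncurry
    apply continuous_ee.comp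
    fun_prop
  have h2 := h1.stronglyMeasurable.integral_prod_right (ν := law ρ)
  have h3 : (fun α : Fin k → ℝ => ∫ u, ee (ph α ((n : ℝ) + u)) ∂(law ρ)) = zz ρ n := by
    funext α
    rw [zz_eq h]
  rw [← h3]
  exact h2

theorem norm_zz_le (h : Dens ρ c) (n : ℕ) (α : Fin k → ℝ) : ‖zz ρ n α‖ ≤ 1 := by
  rw [zz_eq h]
  refine (norm_integral_le_of_norm_le_const (C := 1) (ae_of_all _ fun u => (norm_ee _).le)).trans ?_
  simp

theorem measurable_MM (h : Dens ρ c) (N : ℕ) : StronglyMeasurable (MM (k := k) ρ N) := by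
  unfold MM
  apply Finset.stronglyMeasurable_fun_sum
  intro n _
  exact measurable_zz h n

theorem norm_MM_le (h : Dens ρ c) (N : ℕ) (α : Fin k → ℝ) : ‖MM ρ N α‖ ≤ N := by
  unfold MM
  refine (norm_sum_le _ _).trans ?_
  refine (Finset.sum_le_sum fun n _ => norm_zz_le h n α).trans ?_
  simp

theorem integrable_MM (h : Dens ρ c) (N p : ℕ) (a : ℝ) (v : Fin k → ℝ) (r : ℝ) :
    Integrable (fun γ : Fin k → ℝ => ‖MM ρ N (a • γ)‖ ^ p)
      ((volume : Measure (Fin k → ℝ)).restrict (box k v r)) := by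
  apply Integrable.mono' (g := fun _ => (N : ℝ) ^ p) (integrable_const _)
  · have h1 : Measurable fun γ : Fin k → ℝ => a • γ := measurable_const_smul a
    exact (((measurable_MM h N).comp_measurable h1).norm.pow p).aestronglyMeasurable
  · apply ae_of_all
    intro γ
    rw [Real.norm_of_nonneg (by positivity)]
    exact pow_le_pow_left₀ (norm_nonneg _) (norm_MM_le h N _) p

/-- the scaling of one factor -/
theorem scale_le (h : Dens ρ c) (N p W : ℕ) {a : ℤ} (ha : a ≠ 0) (hW : |a| ≤ (W : ℤ)) :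
    ∫ γ in box k 0 (1 / 8), ‖MM ρ N ((a : ℝ) • γ)‖ ^ p ≤
      ∫ γ in box k 0 (((W : ℝ) + 1) / 8), ‖MM ρ N γ‖ ^ p := by
  have haR : (a : ℝ) ≠ 0 := by exact_mod_cast ha
  have h1a : (1 : ℝ) ≤ |(a : ℝ)| := by
    have : 1 ≤ |a| := Int.one_le_abs ha
    exact_mod_cast this
  have hWa : |(a : ℝ)| ≤ (W : ℝ) := by exact_mod_cast hW
  rw [Measure.setIntegral_comp_smul volume (fun γ : Fin k → ℝ => ‖MM ρ N γ‖ ^ p) _ haR]
  have h2 : |((a : ℝ) ^ Module.finrank ℝ (Fin k → ℝ))⁻¹| ≤ 1 := by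
    rw [abs_inv, abs_pow]
    exact inv_le_one_of_one_le₀ (one_le_pow₀ h1a)
  have h3 : (a : ℝ) • box k 0 (1 / 8) ⊆ box k 0 (((W : ℝ) + 1) / 8) := by
    rintro _ ⟨γ, hγ, rfl⟩
    have h5 : ∀ j, |γ j| ≤ 1 / 8 := by
      intro j
      have h1 := hγ.1 j
      have h2 := hγ.2 j
      simp only [Pi.zero_apply, zero_sub, zero_add] at h1 h2
      exact abs_le.mpr ⟨h1, h2⟩
    have h6 : ∀ j, |(a : ℝ) * γ j| ≤ ((W : ℝ) + 1) / 8 := by
      intro j
      rw [abs_mul]
      have := mul_le_mul hWa (h5 j) (abs_nonneg _) (by positivity)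
      linarith
    refine ⟨fun j => ?_, fun j => ?_⟩
    · have := (abs_le.mp (h6 j)).1
      simpa using this
    · have := (abs_le.mp (h6 j)).2
      simpa using this
  have h4 : ∫ γ in (a : ℝ) • box k 0 (1 / 8), ‖MM ρ N γ‖ ^ p ≤
      ∫ γ in box k 0 (((W : ℝ) + 1) / 8), ‖MM ρ N γ‖ ^ p := by
    apply setIntegral_mono_set
    · have := integrable_MM (k := k) h N p 1 0 (((W : ℝ) + 1) / 8)
      simp only [one_smul] at this
      exact this
    · exact ae_of_all _ fun γ => by positivity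
    · exact h3.eventuallyLE
  have h5 : 0 ≤ ∫ γ in (a : ℝ) • box k 0 (1 / 8), ‖MM ρ N γ‖ ^ p :=
    integral_nonneg fun γ => by positivity
  rw [smul_eq_mul]
  calc _ ≤ 1 * ∫ γ in (a : ℝ) • box k 0 (1 / 8), ‖MM ρ N γ‖ ^ p :=
        mul_le_mul_of_nonneg_right h2 h5
    _ ≤ _ := by rw [one_mul]; exact h4

end

/-- the geometric mean against the sum of powers -/
theorem prod_le_sum_pow (hd : 1 ≤ d) (a : Fin d → ℝ) (ha : ∀ i, 0 ≤ a i) :
    ∏ i, a i ≤ ∑ i, a i ^ d := by
  have : NeZero d := ⟨by omega⟩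
  obtain ⟨i₀, _, h0⟩ := Finset.exists_max_image (Finset.univ : Finset (Fin d)) a ⟨0, by simp⟩
  calc ∏ i, a i ≤ ∏ _i : Fin d, a i₀ := Finset.prod_le_prod (fun i _ => ha i)
        fun i hi => h0 i hi
    _ = a i₀ ^ d := by simp
    _ ≤ ∑ i, a i ^ d := Finset.single_le_sum (f := fun i => a i ^ d)
        (fun i _ => pow_nonneg (ha i) d) (Finset.mem_univ i₀)

theorem measurable_kerhat (w : Fin d → ℤ) (f : Fin d → ℕ) :
    StronglyMeasurable fun y => kerhat (lin (k := k) w f y) :=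
  (continuous_FF (k := k) w f).stronglyMeasurable.integral_prod_right
    (ν := (volume : Measure (Fin k → ℝ)).restrict (box k 0 (1 / 8)))

theorem integrable_kerhat (μ : Measure (Fin d → ℝ)) [IsProbabilityMeasure μ] (w : Fin d → ℤ)
    (f : Fin d → ℕ) : Integrable (fun y => kerhat (lin (k := k) w f y)) μ :=
  (integrable_FF (k := k) μ w f).integral_prod_left

open scoped Classical in
/-- the probability against the mean of the kernel -/
theorem prob_le {ρ : ℝ → ℝ} {Ω : Type} [MeasurableSpace Ω] (P : Measure Ω)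
    [IsProbabilityMeasure P] (X : ℕ → Ω → ℝ) (hX : ∀ n, Measurable (X n)) (hI : iIndepFun X P)
    (hL : ∀ n, P.map (X n) = law ρ) [IsProbabilityMeasure (law ρ)] {c₀ : ℝ}
    (hC : ∀ u : Fin k → ℝ, 0 ≤ (kerhat u).re ∧ (kerhat u).im = 0 ∧
      ((∀ j, |u j| < 1) → c₀ ≤ (kerhat u).re)) (w : Fin d → ℤ) (f : Fin d → ℕ)
    (hf : Function.Injective f) :
    c₀ * P.real {ω | ∀ j : Fin k, |∑ i : Fin d, (w i : ℝ) * ((f i : ℝ) + X (f i) ω) ^ (j.val + 1)| < 1}
      ≤ (∫ y, kerhat (lin (k := k) w f y) ∂(Measure.pi fun _ : Fin d => law ρ)).re := by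
  have hY : Measurable fun ω (i : Fin d) => X (f i) ω := measurable_pi_lambda _ fun i => hX (f i)
  have hmap : P.map (fun ω (i : Fin d) => X (f i) ω) = Measure.pi fun _ : Fin d => law ρ := by
    have h1 := (iIndepFun_iff_map_fun_eq_pi_map (μ := P) (f := fun (i : Fin d) => X (f i))
      (fun i => (hX (f i)).aemeasurable)).mp (hI.precomp hf)
    rw [h1]
    simp only [hL]
  set μ : Measure (Fin d → ℝ) := Measure.pi fun _ : Fin d => law ρ with hμ
  have hset : MeasurableSet {y : Fin d → ℝ | ∀ j : Fin k, |lin (k := k) w f y j| < 1} := by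
    have h1 : {y : Fin d → ℝ | ∀ j : Fin k, |lin (k := k) w f y j| < 1} =
        ⋂ j : Fin k, {y : Fin d → ℝ | |lin (k := k) w f y j| < 1} := by
      ext y
      simp
    rw [h1]
    apply MeasurableSet.iInter
    intro j
    have h2 : Continuous fun y : Fin d → ℝ => |lin (k := k) w f y j| :=
      ((continuous_apply j).comp (continuous_lin w f)).abs
    exact measurableSet_lt h2.measurable measurable_const
  have h1 : P.real {ω | ∀ j : Fin k, |∑ i : Fin d, (w i : ℝ) * ((f i : ℝ) + X (f i) ω) ^ (j.val + 1)| < 1}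
      = μ.real {y : Fin d → ℝ | ∀ j : Fin k, |lin (k := k) w f y j| < 1} := by
    rw [← hmap, map_measureReal_apply hY hset]
    rfl
  rw [h1]
  have h2 : c₀ * μ.real {y : Fin d → ℝ | ∀ j : Fin k, |lin (k := k) w f y j| < 1} =
      ∫ y, ({y : Fin d → ℝ | ∀ j : Fin k, |lin (k := k) w f y j| < 1}).indicator
        (fun _ => c₀) y ∂μ := by
    rw [integral_indicator hset, setIntegral_const, smul_eq_mul, mul_comm]
  have h3 : (∫ y, kerhat (lin (k := k) w f y) ∂μ).re = ∫ y, (kerhat (lin (k := k) w f y)).re ∂μ := by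
    have := integral_re (integrable_kerhat (k := k) μ w f)
    exact this.symm
  rw [h2, h3]
  apply integral_mono
  · exact (integrable_const c₀).indicator hset
  · exact (integrable_kerhat (k := k) μ w f).re
  · intro y
    by_cases hy : y ∈ {y : Fin d → ℝ | ∀ j : Fin k, |lin (k := k) w f y j| < 1}
    · rw [Set.indicator_of_mem hy]
      exact (hC _).2.2 hy
    · rw [Set.indicator_of_notMem hy]
      exact (hC _).1

end P1

open P1 in
open scoped Classical in
/-- **package P1** -/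
theorem t_P1 : S_C → S_D → S_P1 := by
  intro hC hD ρ c hρ k d W hk hd
  obtain ⟨c₀, hc₀, hC⟩ := hC k
  obtain ⟨C₁, hC₁, hD⟩ := hD ρ c hρ k d hk (((W : ℝ) + 1) / 8) (by positivity)
  refine ⟨d * C₁ / c₀, by positivity, ?_⟩
  intro Ω _ P _ X hX hI hL N hN w hw
  have hprob : IsProbabilityMeasure (law ρ) := by
    rw [← hL 0]
    exact Measure.isProbabilityMeasure_map (hX 0).aemeasurable
  set μ : Measure (Fin d → ℝ) := Measure.pi fun _ : Fin d => law ρ with hμ
  have h1 : c₀ * ∑ f ∈ (Fintype.piFinset (fun _ : Fin d => Finset.Icc 1 N)).filter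
      (fun f => Function.Injective f),
      P.real {ω | ∀ j : Fin k, |∑ i : Fin d, (w i : ℝ) * ((f i : ℝ) + X (f i) ω) ^ (j.val + 1)| < 1} ≤
      ∑ f ∈ Fintype.piFinset (fun _ : Fin d => Finset.Icc 1 N),
        (∫ y, kerhat (lin (k := k) w f y) ∂μ).re := by
    rw [Finset.mul_sum]
    calc _ ≤ ∑ f ∈ (Fintype.piFinset (fun _ : Fin d => Finset.Icc 1 N)).filter
            (fun f => Function.Injective f), (∫ y, kerhat (lin (k := k) w f y) ∂μ).re := by
          apply Finset.sum_le_sum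
          intro f hf
          exact prob_le P X hX hI hL hC w f (Finset.mem_filter.mp hf).2
      _ ≤ _ := by
          apply Finset.sum_le_sum_of_subset_of_nonneg (Finset.filter_subset _ _)
          intro f _ _
          have h3 : (∫ y, kerhat (lin (k := k) w f y) ∂μ).re =
              ∫ y, (kerhat (lin (k := k) w f y)).re ∂μ :=
            (integral_re (integrable_kerhat (k := k) μ w f)).symm
          rw [h3]
          exact integral_nonneg fun y => (hC _).1
  have h2 : ∑ f ∈ Fintype.piFinset (fun _ : Fin d => Finset.Icc 1 N),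
        (∫ y, kerhat (lin (k := k) w f y) ∂μ).re =
      (∫ γ in box k 0 (1 / 8), (ker γ : ℂ) * ∏ i, MM ρ N ((w i : ℝ) • γ)).re := by
    rw [← sum_mean_eq hρ w N, Complex.re_sum]
  have h3 : ‖∫ γ in box k 0 (1 / 8), (ker γ : ℂ) * ∏ i, MM ρ N ((w i : ℝ) • γ)‖ ≤
      ∫ γ in box k 0 (1 / 8), ∑ i, ‖MM ρ N ((w i : ℝ) • γ)‖ ^ d := by
    apply norm_integral_le_of_norm_le
    · exact integrable_finsetSum _ fun i _ => integrable_MM hρ N d _ _ _
    · filter_upwards [ae_restrict_mem (measurableSet_box 0 (1 / 8))] with γ hγ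
      rw [norm_mul, norm_prod, Complex.norm_real]
      have h4 := abs_ker_le hγ
      have h5 := prod_le_sum_pow hd (fun i => ‖MM ρ N ((w i : ℝ) • γ)‖) fun i => norm_nonneg _
      calc _ ≤ 1 * ∏ i, ‖MM ρ N ((w i : ℝ) • γ)‖ :=
            mul_le_mul_of_nonneg_right h4 (Finset.prod_nonneg fun i _ => norm_nonneg _)
        _ ≤ _ := by rw [one_mul]; exact h5
  have h4 : ∫ γ in box k 0 (1 / 8), ∑ i, ‖MM ρ N ((w i : ℝ) • γ)‖ ^ d ≤ d * (C₁ * AA d k N) := by
    rw [integral_finsetSum _ fun i _ => integrable_MM hρ N d _ _ _]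
    calc _ ≤ ∑ _i : Fin d, C₁ * AA d k N := by
          apply Finset.sum_le_sum
          intro i _
          exact (scale_le hρ N d W (hw i).1 (hw i).2).trans (hD N hN)
      _ = _ := by simp
  have h5 := Complex.re_le_norm (∫ γ in box k 0 (1 / 8), (ker γ : ℂ) * ∏ i, MM ρ N ((w i : ℝ) • γ))
  rw [h2] at h1
  have h6 := h1.trans (h5.trans (h3.trans h4))
  have h7 : (d : ℝ) * C₁ / c₀ * AA d k N = (d * (C₁ * AA d k N)) / c₀ := by ring
  rw [h7, le_div_iff₀ hc₀, mul_comm]
  exact h6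

end

end Pool.Agent.U160.VP
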