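import Pool.Agent.U160.VP.Stm

set_option autoImplicit false

/-!
# Project VP, package P2: reduction of the non-diagonal pairs to weighted systems in distinct variables
-/

namespace Pool.Agent.U160.VP

open Finset

noncomputable section

namespace P2

/-- functions with fibres of the same cardinalities differ by a permutation -/
theorem exists_perm_of_card {s : ℕ} (x y : Fin s → ℕ)
    (h : ∀ v, Fintype.card {i // y i = v} = Fintype.card {i // x i = v}) :
    ∃ σ : Equiv.Perm (Fin s), y = x ∘ σ := by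
  let e : ∀ v, {i // y i = v} ≃ {i // x i = v} := fun v => Fintype.equivOfCardEq (h v)
  let σ : Equiv.Perm (Fin s) :=
    (Equiv.sigmaFiberEquiv y).symm.trans ((Equiv.sigmaCongrRight e).trans (Equiv.sigmaFiberEquiv x))
  refine ⟨σ, ?_⟩
  ext i
  have h1 : σ i = (e (y i) ⟨i, rfl⟩).1 := rfl
  rw [Function.comp_apply, h1]
  exact (e (y i) ⟨i, rfl⟩).2.symm

theorem cnt_apply {s : ℕ} (p : (Fin s → ℕ) × (Fin s → ℕ)) (v : ℕ) :
    cnt p v = ((univ.filter fun i => p.1 i = v).card : ℤ) - ((univ.filter fun i => p.2 i = v).card : ℤ) := by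
  classical
  unfold cnt
  rw [Finsupp.sub_apply, Finsupp.finsetSum_apply, Finsupp.finsetSum_apply]
  simp [Finsupp.single_apply, Finset.sum_boole]

theorem cnt_eq_zero_iff {s : ℕ} (p : (Fin s → ℕ) × (Fin s → ℕ)) :
    cnt p = 0 ↔ ∃ σ : Equiv.Perm (Fin s), p.2 = p.1 ∘ σ := by
  classical
  constructor
  · intro h
    apply exists_perm_of_card
    intro v
    have h1 := DFunLike.congr_fun h v
    rw [cnt_apply, Finsupp.zero_apply, sub_eq_zero] at h1
    rw [Fintype.card_subtype, Fintype.card_subtype]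
    exact_mod_cast h1.symm
  · rintro ⟨σ, hσ⟩
    unfold cnt
    rw [hσ, sub_eq_zero]
    exact (Equiv.sum_comp σ (fun i => Finsupp.single (p.1 i) (1 : ℤ))).symm

/-- comparison of sums by a covering -/
theorem sum_le_of_cover {α β : Type*} (A : Finset α) (T : Finset β) (ψ : β → α) (F : α → ℝ) (G : β → ℝ)
    (hG : ∀ t ∈ T, 0 ≤ G t) (h : ∀ p ∈ A, ∃ t ∈ T, ψ t = p ∧ F p ≤ G t) :
    ∑ p ∈ A, F p ≤ ∑ t ∈ T, G t := by
  classical
  rcases A.eq_empty_or_nonempty with hA | ⟨p₀, hp₀⟩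
  · rw [hA, sum_empty]
    exact sum_nonneg hG
  · obtain ⟨t₀, -, -, -⟩ := h p₀ hp₀
    have : Nonempty β := ⟨t₀⟩
    choose! t ht1 ht2 ht3 using h
    have hinj : Set.InjOn t A := fun p hp q hq hpq => by
      rw [← ht2 p hp, ← ht2 q hq, hpq]
    calc ∑ p ∈ A, F p ≤ ∑ p ∈ A, G (t p) := sum_le_sum ht3
      _ = ∑ u ∈ A.image t, G u := (sum_image hinj).symm
      _ ≤ ∑ u ∈ T, G u := by
          refine sum_le_sum_of_subset_of_nonneg ?_ (fun u hu _ => hG u hu)
          intro u hu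
          obtain ⟨p, hp, rfl⟩ := mem_image.1 hu
          exact ht1 p hp

/-- the inner sum -/
def inn (B N d : ℕ) (g : (ℕ →₀ ℤ) → ℝ) : ℝ :=
  ∑ w ∈ Fintype.piFinset (fun _ : Fin d => (Finset.Icc (-(B : ℤ)) B).erase 0),
    ∑ f ∈ (Fintype.piFinset (fun _ : Fin d => Finset.Icc 1 N)).filter (fun f => Function.Injective f),
      g (∑ i : Fin d, Finsupp.single (f i) (w i))

theorem inn_nonneg {g : (ℕ →₀ ℤ) → ℝ} (hg : ∀ m, 0 ≤ g m) (B N d : ℕ) : 0 ≤ inn B N d g :=
  sum_nonneg fun _ _ => sum_nonneg fun _ _ => hg _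

theorem inn_mono {g : (ℕ →₀ ℤ) → ℝ} (hg : ∀ m, 0 ≤ g m) {B B' : ℕ} (h : B ≤ B') (N d : ℕ) :
    inn B N d g ≤ inn B' N d g := by
  refine sum_le_sum_of_subset_of_nonneg ?_ fun _ _ _ => sum_nonneg fun _ _ => hg _
  intro w hw
  rw [Fintype.mem_piFinset] at hw ⊢
  intro i
  have := hw i
  rw [mem_erase, mem_Icc] at this ⊢
  have h' : (B : ℤ) ≤ B' := by exact_mod_cast h
  exact ⟨this.1, by omega, by omega⟩

/-- the right side -/
def Rr (s N : ℕ) (g : (ℕ →₀ ℤ) → ℝ) : ℝ :=
  ∑ q ∈ Finset.Icc 1 s, (N : ℝ) ^ (s - q) * ∑ d ∈ Finset.Icc 1 (2 * q), inn (2 * s) N d g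

theorem Rr_succ {g : (ℕ →₀ ℤ) → ℝ} (hg : ∀ m, 0 ≤ g m) (s N : ℕ) :
    (N : ℝ) * Rr s N g + ∑ d ∈ Finset.Icc 1 (2 * (s + 1)), inn (2 * (s + 1)) N d g ≤ Rr (s + 1) N g := by
  unfold Rr
  rw [Finset.sum_Icc_succ_top (by omega)]
  have h1 : (N : ℝ) ^ (s + 1 - (s + 1)) = 1 := by simp
  rw [h1, one_mul]
  refine add_le_add ?_ le_rfl
  rw [mul_sum]
  refine sum_le_sum fun q hq => ?_
  rw [mem_Icc] at hq
  have h2 : s + 1 - q = (s - q) + 1 := by omega
  rw [h2, pow_succ, ← mul_assoc, mul_comm (N : ℝ) ((N : ℝ) ^ (s - q))]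
  refine mul_le_mul_of_nonneg_left ?_ (by positivity)
  exact sum_le_sum fun d _ => inn_mono hg (by omega) N d

/-- the pairs with a common value -/
theorem common {g : (ℕ →₀ ℤ) → ℝ} (hg : ∀ m, 0 ≤ g m) (s N : ℕ) :
    ∑ p ∈ (pairs (s + 1) N).filter (fun p => cnt p ≠ 0 ∧ ∃ i j, p.1 i = p.2 j), g (cnt p) ≤
      ((s + 1 : ℕ) : ℝ) ^ 2 * N * ∑ p ∈ (pairs s N).filter (fun p => cnt p ≠ 0), g (cnt p) := by
  classical
  have key : ∑ p ∈ (pairs (s + 1) N).filter (fun p => cnt p ≠ 0 ∧ ∃ i j, p.1 i = p.2 j), g (cnt p) ≤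
      ∑ t ∈ (univ : Finset (Fin (s + 1) × Fin (s + 1))) ×ˢ (Finset.Icc 1 N ×ˢ
        (pairs s N).filter (fun p => cnt p ≠ 0)), g (cnt t.2.2) := by
    refine sum_le_of_cover _ _ (fun t => (Fin.insertNth t.1.1 t.2.1 t.2.2.1, Fin.insertNth t.1.2 t.2.1 t.2.2.2)) _ _
      (fun _ _ => hg _) ?_
    rintro ⟨x, y⟩ hp
    rw [mem_filter] at hp
    obtain ⟨hp1, hp2, i, j, hij⟩ := hp
    have hxy : (∀ i, x i ∈ Finset.Icc 1 N) ∧ ∀ i, y i ∈ Finset.Icc 1 N := by
      have := hp1
      rw [pairs, mem_product, Fintype.mem_piFinset, Fintype.mem_piFinset] at this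
      exact this
    have hc : cnt (x, y) = cnt ((fun a => x (i.succAbove a), fun a => y (j.succAbove a)) :
        (Fin s → ℕ) × (Fin s → ℕ)) := by
      unfold cnt
      rw [Fin.sum_univ_succAbove _ i, Fin.sum_univ_succAbove (fun a => Finsupp.single ((x, y).2 a) (1 : ℤ)) j]
      have : x i = y j := hij
      simp only [this]
      abel
    refine ⟨((i, j), (x i, ((fun a => x (i.succAbove a)), fun a => y (j.succAbove a)))), ?_, ?_, ?_⟩
    · rw [mem_product, mem_product, mem_filter]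
      refine ⟨mem_univ _, hxy.1 i, ?_, ?_⟩
      · rw [pairs, mem_product, Fintype.mem_piFinset, Fintype.mem_piFinset]
        exact ⟨fun a => hxy.1 _, fun a => hxy.2 _⟩
      · rw [← hc]
        exact hp2
    · have h1 : Fin.insertNth (α := fun _ => ℕ) i (x i) (fun a => x (i.succAbove a)) = x :=
        Fin.insertNth_self_removeNth i x
      have h2 : Fin.insertNth (α := fun _ => ℕ) j (x i) (fun a => y (j.succAbove a)) = y := by
        have : x i = y j := hij
        rw [this]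
        exact Fin.insertNth_self_removeNth j y
      exact Prod.ext h1 h2
    · rw [hc]
  refine key.trans (le_of_eq ?_)
  rw [sum_product]
  simp only [sum_product, sum_const, nsmul_eq_mul, Finset.card_univ, Fintype.card_prod, Fintype.card_fin,
    Nat.card_Icc]
  push_cast
  ring

/-- a finitely supported function is the sum of its values over a set containing the support -/
theorem eq_sum_single (m : ℕ →₀ ℤ) {d : ℕ} (f : Fin d → ℕ) (hf : Function.Injective f)
    (hm : ∀ v, m v ≠ 0 → ∃ i, f i = v) : m = ∑ i : Fin d, Finsupp.single (f i) (m (f i)) := by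
  classical
  ext v
  rw [Finsupp.finsetSum_apply]
  by_cases hv : m v = 0
  · rw [hv]
    symm
    refine sum_eq_zero fun i _ => ?_
    rw [Finsupp.single_apply]
    split_ifs with h
    · rw [h, hv]
    · rfl
  · obtain ⟨i, rfl⟩ := hm v hv
    rw [sum_eq_single i]
    · simp
    · intro j _ hj
      rw [Finsupp.single_apply, if_neg]
      exact fun h => hj (hf h)
    · intro h
      exact absurd (mem_univ i) h

/-- the pairs without a common value -/
theorem disj {g : (ℕ →₀ ℤ) → ℝ} (hg : ∀ m, 0 ≤ g m) (s N : ℕ) (hs : 1 ≤ s) :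
    ∑ p ∈ (pairs s N).filter (fun p => cnt p ≠ 0 ∧ ¬ ∃ i j, p.1 i = p.2 j), g (cnt p) ≤
      ((2 * s : ℕ) : ℝ) ^ (2 * s) * ∑ d ∈ Finset.Icc 1 (2 * s), inn (2 * s) N d g := by
  classical
  have key : ∑ p ∈ (pairs s N).filter (fun p => cnt p ≠ 0 ∧ ¬ ∃ i j, p.1 i = p.2 j), g (cnt p) ≤
      ∑ t ∈ (Finset.Icc 1 (2 * s)).sigma (fun d =>
        (Fintype.piFinset (fun _ : Fin d => (Finset.Icc (-((2 * s : ℕ) : ℤ)) (2 * s : ℕ)).erase 0)) ×ˢ
        ((Fintype.piFinset (fun _ : Fin d => Finset.Icc 1 N)).filter (fun f => Function.Injective f) ×ˢ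
        (univ : Finset ((Fin s → Fin d) × (Fin s → Fin d))))),
        g (∑ i : Fin t.1, Finsupp.single (t.2.2.1 i) (t.2.1 i)) := by
    refine sum_le_of_cover _ _ (fun t => (t.2.2.1 ∘ t.2.2.2.1, t.2.2.1 ∘ t.2.2.2.2)) _ _ (fun _ _ => hg _) ?_
    rintro ⟨x, y⟩ hp
    rw [mem_filter] at hp
    obtain ⟨hp1, -, hp3⟩ := hp
    have hxy : (∀ i, x i ∈ Finset.Icc 1 N) ∧ ∀ i, y i ∈ Finset.Icc 1 N := by
      have := hp1
      rw [pairs, mem_product, Fintype.mem_piFinset, Fintype.mem_piFinset] at this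
      exact this
    obtain ⟨V, hV⟩ : ∃ V, V = univ.image x ∪ univ.image y := ⟨_, rfl⟩
    have hVc : V.card ≤ 2 * s := by
      rw [hV]
      refine (card_union_le _ _).trans ?_
      have h1 : (univ.image x).card ≤ s := card_image_le.trans (by simp)
      have h2 : (univ.image y).card ≤ s := card_image_le.trans (by simp)
      omega
    have hV0 : 1 ≤ V.card := by
      rw [Nat.one_le_iff_ne_zero, ← Nat.pos_iff_ne_zero, card_pos]
      refine ⟨x ⟨0, hs⟩, ?_⟩
      rw [hV]
      exact mem_union_left _ (mem_image_of_mem _ (mem_univ _))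
    have hVm : ∀ v, v ∈ V ↔ (∃ c, x c = v) ∨ ∃ c, y c = v := by
      intro v
      rw [hV, mem_union, mem_image, mem_image]
      simp
    have hf : ∀ v, v ∈ V ↔ ∃ i, V.orderEmbOfFin rfl i = v := by
      intro v
      rw [← Set.mem_range, range_orderEmbOfFin, mem_coe]
    have hinj : Function.Injective (V.orderEmbOfFin rfl) := (V.orderEmbOfFin rfl).injective
    have hx : ∀ a, ∃ i, V.orderEmbOfFin rfl i = x a := fun a => (hf _).1 (by
      rw [hV]
      exact mem_union_left _ (mem_image_of_mem _ (mem_univ _)))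
    have hy : ∀ a, ∃ i, V.orderEmbOfFin rfl i = y a := fun a => (hf _).1 (by
      rw [hV]
      exact mem_union_right _ (mem_image_of_mem _ (mem_univ _)))
    choose a ha using hx
    choose b hb using hy
    have hcard : ∀ (z : Fin s → ℕ) (v : ℕ), (univ.filter fun i => z i = v).card ≤ s := fun z v =>
      (card_filter_le _ _).trans (by simp)
    refine ⟨⟨V.card, (fun i => cnt (x, y) (V.orderEmbOfFin rfl i), (⇑(V.orderEmbOfFin rfl), (a, b)))⟩, ?_, ?_, ?_⟩
    · rw [mem_sigma]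
      refine ⟨mem_Icc.2 ⟨hV0, hVc⟩, ?_⟩
      rw [mem_product, mem_product, mem_filter, Fintype.mem_piFinset, Fintype.mem_piFinset]
      refine ⟨fun i => ?_, ⟨fun i => ?_, hinj⟩, mem_univ _⟩
      · rw [mem_erase, mem_Icc]
        have h1 := hcard x (V.orderEmbOfFin rfl i)
        have h2 := hcard y (V.orderEmbOfFin rfl i)
        refine ⟨?_, ?_, ?_⟩
        · have h3 := (hVm _).1 ((hf (V.orderEmbOfFin rfl i)).2 ⟨i, rfl⟩)
          show cnt (x, y) (V.orderEmbOfFin rfl i) ≠ 0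
          rw [cnt_apply]
          rcases h3 with ⟨c, hc⟩ | ⟨c, hc⟩
          · have h4 : (univ.filter fun j => y j = V.orderEmbOfFin rfl i) = ∅ := by
              rw [filter_eq_empty_iff]
              intro j _ hj
              exact hp3 ⟨c, j, hc.trans hj.symm⟩
            have h5 : 0 < (univ.filter fun j => x j = V.orderEmbOfFin rfl i).card :=
              card_pos.2 ⟨c, mem_filter.2 ⟨mem_univ _, hc⟩⟩
            show ((univ.filter fun j => x j = V.orderEmbOfFin rfl i).card : ℤ) -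
              ((univ.filter fun j => y j = V.orderEmbOfFin rfl i).card : ℤ) ≠ 0
            rw [h4, card_empty]
            push_cast
            omega
          · have h4 : (univ.filter fun j => x j = V.orderEmbOfFin rfl i) = ∅ := by
              rw [filter_eq_empty_iff]
              intro j _ hj
              exact hp3 ⟨j, c, hj.trans hc.symm⟩
            have h5 : 0 < (univ.filter fun j => y j = V.orderEmbOfFin rfl i).card :=
              card_pos.2 ⟨c, mem_filter.2 ⟨mem_univ _, hc⟩⟩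
            show ((univ.filter fun j => x j = V.orderEmbOfFin rfl i).card : ℤ) -
              ((univ.filter fun j => y j = V.orderEmbOfFin rfl i).card : ℤ) ≠ 0
            rw [h4, card_empty]
            push_cast
            omega
        · show -((2 * s : ℕ) : ℤ) ≤ cnt (x, y) (V.orderEmbOfFin rfl i)
          rw [cnt_apply]
          show -((2 * s : ℕ) : ℤ) ≤ ((univ.filter fun j => x j = V.orderEmbOfFin rfl i).card : ℤ) -
              ((univ.filter fun j => y j = V.orderEmbOfFin rfl i).card : ℤ)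
          push_cast
          omega
        · show cnt (x, y) (V.orderEmbOfFin rfl i) ≤ ((2 * s : ℕ) : ℤ)
          rw [cnt_apply]
          show ((univ.filter fun j => x j = V.orderEmbOfFin rfl i).card : ℤ) -
              ((univ.filter fun j => y j = V.orderEmbOfFin rfl i).card : ℤ) ≤ ((2 * s : ℕ) : ℤ)
          push_cast
          omega
      · have h3 := (hVm _).1 ((hf (V.orderEmbOfFin rfl i)).2 ⟨i, rfl⟩)
        show V.orderEmbOfFin rfl i ∈ Finset.Icc 1 N
        rcases h3 with ⟨c, hc⟩ | ⟨c, hc⟩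
        · rw [← hc]; exact hxy.1 c
        · rw [← hc]; exact hxy.2 c
    · exact Prod.ext (funext ha) (funext hb)
    · refine le_of_eq (congrArg g ?_)
      refine eq_sum_single _ _ hinj fun v hv => (hf v).1 ?_
      by_contra hcon
      apply hv
      rw [cnt_apply]
      have h6 : ∀ z : Fin s → ℕ, (∀ i, z i ∈ V) → (univ.filter fun i => z i = v) = ∅ := by
        intro z hz
        rw [filter_eq_empty_iff]
        intro j _ hj
        exact hcon (hj ▸ hz j)
      have h7 := h6 x fun i => by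
        rw [hV]
        exact mem_union_left _ (mem_image_of_mem _ (mem_univ _))
      have h8 := h6 y fun i => by
        rw [hV]
        exact mem_union_right _ (mem_image_of_mem _ (mem_univ _))
      show ((univ.filter fun j => x j = v).card : ℤ) - ((univ.filter fun j => y j = v).card : ℤ) = 0
      rw [h7, h8]
      simp
  refine key.trans ?_
  rw [sum_sigma, mul_sum]
  refine sum_le_sum fun d hd => ?_
  rw [mem_Icc] at hd
  rw [inn, mul_sum, sum_product]
  refine sum_le_sum fun w _ => ?_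
  rw [mul_sum, sum_product]
  refine sum_le_sum fun f _ => ?_
  show ∑ _y : (Fin s → Fin d) × (Fin s → Fin d), g (∑ i, Finsupp.single (f i) (w i)) ≤ _
  rw [sum_const, nsmul_eq_mul, Finset.card_univ, Fintype.card_prod, Fintype.card_fun, Fintype.card_fin,
    Fintype.card_fin]
  refine mul_le_mul_of_nonneg_right ?_ (hg _)
  have h9 : d ^ s * d ^ s ≤ (2 * s) ^ (2 * s) := by
    rw [← pow_add, ← two_mul]
    exact Nat.pow_le_pow_left hd.2 _
  exact_mod_cast h9

end P2

open P2 in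
/-- package P2 -/
theorem t_P2 : S_P2 := by
  classical
  refine ⟨fun s p => cnt_eq_zero_iff p, fun s => ?_⟩
  suffices h : ∃ C : ℝ, 0 < C ∧ ∀ (N : ℕ) (g : (ℕ →₀ ℤ) → ℝ), (∀ m, 0 ≤ g m) →
      ∑ p ∈ (pairs s N).filter (fun p => cnt p ≠ 0), g (cnt p) ≤ C * Rr s N g by
    obtain ⟨C, hC, h⟩ := h
    refine ⟨C, hC, fun N g hg => ?_⟩
    have h1 := h N g hg
    simp only [Rr, inn] at h1
    push_cast at h1
    convert h1 using 1
  induction s with
  | zero =>
    refine ⟨1, one_pos, fun N g hg => ?_⟩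
    have h1 : (pairs 0 N).filter (fun p => cnt p ≠ 0) = ∅ := by
      rw [filter_eq_empty_iff]
      intro p _ hp
      apply hp
      simp [cnt]
    rw [h1, sum_empty]
    simp [Rr]
  | succ s ih =>
    obtain ⟨C, hC, ih⟩ := ih
    refine ⟨((s + 1 : ℕ) : ℝ) ^ 2 * C + ((2 * (s + 1) : ℕ) : ℝ) ^ (2 * (s + 1)), by positivity, fun N g hg => ?_⟩
    have h1 : ∑ p ∈ (pairs (s + 1) N).filter (fun p => cnt p ≠ 0), g (cnt p) =
        ∑ p ∈ (pairs (s + 1) N).filter (fun p => cnt p ≠ 0 ∧ ∃ i j, p.1 i = p.2 j), g (cnt p) +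
        ∑ p ∈ (pairs (s + 1) N).filter (fun p => cnt p ≠ 0 ∧ ¬ ∃ i j, p.1 i = p.2 j), g (cnt p) := by
      rw [← filter_filter, ← filter_filter, sum_filter_add_sum_filter_not]
    have h2 := common hg s N
    have h3 := disj hg (s + 1) N (by omega)
    have h4 := ih N g hg
    have h5 := Rr_succ hg s N
    have h6 : 0 ≤ ∑ d ∈ Finset.Icc 1 (2 * (s + 1)), inn (2 * (s + 1)) N d g :=
      sum_nonneg fun d _ => inn_nonneg hg _ _ _
    have h7 : 0 ≤ Rr s N g := sum_nonneg fun q _ =>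
      mul_nonneg (by positivity) (sum_nonneg fun d _ => inn_nonneg hg _ _ _)
    have h8 : (0 : ℝ) ≤ N := Nat.cast_nonneg N
    have h9 : (0 : ℝ) ≤ ((s + 1 : ℕ) : ℝ) ^ 2 * N := by positivity
    have h10 : (0 : ℝ) ≤ ((2 * (s + 1) : ℕ) : ℝ) ^ (2 * (s + 1)) := by positivity
    have h11 : (0 : ℝ) ≤ ((s + 1 : ℕ) : ℝ) ^ 2 * C := by positivity
    rw [h1]
    calc _ ≤ ((s + 1 : ℕ) : ℝ) ^ 2 * N * (C * Rr s N g) +
          ((2 * (s + 1) : ℕ) : ℝ) ^ (2 * (s + 1)) *
            ∑ d ∈ Finset.Icc 1 (2 * (s + 1)), inn (2 * (s + 1)) N d g :=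
          add_le_add (h2.trans (mul_le_mul_of_nonneg_left h4 h9)) h3
      _ = ((s + 1 : ℕ) : ℝ) ^ 2 * C * ((N : ℝ) * Rr s N g) +
          ((2 * (s + 1) : ℕ) : ℝ) ^ (2 * (s + 1)) *
            ∑ d ∈ Finset.Icc 1 (2 * (s + 1)), inn (2 * (s + 1)) N d g := by ring
      _ ≤ ((s + 1 : ℕ) : ℝ) ^ 2 * C * Rr (s + 1) N g +
          ((2 * (s + 1) : ℕ) : ℝ) ^ (2 * (s + 1)) * Rr (s + 1) N g := by
          refine add_le_add (mul_le_mul_of_nonneg_left ?_ h11) (mul_le_mul_of_nonneg_left ?_ h10)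
          · linarith
          · have : 0 ≤ (N : ℝ) * Rr s N g := mul_nonneg h8 h7
            linarith
      _ = _ := by ring


end

end Pool.Agent.U160.VP
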