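import Pool.Agent.U160.VP.GND
import Pool.Agent.U160.VP.PkgA1
import Pool.Agent.U160.VP.PkgA
import Pool.Agent.U160.VP.PkgB0
import Pool.Agent.U160.VP.PkgB
import Pool.Agent.U160.VP.PkgC
import Pool.Agent.U160.VP.PkgD
import Pool.Agent.U160.VP.PkgI
import Pool.Agent.U160.VP.PkgH
import Pool.Agent.U160.VP.PkgF1
import Pool.Agent.U160.VP.PkgF3
import Pool.Agent.U160.VP.PkgP2
import Pool.Agent.U160.VP.PkgP1

set_option autoImplicit false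

namespace Pool.Agent.U160.VP

open MeasureTheory ProbabilityTheory Finset Filter

theorem a_D : S_D := t_D (t_B (t_A t_A1) t_B0)

theorem a_P1 : S_P1 := t_P1 t_C a_D

theorem ae_unit {ρ : ℝ → ℝ} (Ω : Type) [MeasurableSpace Ω] (P : Measure Ω) [IsProbabilityMeasure P]
    (X : ℕ → Ω → ℝ) (hX : ∀ n, Measurable (X n)) (hlaw : ∀ n, P.map (X n) = law ρ) :
    ∀ᵐ ω ∂P, ∀ n, 0 ≤ X n ω ∧ X n ω ≤ 1 := by
  rw [ae_all_iff]
  intro n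
  have h1 : ∀ᵐ x ∂(law ρ), x ∈ Set.Icc (0 : ℝ) 1 := by
    unfold law
    exact (withDensity_absolutelyContinuous _ _).ae_le (ae_restrict_mem measurableSet_Icc)
  rw [← hlaw n] at h1
  exact ae_of_ae_map (hX n).aemeasurable h1

theorem main {ρ : ℝ → ℝ} {c : ℤ → ℂ} (hρ : Dens ρ c) (Ω : Type) [MeasurableSpace Ω] (P : Measure Ω)
    [IsProbabilityMeasure P] (X : ℕ → Ω → ℝ)
    (hX : ∀ n, Measurable (X n)) (hind : iIndepFun X P) (hlaw : ∀ n, P.map (X n) = law ρ) :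
    ∀ᵐ ω ∂P, ∀ s k : ℕ, 1 ≤ s → 1 ≤ k →
      (∃ c₁ C₁ : ℝ, 0 < c₁ ∧ 0 < C₁ ∧ ∀ N : ℕ, 1 ≤ N →
        c₁ * ((N : ℝ) ^ (s : ℝ) + (N : ℝ) ^ (2 * (s : ℝ) - (k : ℝ) * ((k : ℝ) + 1) / 2)) ≤
          (J (fun n => X n ω) s k N : ℝ) ∧
        (J (fun n => X n ω) s k N : ℝ) ≤
          C₁ * ((N : ℝ) ^ (s : ℝ) + (N : ℝ) ^ (2 * (s : ℝ) - (k : ℝ) * ((k : ℝ) + 1) / 2))) ∧
      (2 * s < k * (k + 1) → ∃ C₂ : ℝ, ∀ N : ℕ, 1 ≤ N →
        (ND (fun n => X n ω) s k N : ℝ) ≤ C₂ * (N : ℝ) ^ ((s : ℝ) - 1 / (4 * k + 2))) := by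
  have hu := ae_unit (ρ := ρ) Ω P X hX hlaw
  have h1 : ∀ᵐ ω ∂P, ∀ s k : ℕ, 1 ≤ s → 1 ≤ k → ∃ C' : ℝ, 0 < C' ∧ ∀ N : ℕ, 1 ≤ N →
      (J (fun n => X n ω) s k N : ℝ) ≤ C' * BB (2 * s) k N := by
    rw [ae_all_iff]; intro s
    rw [ae_all_iff]; intro k
    by_cases hs : 1 ≤ s
    · by_cases hk : 1 ≤ k
      · filter_upwards [upper t_C a_D t_F1 t_F3 hρ s k hs hk Ω P X hX hind hlaw] with ω h _ _ using h
      · exact Eventually.of_forall fun ω _ h => absurd h hk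
    · exact Eventually.of_forall fun ω h => absurd h hs
  have h2 : ∀ᵐ ω ∂P, ∀ s k : ℕ, 1 ≤ s → 1 ≤ k → 2 * s < k * (k + 1) → ∃ C' : ℝ, 0 < C' ∧ ∀ N : ℕ, 1 ≤ N →
      (ND (fun n => X n ω) s k N : ℝ) ≤ C' * (N : ℝ) ^ ((s : ℝ) - 1 / (4 * k + 2)) := by
    rw [ae_all_iff]; intro s
    rw [ae_all_iff]; intro k
    by_cases hs : 1 ≤ s
    · by_cases hk : 1 ≤ k
      · by_cases hsk : 2 * s < k * (k + 1)
        · filter_upwards [paucity a_P1 t_P2 hρ s k hs hk hsk Ω P X hX hind hlaw] with ω h _ _ _ using h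
        · exact Eventually.of_forall fun ω _ _ h => absurd h hsk
      · exact Eventually.of_forall fun ω _ h => absurd h hk
    · exact Eventually.of_forall fun ω h => absurd h hs
  filter_upwards [hu, h1, h2] with ω hω1 hω2 hω3 s k hs hk
  refine ⟨?_, fun hsk => ?_⟩
  · obtain ⟨c₁, hc₁, h3⟩ := t_H s k hs hk
    obtain ⟨C₁, hC₁, h4⟩ := hω2 s k hs hk
    refine ⟨c₁, C₁, hc₁, hC₁, fun N hN => ⟨h3 (fun n => X n ω) hω1 N hN, ?_⟩⟩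
    refine (h4 N hN).trans (le_of_eq ?_)
    unfold BB
    push_cast
    congr 3
    ring
  · obtain ⟨C₂, _, h3⟩ := hω3 s k hs hk hsk
    exact ⟨C₂, h3⟩

end Pool.Agent.U160.VP
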