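import Pool.Agent.U160.VP.Stm2

/-!
Package R1 of project VP (helper194): `r`-wise independence of the fractional parts of a random polynomial.
-/

set_option autoImplicit false

namespace Pool.Agent.U160.VP

open MeasureTheory

namespace R1

/-- Interpolation. -/
theorem solve (r : ℕ) (S : Finset ℕ) (hS : ∀ n ∈ S, 1 ≤ n) (hr : S.card ≤ r) (y : S → ℝ) :
    ∃ x : Fin r → ℝ, ∀ i : S, ∑ j : Fin r, x j * ((i : ℕ) : ℝ) ^ (j.val + 1) = y i := by
  classical
  let v : ℕ → ℝ := fun n => n
  let t : ℕ → ℝ := fun n => if h : n ∈ S then y ⟨n, h⟩ / n else 0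
  have hv : Set.InjOn v S := fun a _ b _ h => Nat.cast_injective h
  refine ⟨fun j => (Lagrange.interpolate S v t).coeff j, fun i => ?_⟩
  have h1 : (Lagrange.interpolate S v t).eval (v i) = t i :=
    Lagrange.eval_interpolate_at_node t hv i.2
  have hpos : 0 < S.card := Finset.card_pos.2 ⟨i.1, i.2⟩
  have h2 : (Lagrange.interpolate S v t).natDegree < r := by
    have hd := Lagrange.degree_interpolate_lt t hv
    by_cases h0 : Lagrange.interpolate S v t = 0
    · rw [h0, Polynomial.natDegree_zero]
      omega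
    · rw [Polynomial.natDegree_lt_iff_degree_lt h0]
      exact lt_of_lt_of_le hd (by exact_mod_cast hr)
  have h3 := Polynomial.eval_eq_sum_range' h2 (v i)
  have hi0 : ((i : ℕ) : ℝ) ≠ 0 := by
    have := hS i.1 i.2
    positivity
  have h4 : t i = y i / ((i : ℕ) : ℝ) := by
    simp only [t]
    rw [dif_pos i.2]
  have h5 : ∑ j : Fin r, (Lagrange.interpolate S v t).coeff j * ((i : ℕ) : ℝ) ^ (j.val + 1) =
      ((i : ℕ) : ℝ) * ∑ j ∈ Finset.range r, (Lagrange.interpolate S v t).coeff j * (v i) ^ j := by
    rw [Finset.mul_sum, ← Fin.sum_univ_eq_sum_range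
      (fun j => ((i : ℕ) : ℝ) * ((Lagrange.interpolate S v t).coeff j * (v i) ^ j))]
    refine Finset.sum_congr rfl fun j _ => ?_
    simp only [v]
    ring
  rw [h5, ← h3, h1, h4]
  field_simp

/-- The homomorphism of tori. -/
noncomputable def hom (r : ℕ) (S : Finset ℕ) : (Fin r → UnitAddCircle) →+ (S → UnitAddCircle) where
  toFun θ i := ∑ j : Fin r, ((i : ℕ) ^ (j.val + 1)) • θ j
  map_zero' := by
    ext i
    simp
  map_add' a b := by
    ext i
    simp [Finset.sum_add_distrib]

theorem hom_continuous (r : ℕ) (S : Finset ℕ) : Continuous (hom r S) := by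
  refine continuous_pi fun i => ?_
  change Continuous fun θ : Fin r → UnitAddCircle =>
    ∑ j : Fin r, ((i : ℕ) ^ (j.val + 1)) • θ j
  exact continuous_finsetSum _ fun j _ => (continuous_apply j).nsmul _

theorem hom_mk (r : ℕ) (S : Finset ℕ) (x : Fin r → ℝ) (i : S) :
    hom r S (fun j => (x j : UnitAddCircle)) i =
      ((∑ j : Fin r, x j * ((i : ℕ) : ℝ) ^ (j.val + 1) : ℝ) : UnitAddCircle) := by
  have h : ((∑ j : Fin r, x j * ((i : ℕ) : ℝ) ^ (j.val + 1) : ℝ) : UnitAddCircle) =
      ∑ j : Fin r, ((x j * ((i : ℕ) : ℝ) ^ (j.val + 1) : ℝ) : UnitAddCircle) :=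
    map_sum (QuotientAddGroup.mk' (AddSubgroup.zmultiples (1 : ℝ))) _ _
  rw [h]
  change ∑ j : Fin r, ((i : ℕ) ^ (j.val + 1)) • ((x j : ℝ) : UnitAddCircle) = _
  refine Finset.sum_congr rfl fun j _ => ?_
  rw [← AddCircle.coe_nsmul, nsmul_eq_mul, mul_comm]
  push_cast
  rfl

theorem hom_surjective (r : ℕ) (S : Finset ℕ) (hS : ∀ n ∈ S, 1 ≤ n) (hr : S.card ≤ r) :
    Function.Surjective (hom r S) := by
  intro t
  choose y hy using fun i : S => QuotientAddGroup.mk_surjective (t i)
  obtain ⟨x, hx⟩ := solve r S hS hr y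
  refine ⟨fun j => (x j : UnitAddCircle), ?_⟩
  ext i
  rw [hom_mk, hx i]
  exact hy i

theorem hom_mp (r : ℕ) (S : Finset ℕ) (hS : ∀ n ∈ S, 1 ≤ n) (hr : S.card ≤ r) :
    MeasurePreserving (hom r S) (volume : Measure (Fin r → UnitAddCircle)) volume := by
  refine AddMonoidHom.measurePreserving (hom_continuous r S) (hom_surjective r S hS hr) ?_
  rw [volume_pi, volume_pi, Measure.pi_univ, Measure.pi_univ]
  simp [UnitAddCircle.measure_univ]

/-- The covering map. -/
theorem mk_mp : MeasurePreserving (fun x : ℝ => (x : UnitAddCircle))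
    ((volume : Measure ℝ).restrict (Set.Ico 0 1)) volume := by
  have h := UnitAddCircle.measurePreserving_mk 0
  rw [zero_add, ← restrict_Ico_eq_restrict_Ioc] at h
  exact h

theorem mk_pi_mp (r : ℕ) : MeasurePreserving (fun (x : Fin r → ℝ) j => (x j : UnitAddCircle))
    (volume.restrict (cube r)) volume := by
  have h := measurePreserving_pi (fun _ : Fin r => (volume : Measure ℝ).restrict (Set.Ico 0 1))
    (fun _ : Fin r => (volume : Measure UnitAddCircle)) (fun _ => mk_mp)
  have e : (volume : Measure (Fin r → ℝ)).restrict (cube r) =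
      Measure.pi (fun _ : Fin r => (volume : Measure ℝ).restrict (Set.Ico 0 1)) := by
    unfold cube
    rw [volume_pi, Measure.restrict_pi_pi]
  rw [e]
  exact h

/-- The chart. -/
noncomputable def chart (θ : UnitAddCircle) : ℝ := (AddCircle.equivIco 1 0 θ : ℝ)

theorem chart_measurable : Measurable chart :=
  measurable_subtype_coe.comp (AddCircle.measurableEquivIco 1 0).measurable

theorem chart_mk (x : ℝ) : chart (x : UnitAddCircle) = Int.fract x := by
  unfold chart
  rw [AddCircle.coe_equivIco_mk_apply]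
  simp

theorem chart_mp : MeasurePreserving chart (volume : Measure UnitAddCircle)
    ((volume : Measure ℝ).restrict (Set.Ico 0 1)) := by
  refine ⟨chart_measurable, ?_⟩
  rw [← mk_mp.map_eq, Measure.map_map chart_measurable mk_mp.measurable]
  have h : (chart ∘ fun x : ℝ => (x : UnitAddCircle)) =ᵐ[(volume : Measure ℝ).restrict (Set.Ico 0 1)]
      id := by
    filter_upwards [ae_restrict_mem measurableSet_Ico] with x hx
    rw [Function.comp_apply, chart_mk, id_eq]
    exact Int.fract_eq_self.2 hx
  rw [Measure.map_congr h, Measure.map_id]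

theorem chart_pi_mp (S : Finset ℕ) : MeasurePreserving (fun (t : S → UnitAddCircle) i => chart (t i))
    volume (Measure.pi (fun _ : S => (volume : Measure ℝ).restrict (Set.Ico 0 1))) :=
  measurePreserving_pi (fun _ : S => (volume : Measure UnitAddCircle))
    (fun _ : S => (volume : Measure ℝ).restrict (Set.Ico 0 1)) (fun _ => chart_mp)

end R1

open R1 in
/-- **`r`-wise independence of the fractional parts of a random polynomial.** -/
theorem t_R1 : S_R1 := by
  intro r S hS hr
  have h := ((chart_pi_mp S).comp (hom_mp r S hS hr)).comp (mk_pi_mp r)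
  have e : ((fun (t : S → UnitAddCircle) i => chart (t i)) ∘ (hom r S)) ∘
      (fun (x : Fin r → ℝ) j => (x j : UnitAddCircle)) =
      fun (x : Fin r → ℝ) (i : S) => frac x (i : ℕ) := by
    funext x i
    rw [Function.comp_apply, Function.comp_apply, hom_mk, chart_mk]
    rfl
  rw [← e, h.map_eq]
  congr 1
  funext i
  exact restrict_Ico_eq_restrict_Icc

end Pool.Agent.U160.VP
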