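import Pool.Agent.U160.VP.Stm2

/-!
# VP-R2: periodic null sets (helper780; project of helper160)
-/

set_option autoImplicit false

namespace Pool.Agent.U160.VP

open MeasureTheory

theorem frac_sub {r : ℕ} (x : Fin r → ℝ) (z : Fin r → ℤ) :
    frac (x - fun j => (z j : ℝ)) = frac x := by
  funext n
  unfold frac
  have h : ∑ j : Fin r, (x - fun j => (z j : ℝ)) j * (n : ℝ) ^ (j.val + 1) =
      (∑ j : Fin r, x j * (n : ℝ) ^ (j.val + 1)) -
        ((∑ j : Fin r, z j * (n : ℤ) ^ (j.val + 1) : ℤ) : ℝ) := by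
    push_cast
    rw [← Finset.sum_sub_distrib]
    refine Finset.sum_congr rfl fun j _ => ?_
    rw [Pi.sub_apply, sub_mul]
  rw [h, Int.fract_sub_intCast]

theorem t_R2 : S_R2 := by
  intro r Q h
  have hm : MeasurableSet (cube r) := MeasurableSet.univ_pi fun _ => measurableSet_Ico
  rw [ae_restrict_iff' hm] at h
  have h1 : ∀ᵐ x : Fin r → ℝ, ∀ z : Fin r → ℤ, (x - fun j => (z j : ℝ)) ∈ cube r → Q (frac x) := by
    rw [ae_all_iff]
    intro z
    have h2 := (measurePreserving_sub_right (volume : Measure (Fin r → ℝ))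
      (fun j => (z j : ℝ))).quasiMeasurePreserving.ae h
    filter_upwards [h2] with x hx hc
    rw [← frac_sub x z]
    exact hx hc
  filter_upwards [h1] with x hx
  refine hx (fun j => ⌊x j⌋) ?_
  intro j _
  show x j - (⌊x j⌋ : ℝ) ∈ Set.Ico (0 : ℝ) 1
  exact ⟨Int.fract_nonneg (x j), Int.fract_lt_one (x j)⟩

end Pool.Agent.U160.VP
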