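import Pool.Agent.U160.VP.GKind
import Pool.Agent.U160.VP.Final
import Pool.Agent.U160.VP.PkgR1
import Pool.Agent.U160.VP.PkgR2

set_option autoImplicit false

namespace Pool.Agent.U160.VP

open MeasureTheory ProbabilityTheory Finset Filter

theorem cube_prob (r : ℕ) : IsProbabilityMeasure (volume.restrict (cube r)) := by
  constructor
  rw [Measure.restrict_apply_univ]
  unfold cube
  rw [volume_pi_pi]
  simp

theorem frac_meas {r : ℕ} (n : ℕ) : Measurable (fun x : Fin r → ℝ => frac x n) := by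
  unfold frac
  have h1 : Measurable (fun x : Fin r → ℝ => ∑ j : Fin r, x j * (n : ℝ) ^ (j.val + 1)) := by fun_prop
  exact measurable_fract.comp h1

theorem law_one : law (fun _ => 1) = (volume : Measure ℝ).restrict (Set.Icc 0 1) := by
  unfold law
  simp

theorem frac_kind (r q : ℕ) (hq : q ≤ r) : KInd q (volume.restrict (cube r)) (fun n x => frac x n) (law (fun _ => 1)) := by
  intro S hS hc
  rw [law_one]
  exact t_R1 r S hS (hc.trans hq)

/-- the conclusion for one sequence and one `s` -/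
def Concl (θ : ℕ → ℝ) (s : ℕ) : Prop := ∀ k : ℕ, 1 ≤ k →
  (∃ c₁ C₁ : ℝ, 0 < c₁ ∧ 0 < C₁ ∧ ∀ N : ℕ, 1 ≤ N →
    c₁ * ((N : ℝ) ^ (s : ℝ) + (N : ℝ) ^ (2 * (s : ℝ) - (k : ℝ) * ((k : ℝ) + 1) / 2)) ≤ (J θ s k N : ℝ) ∧
    (J θ s k N : ℝ) ≤ C₁ * ((N : ℝ) ^ (s : ℝ) + (N : ℝ) ^ (2 * (s : ℝ) - (k : ℝ) * ((k : ℝ) + 1) / 2))) ∧
  (2 * s < k * (k + 1) → ∃ C₂ : ℝ, ∀ N : ℕ, 1 ≤ N →
    (ND θ s k N : ℝ) ≤ C₂ * (N : ℝ) ^ ((s : ℝ) - 1 / (4 * k + 2)))

/-- `J` depends only on the values at `n ≥ 1` -/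
theorem J_congr {θ θ' : ℕ → ℝ} (h : ∀ n, 1 ≤ n → θ n = θ' n) (s k N : ℕ) : J θ s k N = J θ' s k N := by
  classical
  unfold J
  congr 1
  apply filter_congr
  intro p hp
  simp only [pairs, mem_product, Fintype.mem_piFinset, mem_Icc] at hp
  have h1 : ∀ j, dif θ p j = dif θ' p j := by
    intro j
    unfold dif
    congr 1
    · exact sum_congr rfl fun i _ => by rw [h _ (hp.1 i).1]
    · exact sum_congr rfl fun i _ => by rw [h _ (hp.2 i).1]
  simp only [h1]

theorem main_kind {ρ : ℝ → ℝ} {c : ℤ → ℂ} (hρ : Dens ρ c) (s : ℕ) (hs : 1 ≤ s) (Ω : Type) [MeasurableSpace Ω]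
    (P : Measure Ω) [IsProbabilityMeasure P] (X : ℕ → Ω → ℝ)
    (hX : ∀ n, Measurable (X n)) (hind : KInd (4 * s) P X (law ρ)) :
    ∀ᵐ ω ∂P, Concl (fun n => X n ω) s := by
  -- the values lie in the unit interval for `n ≥ 1`
  have hu : ∀ᵐ ω ∂P, ∀ n, 1 ≤ n → 0 ≤ X n ω ∧ X n ω ≤ 1 := by
    rw [ae_all_iff]
    intro n
    by_cases hn : 1 ≤ n
    · have hl : P.map (X n) = law ρ := by
        have h1 := hind {n} (by simpa using hn) (by simp; omega)
        have h2 : X n = (fun y : (({n} : Finset ℕ) : Type) → ℝ => y ⟨n, by simp⟩) ∘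
            (fun ω (i : (({n} : Finset ℕ) : Type)) => X i ω) := by ext ω; rfl
        haveI := law_prob hρ
        rw [h2, ← Measure.map_map (measurable_pi_apply _) (measurable_pi_iff.2 fun i => hX _), h1]
        exact (measurePreserving_eval (fun _ : (({n} : Finset ℕ) : Type) => law ρ) ⟨n, by simp⟩).map_eq
      have h1 : ∀ᵐ x ∂(law ρ), x ∈ Set.Icc (0 : ℝ) 1 := by
        unfold law
        exact (withDensity_absolutelyContinuous _ _).ae_le (ae_restrict_mem measurableSet_Icc)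
      rw [← hl] at h1
      filter_upwards [ae_of_ae_map (hX n).aemeasurable h1] with ω h _ using h
    · exact Eventually.of_forall fun ω h => absurd h hn
  have h1 : ∀ᵐ ω ∂P, ∀ k : ℕ, 1 ≤ k → ∃ C' : ℝ, 0 < C' ∧ ∀ N : ℕ, 1 ≤ N →
      (J (fun n => X n ω) s k N : ℝ) ≤ C' * BB (2 * s) k N := by
    rw [ae_all_iff]; intro k
    by_cases hk : 1 ≤ k
    · filter_upwards [upper_kind t_C a_D t_F1 t_F3 hρ s k hs hk Ω P X hX hind] with ω h _ using h
    · exact Eventually.of_forall fun ω h => absurd h hk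
  have h2 : ∀ᵐ ω ∂P, ∀ k : ℕ, 1 ≤ k → 2 * s < k * (k + 1) → ∃ C' : ℝ, 0 < C' ∧ ∀ N : ℕ, 1 ≤ N →
      (ND (fun n => X n ω) s k N : ℝ) ≤ C' * (N : ℝ) ^ ((s : ℝ) - 1 / (4 * k + 2)) := by
    rw [ae_all_iff]; intro k
    by_cases hk : 1 ≤ k
    · by_cases hsk : 2 * s < k * (k + 1)
      · filter_upwards [paucity_kind a_P1 t_P2 hρ s k hs hk hsk Ω P X hX hind] with ω h _ _ using h
      · exact Eventually.of_forall fun ω _ h => absurd h hsk
    · exact Eventually.of_forall fun ω h => absurd h hk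
  filter_upwards [hu, h1, h2] with ω hω1 hω2 hω3 k hk
  refine ⟨?_, fun hsk => ?_⟩
  · obtain ⟨c₁, hc₁, h3⟩ := t_H s k hs hk
    obtain ⟨C₁, hC₁, h4⟩ := hω2 k hk
    refine ⟨c₁, C₁, hc₁, hC₁, fun N hN => ⟨?_, ?_⟩⟩
    · have h5 := h3 (fun n => if 1 ≤ n then X n ω else 0) ?_ N hN
      · rw [J_congr (θ := fun n => X n ω) (θ' := fun n => if 1 ≤ n then X n ω else 0)
          (fun n hn => by simp [hn]) s k N]
        exact h5
      · intro n
        by_cases hn : 1 ≤ n
        · simp only [hn, if_true]; exact hω1 n hn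
        · simp [hn]
    · refine (h4 N hN).trans (le_of_eq ?_)
      unfold BB
      push_cast
      congr 3
      ring
  · obtain ⟨C₂, _, h3⟩ := hω3 k hk hsk
    exact ⟨C₂, h3⟩

theorem dens_one : Dens (fun _ => 1) (fun h => if h = 0 then 1 else 0) := by
  refine ⟨measurable_const, fun _ => zero_le_one, by simp, ?_, ?_⟩
  · apply summable_of_ne_finset_zero (s := {0})
    intro b hb
    simp only [mem_singleton] at hb
    simp [hb]
  · intro u _
    rw [tsum_eq_single 0]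
    · simp [ee]
    · intro b hb
      simp [hb]

/-- almost every polynomial -/
theorem main_poly (r : ℕ) : ∀ᵐ x : Fin r → ℝ, ∀ s : ℕ, 1 ≤ s → 4 * s ≤ r → Concl (frac x) s := by
  rw [ae_all_iff]
  intro s
  by_cases hs : 1 ≤ s
  · by_cases hr : 4 * s ≤ r
    · have h1 := t_R2 r (fun θ => Concl θ s) (by
        haveI := cube_prob r
        exact main_kind dens_one s hs (Fin r → ℝ) (volume.restrict (cube r)) (fun n x => frac x n)
          (fun n => frac_meas n) (frac_kind r (4 * s) hr))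
      filter_upwards [h1] with x hx _ _ using hx
    · exact Eventually.of_forall fun x _ h => absurd h hr
  · exact Eventually.of_forall fun x h => absurd h hs

end Pool.Agent.U160.VP
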