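import Pool.Agent.U160.VP.GTail

set_option autoImplicit false

namespace Pool.Agent.U160.VP

open MeasureTheory ProbabilityTheory Finset Filter

/-- Borel–Cantelli along the powers of two for a monotone family -/
theorem bc {Ω : Type} [MeasurableSpace Ω] (P : Measure Ω) [IsProbabilityMeasure P] (f : ℕ → Ω → ℝ)
    (hmono : ∀ ω N M, N ≤ M → f N ω ≤ f M ω) (B : ℕ → ℝ) (hB1 : ∀ N, 1 ≤ N → 1 ≤ B N) (K0 : ℝ) (hK0 : 0 ≤ K0)
    (hBK : ∀ N M, 1 ≤ N → N ≤ M → M ≤ 2 * N → B M ≤ K0 * B N) (C η : ℝ) (hC : 0 < C) (hη : 0 < η)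
    (h : ∀ N : ℕ, 1 ≤ N → P.real {ω | C * B N ≤ f N ω} ≤ C * (N : ℝ) ^ (-η)) :
    ∀ᵐ ω ∂P, ∃ C' : ℝ, 0 < C' ∧ ∀ N : ℕ, 1 ≤ N → f N ω ≤ C' * B N := by
  set s : ℕ → Set Ω := fun i => {ω | C * B (2 ^ i) ≤ f (2 ^ i) ω} with hs
  have hr : (2 : ℝ) ^ (-η) < 1 := by
    apply Real.rpow_lt_one_of_one_lt_of_neg (by norm_num) (by linarith)
  have hr0 : 0 < (2 : ℝ) ^ (-η) := by positivity
  have hsum : Summable (fun i : ℕ => C * ((2 : ℝ) ^ (-η)) ^ i) :=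
    (summable_geometric_of_lt_one hr0.le hr).mul_left C
  have hle : ∀ i, P (s i) ≤ ENNReal.ofReal (C * ((2 : ℝ) ^ (-η)) ^ i) := by
    intro i
    have h1 := h (2 ^ i) (Nat.one_le_two_pow)
    have h2 : P (s i) = ENNReal.ofReal (P.real (s i)) := by
      rw [ofReal_measureReal]
    rw [h2]
    apply ENNReal.ofReal_le_ofReal
    refine h1.trans (le_of_eq ?_)
    congr 1
    push_cast
    rw [← Real.rpow_natCast, ← Real.rpow_natCast, ← Real.rpow_mul (by norm_num), ← Real.rpow_mul (by norm_num)]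
    congr 1; ring
  have hne : ∑' i, P (s i) ≠ ⊤ := by
    refine ne_top_of_le_ne_top ?_ (ENNReal.tsum_le_tsum hle)
    exact hsum.tsum_ofReal_ne_top
  filter_upwards [ae_eventually_notMem hne] with ω hω
  obtain ⟨i0, hi0⟩ := eventually_atTop.1 hω
  refine ⟨C * K0 + |f (2 ^ i0) ω| + 1, by positivity, ?_⟩
  intro N hN
  have hBN := hB1 N hN
  by_cases hc : N ≤ 2 ^ i0
  · have h1 : f N ω ≤ |f (2 ^ i0) ω| := (hmono ω _ _ hc).trans (le_abs_self _)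
    have h2 : |f (2 ^ i0) ω| ≤ |f (2 ^ i0) ω| * B N := le_mul_of_one_le_right (abs_nonneg _) hBN
    have h3 : 0 ≤ C * K0 * B N := by positivity
    nlinarith
  · push Not at hc
    have h1 : N ≤ 2 ^ Nat.clog 2 N := Nat.le_pow_clog (by norm_num) N
    have hN2 : 2 ≤ N := by
      have := Nat.one_le_two_pow (n := i0)
      omega
    have h2 : 2 ^ (Nat.clog 2 N).pred < N := Nat.pow_pred_clog_lt_self (by norm_num) hN2
    have h3 : 0 < Nat.clog 2 N := Nat.clog_pos (by norm_num) hN2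
    have h4 : 2 ^ Nat.clog 2 N ≤ 2 * N := by
      have h5 : 2 ^ Nat.clog 2 N = 2 * 2 ^ (Nat.clog 2 N).pred := by
        rw [← pow_succ']
        congr 1
        exact (Nat.succ_pred_eq_of_pos h3).symm
      rw [h5]; omega
    have h6 : i0 ≤ Nat.clog 2 N := by
      by_contra hcon
      push Not at hcon
      have := Nat.pow_le_pow_right (show 0 < 2 by norm_num) hcon.le
      omega
    have h7 := hi0 _ h6
    simp only [hs, Set.mem_ofPred_eq, not_le] at h7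
    have h8 := hBK N (2 ^ Nat.clog 2 N) hN h1 h4
    have h9 := hmono ω _ _ h1
    have h10 : C * B (2 ^ Nat.clog 2 N) ≤ C * (K0 * B N) := mul_le_mul_of_nonneg_left h8 hC.le
    have h11 : 0 ≤ |f (2 ^ i0) ω| * B N := by positivity
    nlinarith

theorem rpow_step (e : ℝ) (E : ℝ) (hE : 0 ≤ E) (he : e ≤ E) {N M : ℕ} (hN : 1 ≤ N) (h1 : N ≤ M) (h2 : M ≤ 2 * N) :
    (M : ℝ) ^ e ≤ 2 ^ E * (N : ℝ) ^ e := by
  have hN0 : (0 : ℝ) < N := by exact_mod_cast hN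
  have hM0 : (0 : ℝ) < M := by exact_mod_cast (lt_of_lt_of_le hN h1)
  have h1' : (N : ℝ) ≤ M := by exact_mod_cast h1
  have h2' : (M : ℝ) ≤ 2 * N := by exact_mod_cast h2
  have h3 : (M : ℝ) ^ e = ((M : ℝ) / N) ^ e * (N : ℝ) ^ e := by
    rw [← Real.mul_rpow (by positivity) (by positivity)]
    congr 1; field_simp
  rw [h3]
  apply mul_le_mul_of_nonneg_right _ (by positivity)
  have h4 : 1 ≤ (M : ℝ) / N := by rw [le_div_iff₀ hN0]; linarith
  have h5 : (M : ℝ) / N ≤ 2 := by rw [div_le_iff₀ hN0]; linarith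
  calc ((M : ℝ) / N) ^ e ≤ ((M : ℝ) / N) ^ E := Real.rpow_le_rpow_of_exponent_le h4 he
    _ ≤ 2 ^ E := Real.rpow_le_rpow (by positivity) h5 hE

theorem BB_ge_one (s k N : ℕ) (hN : 1 ≤ N) : 1 ≤ BB (2 * s) k N := by
  have h1 : (1 : ℝ) ≤ N := by exact_mod_cast hN
  have hN0 : (0 : ℝ) < N := by exact_mod_cast hN
  unfold BB
  have h2 : 1 ≤ (N : ℝ) ^ (((2 * s : ℕ) : ℝ) / 2) := Real.one_le_rpow h1 (by positivity)
  have h3 : 0 < (N : ℝ) ^ (((2 * s : ℕ) : ℝ) - (k : ℝ) * ((k : ℝ) + 1) / 2) := by positivity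
  linarith

theorem BB_double (s k : ℕ) {N M : ℕ} (hN : 1 ≤ N) (h1 : N ≤ M) (h2 : M ≤ 2 * N) :
    BB (2 * s) k M ≤ 2 ^ (2 * s : ℝ) * BB (2 * s) k N := by
  unfold BB
  rw [mul_add ((2 : ℝ) ^ (2 * s : ℝ))]
  apply add_le_add
  · apply rpow_step _ _ (by positivity) _ hN h1 h2
    push_cast
    have : (0 : ℝ) ≤ s := by positivity
    linarith
  · apply rpow_step _ _ (by positivity) _ hN h1 h2
    push_cast
    have : (0 : ℝ) ≤ (k : ℝ) * ((k : ℝ) + 1) / 2 := by positivity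
    linarith

/-- the upper bound for the number of solutions -/
theorem upper (hC : S_C) (hD : S_D) (hF1 : S_F1) (hF3 : S_F3) {ρ : ℝ → ℝ} {c : ℤ → ℂ} (hρ : Dens ρ c) (s k : ℕ)
    (hs : 1 ≤ s) (hk : 1 ≤ k) (Ω : Type) [MeasurableSpace Ω] (P : Measure Ω)
    [IsProbabilityMeasure P] (X : ℕ → Ω → ℝ)
    (hX : ∀ n, Measurable (X n)) (hind : iIndepFun X P) (hlaw : ∀ n, P.map (X n) = law ρ) :
    ∀ᵐ ω ∂P, ∃ C' : ℝ, 0 < C' ∧ ∀ N : ℕ, 1 ≤ N → (J (fun n => X n ω) s k N : ℝ) ≤ C' * BB (2 * s) k N := by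
  obtain ⟨C, hC0, h⟩ := tail_J hC hD hF1 hF3 hρ s k hs hk
  exact bc P (fun N ω => (J (fun n => X n ω) s k N : ℝ)) (fun ω N M hNM => by exact_mod_cast J_mono _ _ _ hNM)
    (fun N => BB (2 * s) k N) (fun N hN => BB_ge_one s k N hN) (2 ^ (2 * s : ℝ)) (by positivity)
    (fun N M hN h1 h2 => BB_double s k hN h1 h2) C (1 / 2) hC0 (by norm_num)
    (fun N hN => h Ω P X hX hind hlaw N hN)

end Pool.Agent.U160.VP
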