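import Pool.Agent.U160.VP.Stm

set_option autoImplicit false

namespace Pool.Agent.U160.VP

open MeasureTheory ProbabilityTheory Finset

theorem norm_ee (x : ℝ) : ‖ee x‖ = 1 := by
  unfold ee
  have h : 2 * (Real.pi : ℂ) * Complex.I * (x : ℂ) = ((2 * Real.pi * x : ℝ) : ℂ) * Complex.I := by
    push_cast; ring
  rw [h, Complex.norm_exp_ofReal_mul_I]

theorem ee_add (x y : ℝ) : ee (x + y) = ee x * ee y := by
  unfold ee
  rw [← Complex.exp_add]
  congr 1
  push_cast; ring

theorem ee_zero : ee 0 = 1 := by unfold ee; simp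

theorem ee_neg (x : ℝ) : ee (-x) = (starRingEnd ℂ) (ee x) := by
  unfold ee
  rw [← Complex.exp_conj]
  congr 1
  have h2 : (starRingEnd ℂ) (2 : ℂ) = 2 := map_ofNat _ 2
  rw [map_mul, map_mul, map_mul, h2, Complex.conj_I, Complex.conj_ofReal, Complex.conj_ofReal]
  push_cast; ring

theorem ee_sum {ι : Type*} (s : Finset ι) (f : ι → ℝ) : ee (∑ i ∈ s, f i) = ∏ i ∈ s, ee (f i) := by
  classical
  induction s using Finset.induction_on with
  | empty => simp [ee_zero]
  | insert a s ha ih => rw [sum_insert ha, prod_insert ha, ee_add, ih]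

theorem continuous_ee : Continuous ee := by
  unfold ee
  fun_prop

theorem continuous_ph (k : ℕ) : Continuous fun q : (Fin k → ℝ) × ℝ => ph q.1 q.2 := by
  unfold ph
  fun_prop

/-- the exponential sum -/
noncomputable def SS {k : ℕ} (θ : ℕ → ℝ) (N : ℕ) (γ : Fin k → ℝ) : ℂ :=
  ∑ n ∈ Finset.Icc 1 N, ee (ph γ ((n : ℝ) + θ n))

theorem continuous_SS {k : ℕ} (θ : ℕ → ℝ) (N : ℕ) : Continuous (fun γ : Fin k → ℝ => SS θ N γ) := by
  unfold SS
  refine continuous_finsetSum _ fun n _ => ?_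
  have h1 : Continuous (fun γ : Fin k → ℝ => (γ, (n : ℝ) + θ n)) := by fun_prop
  exact continuous_ee.comp ((continuous_ph k).comp h1)

theorem ker_bounds {k : ℕ} {γ : Fin k → ℝ} (h : γ ∈ box k 0 (1 / 8)) : 0 ≤ ker γ ∧ ker γ ≤ 1 := by
  have h1 : ∀ j, |γ j| ≤ 1 / 8 := by
    intro j
    have h2 := h.1 j
    have h3 := h.2 j
    simp only [Pi.zero_apply] at h2 h3
    rw [abs_le]; constructor <;> linarith
  unfold ker
  constructor
  · exact prod_nonneg fun j _ => by linarith [h1 j]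
  · apply prod_le_one
    · intro j _; linarith [h1 j]
    · intro j _; linarith [abs_nonneg (γ j)]

theorem continuous_ker {k : ℕ} : Continuous (fun γ : Fin k → ℝ => ker γ) := by
  unfold ker
  fun_prop

theorem box_compact (k : ℕ) (v : Fin k → ℝ) (r : ℝ) : IsCompact (box k v r) := by
  unfold box
  exact isCompact_Icc

theorem box_meas (k : ℕ) (v : Fin k → ℝ) (r : ℝ) : MeasurableSet (box k v r) := by
  unfold box
  exact measurableSet_Icc

/-- the phase of a sum of tuples -/
theorem lin_dif {k s : ℕ} (θ : ℕ → ℝ) (γ : Fin k → ℝ) (p : (Fin s → ℕ) × (Fin s → ℕ)) :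
    ∑ j : Fin k, γ j * dif θ p j = ∑ i, ph γ ((p.1 i : ℝ) + θ (p.1 i)) - ∑ i, ph γ ((p.2 i : ℝ) + θ (p.2 i)) := by
  unfold dif ph
  simp_rw [mul_sub, sum_sub_distrib, mul_sum]
  rw [sum_comm]
  congr 1
  rw [sum_comm]

theorem ee_lin_dif {k s : ℕ} (θ : ℕ → ℝ) (γ : Fin k → ℝ) (p : (Fin s → ℕ) × (Fin s → ℕ)) :
    ee (∑ j : Fin k, γ j * dif θ p j) =
      (∏ i, ee (ph γ ((p.1 i : ℝ) + θ (p.1 i)))) * ∏ i, (starRingEnd ℂ) (ee (ph γ ((p.2 i : ℝ) + θ (p.2 i)))) := by
  rw [lin_dif, sub_eq_add_neg, ee_add, ee_sum, ee_neg, ee_sum, map_prod]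

/-- counting by the kernel -/
theorem count_le {k : ℕ} {c : ℝ} (hC : ∀ u : Fin k → ℝ, 0 ≤ (kerhat u).re ∧ (kerhat u).im = 0 ∧
    ((∀ j, |u j| < 1) → c ≤ (kerhat u).re)) {ι : Type*} (F G : Finset ι) (hG : G ⊆ F) (u : ι → Fin k → ℝ)
    (h1 : ∀ i ∈ G, ∀ j, |u i j| < 1) :
    c * (G.card : ℝ) ≤ ∫ γ in box k 0 (1 / 8), ‖∑ i ∈ F, ee (∑ j, γ j * u i j)‖ := by
  have hint : ∀ i, IntegrableOn (fun γ : Fin k → ℝ => (ker γ : ℂ) * ee (∑ j : Fin k, γ j * u i j))
      (box k 0 (1 / 8)) := by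
    intro i
    apply ContinuousOn.integrableOn_compact (box_compact k _ _)
    apply Continuous.continuousOn
    refine (Complex.continuous_ofReal.comp continuous_ker).mul (continuous_ee.comp ?_)
    fun_prop
  have h2 : ∑ i ∈ F, kerhat (u i) = ∫ γ in box k 0 (1 / 8), (ker γ : ℂ) * ∑ i ∈ F, ee (∑ j : Fin k, γ j * u i j) := by
    unfold kerhat
    rw [← integral_finsetSum _ (fun i _ => hint i)]
    congr 1
    ext γ
    rw [mul_sum]
  have h3 : c * (G.card : ℝ) ≤ ∑ i ∈ F, (kerhat (u i)).re := by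
    calc c * (G.card : ℝ) = ∑ i ∈ G, c := by rw [sum_const, nsmul_eq_mul]; ring
      _ ≤ ∑ i ∈ G, (kerhat (u i)).re := sum_le_sum fun i hi => (hC (u i)).2.2 (h1 i hi)
      _ ≤ ∑ i ∈ F, (kerhat (u i)).re := sum_le_sum_of_subset_of_nonneg hG fun i _ _ => (hC (u i)).1
  have h4 : ∑ i ∈ F, (kerhat (u i)).re ≤ ‖∑ i ∈ F, kerhat (u i)‖ := by
    rw [← Complex.re_sum]
    exact (Complex.abs_re_le_norm _).trans' (le_abs_self _)
  refine h3.trans (h4.trans ?_)
  rw [h2]
  refine (norm_integral_le_integral_norm _).trans ?_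
  have hc : Continuous (fun γ : Fin k → ℝ => ∑ i ∈ F, ee (∑ j : Fin k, γ j * u i j)) := by
    refine continuous_finsetSum _ fun i _ => continuous_ee.comp ?_
    fun_prop
  apply setIntegral_mono_on
  · exact ((Continuous.continuousOn (((Complex.continuous_ofReal.comp continuous_ker).mul hc).norm)).integrableOn_compact
      (box_compact k _ _))
  · exact (Continuous.continuousOn hc.norm).integrableOn_compact (box_compact k _ _)
  · exact box_meas _ _ _
  · intro γ hγ
    rw [norm_mul, Complex.norm_real, Real.norm_eq_abs, abs_of_nonneg (ker_bounds hγ).1]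
    calc ker γ * _ ≤ 1 * _ := mul_le_mul_of_nonneg_right (ker_bounds hγ).2 (norm_nonneg _)
      _ = _ := one_mul _

/-- the sum over a box of tuples -/
theorem norm_sum_pi {k s : ℕ} (θ : ℕ → ℝ) (γ : Fin k → ℝ) (t₁ t₂ : Fin s → Finset ℕ) :
    ‖∑ p ∈ Fintype.piFinset t₁ ×ˢ Fintype.piFinset t₂, ee (∑ j : Fin k, γ j * dif θ p j)‖ =
      (∏ i, ‖∑ n ∈ t₁ i, ee (ph γ ((n : ℝ) + θ n))‖) * ∏ i, ‖∑ n ∈ t₂ i, ee (ph γ ((n : ℝ) + θ n))‖ := by
  simp_rw [ee_lin_dif]
  rw [sum_product]
  simp_rw [← mul_sum]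
  rw [← sum_mul, norm_mul, ← prod_univ_sum t₁ (fun _ n => ee (ph γ ((n : ℝ) + θ n))),
    ← prod_univ_sum t₂ (fun _ n => (starRingEnd ℂ) (ee (ph γ ((n : ℝ) + θ n)))), norm_prod, norm_prod]
  congr 1
  refine prod_congr rfl fun i _ => ?_
  rw [← map_sum, RCLike.norm_conj]

theorem norm_sum_pairs {k s N : ℕ} (θ : ℕ → ℝ) (γ : Fin k → ℝ) :
    ‖∑ p ∈ pairs s N, ee (∑ j : Fin k, γ j * dif θ p j)‖ = ‖SS θ N γ‖ ^ (2 * s) := by
  unfold pairs
  rw [norm_sum_pi]
  unfold SS
  rw [prod_const, card_univ, Fintype.card_fin, ← pow_add]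
  congr 1; omega

/-- the numbers which occur in a pair of tuples -/
def supp {s : ℕ} (p : (Fin s → ℕ) × (Fin s → ℕ)) : Finset ℕ := univ.image p.1 ∪ univ.image p.2

open scoped Classical in
theorem J_le {k s N : ℕ} {c : ℝ} (hC : ∀ u : Fin k → ℝ, 0 ≤ (kerhat u).re ∧ (kerhat u).im = 0 ∧
    ((∀ j, |u j| < 1) → c ≤ (kerhat u).re)) (θ : ℕ → ℝ) :
    c * (J θ s k N : ℝ) ≤ ∫ γ : Fin k → ℝ in box k 0 (1 / 8), ‖SS θ N γ‖ ^ (2 * s) := by
  have h := count_le hC (pairs s N) ((pairs s N).filter fun p => ∀ j : Fin k, |dif θ p j| < 1)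
    (filter_subset _ _) (fun p j => dif θ p j) (fun p hp => (mem_filter.1 hp).2)
  refine h.trans (le_of_eq ?_)
  congr 1
  ext γ
  exact norm_sum_pairs θ γ

open scoped Classical in
theorem R_le {k s N : ℕ} {c : ℝ} (hc : 0 < c) (hC : ∀ u : Fin k → ℝ, 0 ≤ (kerhat u).re ∧ (kerhat u).im = 0 ∧
    ((∀ j, |u j| < 1) → c ≤ (kerhat u).re)) (θ : ℕ → ℝ) (m : ℕ) :
    c * (((pairs s N).filter fun p => (∀ j : Fin k, |dif θ p j| < 1) ∧ m ∈ supp p).card : ℝ) ≤
      2 * s * ∫ γ : Fin k → ℝ in box k 0 (1 / 8), ‖SS θ N γ‖ ^ (2 * s - 1) := by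
  set A : Fin s → Finset ((Fin s → ℕ) × (Fin s → ℕ)) := fun i =>
    (pairs s N).filter fun p => (∀ j : Fin k, |dif θ p j| < 1) ∧ p.1 i = m with hA
  set B : Fin s → Finset ((Fin s → ℕ) × (Fin s → ℕ)) := fun i =>
    (pairs s N).filter fun p => (∀ j : Fin k, |dif θ p j| < 1) ∧ p.2 i = m with hB
  have hsub : ((pairs s N).filter fun p => (∀ j : Fin k, |dif θ p j| < 1) ∧ m ∈ supp p) ⊆
      univ.biUnion A ∪ univ.biUnion B := by
    intro p hp
    simp only [mem_filter, supp, mem_union, mem_image, mem_univ, true_and] at hp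
    simp only [mem_union, mem_biUnion, mem_univ, true_and, hA, hB, mem_filter]
    rcases hp with ⟨hp1, hp2, ⟨i, hi⟩ | ⟨i, hi⟩⟩
    · exact Or.inl ⟨i, hp1, hp2, hi⟩
    · exact Or.inr ⟨i, hp1, hp2, hi⟩
  have hcard : (((pairs s N).filter fun p => (∀ j : Fin k, |dif θ p j| < 1) ∧ m ∈ supp p).card : ℝ) ≤
      ∑ i, ((A i).card : ℝ) + ∑ i, ((B i).card : ℝ) := by
    have h1 := (card_le_card hsub).trans ((card_union_le _ _).trans (add_le_add card_biUnion_le card_biUnion_le))
    exact_mod_cast h1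
  have key : ∀ i : Fin s, c * ((A i).card : ℝ) ≤ ∫ γ : Fin k → ℝ in box k 0 (1 / 8), ‖SS θ N γ‖ ^ (2 * s - 1) := by
    intro i
    have hs : 1 ≤ s := i.pos
    by_cases hm : m ∈ Finset.Icc 1 N
    · have h := count_le hC (Fintype.piFinset (Function.update (fun _ : Fin s => Finset.Icc 1 N) i {m}) ×ˢ
        Fintype.piFinset (fun _ : Fin s => Finset.Icc 1 N)) (A i) ?_ (fun p j => dif θ p j) ?_
      · refine h.trans (le_of_eq ?_)
        congr 1
        ext γ
        rw [norm_sum_pi, ← mul_prod_erase univ _ (mem_univ i)]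
        have h2 : ∏ x ∈ univ.erase i, ‖∑ n ∈ Function.update (fun _ : Fin s => Finset.Icc 1 N) i {m} x,
            ee (ph γ ((n : ℝ) + θ n))‖ = ‖SS θ N γ‖ ^ (s - 1) := by
          rw [prod_congr rfl (g := fun _ => ‖SS θ N γ‖), prod_const, card_erase_of_mem (mem_univ i), card_univ,
            Fintype.card_fin]
          intro x hx
          rw [Function.update_of_ne (ne_of_mem_erase hx)]
          rfl
        rw [h2, Function.update_self, sum_singleton, norm_ee, one_mul]
        have h3 : ∏ i : Fin s, ‖∑ n ∈ Finset.Icc 1 N, ee (ph γ ((n : ℝ) + θ n))‖ = ‖SS θ N γ‖ ^ s := by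
          rw [prod_const, card_univ, Fintype.card_fin]; rfl
        rw [h3, ← pow_add]
        congr 1; omega
      · intro p hp
        simp only [hA, mem_filter, pairs, mem_product, Fintype.mem_piFinset] at hp
        simp only [mem_product, Fintype.mem_piFinset]
        refine ⟨fun x => ?_, hp.1.2⟩
        by_cases hx : x = i
        · subst hx; rw [Function.update_self, mem_singleton]; exact hp.2.2
        · rw [Function.update_of_ne hx]; exact hp.1.1 x
      · intro p hp
        exact (mem_filter.1 hp).2.1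
    · have h0 : A i = ∅ := by
        apply filter_eq_empty_iff.2
        intro p hp hp2
        apply hm
        simp only [pairs, mem_product, Fintype.mem_piFinset] at hp
        rw [← hp2.2]; exact hp.1 i
      rw [h0]
      simp only [card_empty, Nat.cast_zero, mul_zero]
      exact integral_nonneg fun γ => by positivity
  have key2 : ∀ i : Fin s, c * ((B i).card : ℝ) ≤ ∫ γ : Fin k → ℝ in box k 0 (1 / 8), ‖SS θ N γ‖ ^ (2 * s - 1) := by
    intro i
    have hs : 1 ≤ s := i.pos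
    by_cases hm : m ∈ Finset.Icc 1 N
    · have h := count_le hC (Fintype.piFinset (fun _ : Fin s => Finset.Icc 1 N) ×ˢ
        Fintype.piFinset (Function.update (fun _ : Fin s => Finset.Icc 1 N) i {m})) (B i) ?_
          (fun p j => dif θ p j) ?_
      · refine h.trans (le_of_eq ?_)
        congr 1
        ext γ
        rw [norm_sum_pi, ← mul_prod_erase univ (fun i_1 => ‖∑ n ∈ Function.update (fun _ : Fin s => Finset.Icc 1 N) i {m} i_1,
            ee (ph γ ((n : ℝ) + θ n))‖) (mem_univ i)]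
        have h2 : ∏ x ∈ univ.erase i, ‖∑ n ∈ Function.update (fun _ : Fin s => Finset.Icc 1 N) i {m} x,
            ee (ph γ ((n : ℝ) + θ n))‖ = ‖SS θ N γ‖ ^ (s - 1) := by
          rw [prod_congr rfl (g := fun _ => ‖SS θ N γ‖), prod_const, card_erase_of_mem (mem_univ i), card_univ,
            Fintype.card_fin]
          intro x hx
          rw [Function.update_of_ne (ne_of_mem_erase hx)]
          rfl
        rw [h2, Function.update_self, sum_singleton, norm_ee, one_mul]
        have h3 : ∏ i : Fin s, ‖∑ n ∈ Finset.Icc 1 N, ee (ph γ ((n : ℝ) + θ n))‖ = ‖SS θ N γ‖ ^ s := by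
          rw [prod_const, card_univ, Fintype.card_fin]; rfl
        rw [h3, ← pow_add]
        congr 1; omega
      · intro p hp
        simp only [hB, mem_filter, pairs, mem_product, Fintype.mem_piFinset] at hp
        simp only [mem_product, Fintype.mem_piFinset]
        refine ⟨hp.1.1, fun x => ?_⟩
        by_cases hx : x = i
        · subst hx; rw [Function.update_self, mem_singleton]; exact hp.2.2
        · rw [Function.update_of_ne hx]; exact hp.1.2 x
      · intro p hp
        exact (mem_filter.1 hp).2.1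
    · have h0 : B i = ∅ := by
        apply filter_eq_empty_iff.2
        intro p hp hp2
        apply hm
        simp only [pairs, mem_product, Fintype.mem_piFinset] at hp
        rw [← hp2.2]; exact hp.2 i
      rw [h0]
      simp only [card_empty, Nat.cast_zero, mul_zero]
      exact integral_nonneg fun γ => by positivity
  calc c * _ ≤ c * (∑ i, ((A i).card : ℝ) + ∑ i, ((B i).card : ℝ)) := mul_le_mul_of_nonneg_left hcard hc.le
    _ = ∑ i, (c * ((A i).card : ℝ) + c * ((B i).card : ℝ)) := by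
        rw [sum_add_distrib, ← mul_sum, ← mul_sum]; ring
    _ ≤ ∑ i : Fin s, ((∫ γ : Fin k → ℝ in box k 0 (1 / 8), ‖SS θ N γ‖ ^ (2 * s - 1)) +
        ∫ γ : Fin k → ℝ in box k 0 (1 / 8), ‖SS θ N γ‖ ^ (2 * s - 1)) :=
        sum_le_sum fun i _ => add_le_add (key i) (key2 i)
    _ = _ := by rw [sum_const, card_univ, Fintype.card_fin, nsmul_eq_mul]; ring

open scoped Classical in
/-- each solution has at most `2 s` numbers -/
theorem sum_R_le {k s N : ℕ} (θ : ℕ → ℝ) :
    ∑ m ∈ Finset.Icc 1 N, (((pairs s N).filter fun p => (∀ j : Fin k, |dif θ p j| < 1) ∧ m ∈ supp p).card : ℝ) ≤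
      2 * s * (J θ s k N : ℝ) := by
  have h1 : ∀ m, (((pairs s N).filter fun p => (∀ j : Fin k, |dif θ p j| < 1) ∧ m ∈ supp p).card : ℝ) =
      ∑ p ∈ (pairs s N).filter fun p => ∀ j : Fin k, |dif θ p j| < 1, if m ∈ supp p then (1 : ℝ) else 0 := by
    intro m
    rw [← filter_filter, card_filter]
    push_cast; rfl
  simp_rw [h1]
  rw [sum_comm]
  unfold J
  calc _ ≤ ∑ p ∈ (pairs s N).filter fun p => ∀ j : Fin k, |dif θ p j| < 1, (2 * s : ℝ) := by
        apply sum_le_sum
        intro p _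
        rw [← sum_filter, sum_const, nsmul_eq_mul, mul_one]
        have h2 : ((Finset.Icc 1 N).filter fun m => m ∈ supp p).card ≤ 2 * s := by
          calc _ ≤ (supp p).card := card_le_card fun m hm => (mem_filter.1 hm).2
            _ ≤ (univ.image p.1).card + (univ.image p.2).card := card_union_le _ _
            _ ≤ s + s := add_le_add (card_image_le.trans (by simp)) (card_image_le.trans (by simp))
            _ = 2 * s := by ring
        exact_mod_cast h2
    _ = _ := by rw [sum_const, nsmul_eq_mul]; ring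

end Pool.Agent.U160.VP
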