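import Pool.Agent.U160.VP.GBC

set_option autoImplicit false

namespace Pool.Agent.U160.VP

open MeasureTheory ProbabilityTheory Finset Filter

/-- the linear form -/
noncomputable def lin (θ : ℕ → ℝ) (j : ℕ) (m : ℕ →₀ ℤ) : ℝ := m.sum fun v w => (w : ℝ) * ((v : ℝ) + θ v) ^ (j + 1)

theorem lin_sum_single {ι : Type*} (θ : ℕ → ℝ) (j : ℕ) (F : Finset ι) (f : ι → ℕ) (w : ι → ℤ) :
    lin θ j (∑ i ∈ F, Finsupp.single (f i) (w i)) = ∑ i ∈ F, (w i : ℝ) * ((f i : ℝ) + θ (f i)) ^ (j + 1) := by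
  unfold lin
  rw [← Finsupp.sum_finsetSum_index]
  · refine sum_congr rfl fun i _ => ?_
    rw [Finsupp.sum_single_index (by simp)]
  · intro a; simp
  · intro a b₁ b₂; push_cast; ring

theorem lin_cnt {s : ℕ} (θ : ℕ → ℝ) (j : ℕ) (p : (Fin s → ℕ) × (Fin s → ℕ)) : lin θ j (cnt p) = dif θ p j := by
  unfold cnt
  have h1 : lin θ j (∑ i : Fin s, Finsupp.single (p.1 i) (1 : ℤ) - ∑ i : Fin s, Finsupp.single (p.2 i) (1 : ℤ)) =
      lin θ j (∑ i : Fin s, Finsupp.single (p.1 i) (1 : ℤ)) - lin θ j (∑ i : Fin s, Finsupp.single (p.2 i) (1 : ℤ)) := by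
    unfold lin
    apply Finsupp.sum_sub_index
    intro a b₁ b₂; push_cast; ring
  rw [h1, lin_sum_single, lin_sum_single]
  unfold dif
  simp

theorem lin_meas (j : ℕ) (m : ℕ →₀ ℤ) : Measurable (fun x : ℕ → ℝ => lin x j m) := by
  unfold lin Finsupp.sum
  fun_prop

theorem AA_mono {p q k N : ℕ} (hpq : p ≤ q) (hN : 1 ≤ N) : AA p k N ≤ AA q k N := by
  have h1 : (1 : ℝ) ≤ N := by exact_mod_cast hN
  have hpq' : (p : ℝ) ≤ q := by exact_mod_cast hpq
  unfold AA
  apply add_le_add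
  · apply Real.rpow_le_rpow_of_exponent_le h1
    apply div_le_div_of_nonneg_right _ (by positivity)
    exact mul_le_mul_of_nonneg_right hpq' (by positivity)
  · apply Real.rpow_le_rpow_of_exponent_le h1
    linarith

theorem AA_pos {p k N : ℕ} (hN : 1 ≤ N) : 0 < AA p k N := by
  have h1 : (0 : ℝ) < N := by exact_mod_cast hN
  unfold AA
  positivity

/-- the expected number of non-diagonal solutions -/
theorem mean_ND (hP1 : S_P1) (hP2 : S_P2) {ρ : ℝ → ℝ} {c : ℤ → ℂ} (hρ : Dens ρ c) (s k : ℕ)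
    (hk : 1 ≤ k) : ∃ C : ℝ, 0 < C ∧ ∀ (Ω : Type) [MeasurableSpace Ω] (P : Measure Ω)
    [IsProbabilityMeasure P] (X : ℕ → Ω → ℝ)
    (hX : ∀ n, Measurable (X n)) (hind : iIndepFun X P) (hlaw : ∀ n, P.map (X n) = law ρ), ∀ N : ℕ, 1 ≤ N →
    ∫ ω, (ND (fun n => X n ω) s k N : ℝ) ∂P ≤
      C * ((N : ℝ) ^ ((s : ℝ) - 1 / (2 * k + 1)) + (N : ℝ) ^ (2 * (s : ℝ) - (k : ℝ) * ((k : ℝ) + 1) / 2)) := by
  classical
  obtain ⟨hperm, h2⟩ := hP2
  obtain ⟨C2, hC2, h2⟩ := h2 s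
  have h1 := hP1 ρ c hρ k
  have h1' : ∀ d : ℕ, ∃ C : ℝ, 0 < C ∧ (1 ≤ d → ∀ (Ω : Type) [MeasurableSpace Ω] (P : Measure Ω) [IsProbabilityMeasure P] (X : ℕ → Ω → ℝ),
      (∀ n, Measurable (X n)) → iIndepFun X P → (∀ n, P.map (X n) = law ρ) →
      ∀ N : ℕ, 1 ≤ N → ∀ w : Fin d → ℤ, (∀ i, w i ≠ 0 ∧ |w i| ≤ ((2 * s : ℕ) : ℤ)) →
    ∑ f ∈ (Fintype.piFinset (fun _ : Fin d => Finset.Icc 1 N)).filter (fun f => Function.Injective f),
      P.real {ω | ∀ j : Fin k, |∑ i : Fin d, (w i : ℝ) * ((f i : ℝ) + X (f i) ω) ^ (j.val + 1)| < 1} ≤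
    C * AA d k N) := by
    intro d
    by_cases hd : 1 ≤ d
    · obtain ⟨C, hC, h3⟩ := h1 d (2 * s) hk hd
      refine ⟨C, hC, fun _ => ?_⟩
      intro Ω _ P _ X a b e N hN w hw
      have := h3 Ω P X a b e N hN w hw
      convert this
    · exact ⟨1, one_pos, fun h => absurd h hd⟩
  choose Cd hCd0 hCd using h1'
  -- total constant
  obtain ⟨W, hW⟩ : ∃ W : ℕ → ℝ, ∀ d, W d =
      ((Fintype.piFinset (fun _ : Fin d => (Finset.Icc (-(2 * s : ℤ)) (2 * s)).erase 0)).card : ℝ) := ⟨_, fun _ => rfl⟩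
  have hW0 : ∀ d, 0 ≤ W d := fun d => by rw [hW]; exact Nat.cast_nonneg _
  obtain ⟨C3, hC3⟩ : ∃ C3 : ℝ, C3 = ∑ d ∈ Finset.Icc 1 (2 * s), W d * Cd d := ⟨_, rfl⟩
  have hC30 : 0 ≤ C3 := by rw [hC3]; exact sum_nonneg fun d _ => mul_nonneg (hW0 d) (hCd0 d).le
  refine ⟨C2 * (s * C3) + 1, by positivity, ?_⟩
  intro Ω _ P _ X hX hind hlaw N hN
  have hN0 : (0 : ℝ) < N := by exact_mod_cast hN
  have hN1 : (1 : ℝ) ≤ N := by exact_mod_cast hN
  have hXm : Measurable (fun ω => (fun n => X n ω)) := measurable_pi_iff.2 hX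
  set g : (ℕ →₀ ℤ) → ℝ := fun m => P.real {ω | ∀ j : Fin k, |lin (fun n => X n ω) j m| < 1} with hg
  have hND : ∫ ω, (ND (fun n => X n ω) s k N : ℝ) ∂P = ∑ p ∈ (pairs s N).filter (fun p => cnt p ≠ 0), g (cnt p) := by
    have h3 : ∀ ω, (ND (fun n => X n ω) s k N : ℝ) =
        ∑ p ∈ (pairs s N).filter (fun p => cnt p ≠ 0), (Ev k p).indicator (fun _ => (1 : ℝ)) (fun n => X n ω) := by
      intro ω
      unfold ND
      rw [sum_filter, card_filter]
      push_cast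
      refine sum_congr rfl fun p _ => ?_
      by_cases h4 : ∀ j : Fin k, |dif (fun n => X n ω) p j| < 1
      · rw [Set.indicator_of_mem (show (fun n => X n ω) ∈ Ev k p from h4)]
        simp only [h4, implies_true, true_and, ← hperm, ne_eq]
      · rw [Set.indicator_of_notMem (show (fun n => X n ω) ∉ Ev k p from h4)]
        simp [h4]
    simp_rw [h3]
    rw [integral_finsetSum]
    · refine sum_congr rfl fun p _ => ?_
      have h5 : ∀ ω, (Ev k p).indicator (fun _ => (1 : ℝ)) (fun n => X n ω) =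
          ((fun ω => (fun n => X n ω)) ⁻¹' (Ev k p)).indicator (fun _ => (1 : ℝ)) ω := fun ω => rfl
      simp_rw [h5]
      rw [integral_indicator (hXm (Ev_meas k p)), integral_const, smul_eq_mul, mul_one]
      rw [measureReal_restrict_apply_univ]
      simp only [hg, lin_cnt]
      rfl
    · intro p _
      apply Integrable.of_bound _ (1 : ℝ)
      · refine Filter.Eventually.of_forall fun ω => ?_
        rw [Set.indicator_apply]
        split_ifs <;> simp
      · exact ((measurable_const.indicator (Ev_meas k p)).comp hXm).aestronglyMeasurable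
  rw [hND]
  refine (h2 N g (fun m => measureReal_nonneg)).trans ?_
  have hinner : ∀ q ∈ Finset.Icc 1 s, ∀ d ∈ Finset.Icc 1 (2 * q),
      ∑ w ∈ Fintype.piFinset (fun _ : Fin d => (Finset.Icc (-(2 * s : ℤ)) (2 * s)).erase 0),
          ∑ f ∈ (Fintype.piFinset (fun _ : Fin d => Finset.Icc 1 N)).filter (fun f => Function.Injective f),
            g (∑ i : Fin d, Finsupp.single (f i) (w i)) ≤ (W d * Cd d) * AA (2 * q) k N := by
    intro q hq d hd
    rw [mem_Icc] at hq hd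
    calc _ ≤ ∑ w ∈ Fintype.piFinset (fun _ : Fin d => (Finset.Icc (-(2 * s : ℤ)) (2 * s)).erase 0),
          Cd d * AA (2 * q) k N := by
          refine sum_le_sum fun w hw => ?_
          rw [Fintype.mem_piFinset] at hw
          have hw' : ∀ i, w i ≠ 0 ∧ |w i| ≤ ((2 * s : ℕ) : ℤ) := by
            intro i
            have := hw i
            rw [mem_erase, mem_Icc] at this
            refine ⟨this.1, ?_⟩
            rw [abs_le]
            push_cast
            exact this.2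
          have h3 := hCd d hd.1 Ω P X hX hind hlaw N hN w hw'
          have h4 : Cd d * AA d k N ≤ Cd d * AA (2 * q) k N :=
            mul_le_mul_of_nonneg_left (AA_mono hd.2 hN) (hCd0 d).le
          refine le_trans (le_of_eq ?_) (h3.trans h4)
          refine sum_congr rfl fun f _ => ?_
          simp only [hg, lin_sum_single]
      _ = _ := by rw [sum_const, nsmul_eq_mul, ← hW]; ring
  have hq1 : ∀ q ∈ Finset.Icc 1 s, (N : ℝ) ^ (s - q) * AA (2 * q) k N ≤
      (N : ℝ) ^ ((s : ℝ) - 1 / (2 * k + 1)) + (N : ℝ) ^ (2 * (s : ℝ) - (k : ℝ) * ((k : ℝ) + 1) / 2) := by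
    intro q hq
    rw [mem_Icc] at hq
    have hqs : (q : ℝ) ≤ s := by exact_mod_cast hq.2
    have hq1 : (1 : ℝ) ≤ q := by exact_mod_cast hq.1
    unfold AA
    rw [mul_add, ← Real.rpow_natCast, ← Real.rpow_add hN0, ← Real.rpow_add hN0, Nat.cast_sub hq.2]
    apply add_le_add
    · apply Real.rpow_le_rpow_of_exponent_le hN1
      push_cast
      have h5 : 2 * (q : ℝ) * k / (2 * k + 1) = q - q * (1 / (2 * k + 1)) := by field_simp; ring
      rw [h5]
      have h6 : (0 : ℝ) < 1 / (2 * k + 1) := by positivity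
      nlinarith
    · apply Real.rpow_le_rpow_of_exponent_le hN1
      push_cast
      linarith
  obtain ⟨T, hT⟩ : ∃ T : ℝ, T = (N : ℝ) ^ ((s : ℝ) - 1 / (2 * k + 1)) +
      (N : ℝ) ^ (2 * (s : ℝ) - (k : ℝ) * ((k : ℝ) + 1) / 2) := ⟨_, rfl⟩
  rw [← hT]
  rw [← hT] at hq1
  have hT0 : 0 ≤ T := by rw [hT]; positivity
  have hqq : ∀ q ∈ Finset.Icc 1 s, (N : ℝ) ^ (s - q) * ∑ d ∈ Finset.Icc 1 (2 * q),
      ∑ w ∈ Fintype.piFinset (fun _ : Fin d => (Finset.Icc (-(2 * s : ℤ)) (2 * s)).erase 0),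
          ∑ f ∈ (Fintype.piFinset (fun _ : Fin d => Finset.Icc 1 N)).filter (fun f => Function.Injective f),
            g (∑ i : Fin d, Finsupp.single (f i) (w i)) ≤ C3 * T := by
    intro q hq
    have h3 := sum_le_sum (hinner q hq)
    rw [← sum_mul] at h3
    have h4 : ∑ d ∈ Finset.Icc 1 (2 * q), W d * Cd d ≤ C3 := by
      rw [hC3]
      apply sum_le_sum_of_subset_of_nonneg
      · apply Icc_subset_Icc_right
        have := (mem_Icc.1 hq).2
        omega
      · intro d _ _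
        exact mul_nonneg (hW0 d) (hCd0 d).le
    have h5 : 0 ≤ AA (2 * q) k N := (AA_pos hN).le
    calc _ ≤ (N : ℝ) ^ (s - q) * (C3 * AA (2 * q) k N) :=
          mul_le_mul_of_nonneg_left (h3.trans (mul_le_mul_of_nonneg_right h4 h5)) (by positivity)
      _ = C3 * ((N : ℝ) ^ (s - q) * AA (2 * q) k N) := by ring
      _ ≤ C3 * T := mul_le_mul_of_nonneg_left (hq1 q hq) hC30
  have h6 := sum_le_sum hqq
  rw [sum_const, Nat.card_Icc, Nat.add_sub_cancel, nsmul_eq_mul] at h6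
  calc _ ≤ C2 * (s * (C3 * T)) := mul_le_mul_of_nonneg_left h6 hC2.le
    _ = C2 * (s * C3) * T := by ring
    _ ≤ (C2 * (s * C3) + 1) * T := by linarith

/-- paucity below the critical exponent -/
theorem paucity (hP1 : S_P1) (hP2 : S_P2) {ρ : ℝ → ℝ} {c : ℤ → ℂ} (hρ : Dens ρ c) (s k : ℕ)
    (hs : 1 ≤ s) (hk : 1 ≤ k) (hsk : 2 * s < k * (k + 1)) (Ω : Type) [MeasurableSpace Ω] (P : Measure Ω)
    [IsProbabilityMeasure P] (X : ℕ → Ω → ℝ)
    (hX : ∀ n, Measurable (X n)) (hind : iIndepFun X P) (hlaw : ∀ n, P.map (X n) = law ρ) :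
    ∀ᵐ ω ∂P, ∃ C' : ℝ, 0 < C' ∧ ∀ N : ℕ, 1 ≤ N → (ND (fun n => X n ω) s k N : ℝ) ≤
      C' * (N : ℝ) ^ ((s : ℝ) - 1 / (4 * k + 2)) := by
  classical
  obtain ⟨C, hC0, h⟩ := mean_ND hP1 hP2 hρ s k hk
  have hs1 : (1 : ℝ) ≤ s := by exact_mod_cast hs
  have hk1 : (1 : ℝ) ≤ k := by exact_mod_cast hk
  have hη : (1 : ℝ) / (2 * k + 1) = 2 * (1 / (4 * k + 2)) := by field_simp; ring
  have hη1 : (1 : ℝ) / (4 * k + 2) ≤ 1 / 6 := by
    apply one_div_le_one_div_of_le (by norm_num); linarith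
  have hη0 : (0 : ℝ) < 1 / (4 * k + 2) := by positivity
  set η : ℝ := 1 / (4 * k + 2) with hηd
  refine bc P (fun N ω => (ND (fun n => X n ω) s k N : ℝ)) (fun ω N M hNM => by exact_mod_cast ND_mono _ _ _ hNM)
    (fun N => (N : ℝ) ^ ((s : ℝ) - η)) ?_ (2 ^ (s : ℝ)) (by positivity) ?_ (2 * C + 1) η (by positivity) hη0 ?_
  · intro N hN
    exact Real.one_le_rpow (by exact_mod_cast hN) (by linarith)
  · intro N M hN h1 h2
    exact rpow_step _ _ (by positivity) (by linarith) hN h1 h2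
  · intro N hN
    have hN0 : (0 : ℝ) < N := by exact_mod_cast hN
    have hN1 : (1 : ℝ) ≤ N := by exact_mod_cast hN
    have h3 := h Ω P X hX hind hlaw N hN
    have h4 : (N : ℝ) ^ (2 * (s : ℝ) - (k : ℝ) * ((k : ℝ) + 1) / 2) ≤ (N : ℝ) ^ ((s : ℝ) - 1 / (2 * k + 1)) := by
      apply Real.rpow_le_rpow_of_exponent_le hN1
      rw [hη]
      have h5 : 2 * s + 2 ≤ k * (k + 1) := by
        have he : 2 ∣ k * (k + 1) := (Nat.even_mul_succ_self k).two_dvd
        omega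
      have h6 : (2 * (s : ℝ) + 2) ≤ (k : ℝ) * (k + 1) := by exact_mod_cast h5
      linarith
    have h5 : ∫ ω, (ND (fun n => X n ω) s k N : ℝ) ∂P ≤ 2 * C * (N : ℝ) ^ ((s : ℝ) - 2 * η) := by
      rw [hη] at h3 h4
      nlinarith
    have hXm : Measurable (fun ω => (fun n => X n ω)) := measurable_pi_iff.2 hX
    have hNe : ∀ ω, (ND (fun n => X n ω) s k N : ℝ) =
        ∑ p ∈ (pairs s N).filter (fun p => ¬ ∃ σ : Equiv.Perm (Fin s), p.2 = p.1 ∘ σ),
          (Ev k p).indicator (fun _ => (1 : ℝ)) (fun n => X n ω) := by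
      intro ω
      unfold ND
      rw [sum_filter, card_filter]
      push_cast
      refine sum_congr rfl fun p _ => ?_
      by_cases h4 : ∀ j : Fin k, |dif (fun n => X n ω) p j| < 1
      · rw [Set.indicator_of_mem (show (fun n => X n ω) ∈ Ev k p from h4)]
        simp only [h4, implies_true, true_and]
      · rw [Set.indicator_of_notMem (show (fun n => X n ω) ∉ Ev k p from h4)]
        simp [h4]
    have hmeas : Measurable (fun ω => (ND (fun n => X n ω) s k N : ℝ)) := by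
      rw [funext hNe]
      refine Finset.measurable_sum _ fun p _ => ?_
      exact (measurable_const.indicator (Ev_meas k p)).comp hXm
    have hint : Integrable (fun ω => (ND (fun n => X n ω) s k N : ℝ)) P := by
      apply Integrable.of_bound hmeas.aestronglyMeasurable ((pairs s N).card : ℝ)
      refine Filter.Eventually.of_forall fun ω => ?_
      rw [Real.norm_eq_abs, abs_of_nonneg (by positivity)]
      unfold ND
      exact_mod_cast card_filter_le _ _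
    have hmark := mul_meas_ge_le_integral_of_nonneg (μ := P) (f := fun ω => (ND (fun n => X n ω) s k N : ℝ))
      (Filter.Eventually.of_forall fun ω => by positivity) hint ((2 * C + 1) * (N : ℝ) ^ ((s : ℝ) - η))
    have h6 : (2 * C + 1) * (N : ℝ) ^ ((s : ℝ) - η) * P.real {ω | (2 * C + 1) * (N : ℝ) ^ ((s : ℝ) - η) ≤
        (ND (fun n => X n ω) s k N : ℝ)} ≤ 2 * C * (N : ℝ) ^ ((s : ℝ) - 2 * η) := hmark.trans h5
    have h7 : (N : ℝ) ^ ((s : ℝ) - 2 * η) = (N : ℝ) ^ ((s : ℝ) - η) * (N : ℝ) ^ (-η) := by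
      rw [← Real.rpow_add hN0]; congr 1; ring
    rw [h7] at h6
    have h8 : 0 < (N : ℝ) ^ ((s : ℝ) - η) := by positivity
    have h9 : 0 < (N : ℝ) ^ (-η) := by positivity
    have h10 : (2 * C + 1) * P.real {ω | (2 * C + 1) * (N : ℝ) ^ ((s : ℝ) - η) ≤
        (ND (fun n => X n ω) s k N : ℝ)} ≤ 2 * C * (N : ℝ) ^ (-η) := by
      have h11 : (N : ℝ) ^ ((s : ℝ) - η) * ((2 * C + 1) * P.real {ω | (2 * C + 1) * (N : ℝ) ^ ((s : ℝ) - η) ≤
        (ND (fun n => X n ω) s k N : ℝ)}) ≤ (N : ℝ) ^ ((s : ℝ) - η) * (2 * C * (N : ℝ) ^ (-η)) := by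
        calc _ = (2 * C + 1) * (N : ℝ) ^ ((s : ℝ) - η) * P.real {ω | (2 * C + 1) * (N : ℝ) ^ ((s : ℝ) - η) ≤
              (ND (fun n => X n ω) s k N : ℝ)} := by ring
          _ ≤ 2 * C * ((N : ℝ) ^ ((s : ℝ) - η) * (N : ℝ) ^ (-η)) := h6
          _ = _ := by ring
      exact le_of_mul_le_mul_left h11 h8
    have h12 : 0 ≤ P.real {ω | (2 * C + 1) * (N : ℝ) ^ ((s : ℝ) - η) ≤ (ND (fun n => X n ω) s k N : ℝ)} :=
      measureReal_nonneg
    nlinarith [mul_nonneg hC0.le h12, mul_nonneg hC0.le h9.le]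

end Pool.Agent.U160.VP
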