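import Pool.Agent.U160.VP.GVar
import Pool.Agent.U160.VP.GND

set_option autoImplicit false

namespace Pool.Agent.U160.VP

open MeasureTheory ProbabilityTheory Finset Filter

/-- any at most `r` of the variables `X n`, `n ≥ 1`, are independent with the law `ν` -/
def KInd (r : ℕ) {Ω : Type} [MeasurableSpace Ω] (P : Measure Ω) (X : ℕ → Ω → ℝ) (ν : Measure ℝ) : Prop :=
  ∀ S : Finset ℕ, (∀ n ∈ S, 1 ≤ n) → S.card ≤ r → P.map (fun ω (i : S) => X i ω) = Measure.pi (fun _ : S => ν)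

theorem kind_of_iInd {r : ℕ} {Ω : Type} [MeasurableSpace Ω] (P : Measure Ω) [IsProbabilityMeasure P]
    (X : ℕ → Ω → ℝ) (ν : Measure ℝ) (hX : ∀ n, Measurable (X n)) (hind : iIndepFun X P)
    (hlaw : ∀ n, P.map (X n) = ν) : KInd r P X ν := by
  intro S _ _
  have h1 : iIndepFun (fun (i : S) => X (i : ℕ)) P := hind.precomp Subtype.val_injective
  have h2 := (iIndepFun_iff_map_fun_eq_pi_map (fun i : S => (hX (i : ℕ)).aemeasurable)).1 h1
  rw [h2]
  congr 1
  ext i : 1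
  exact hlaw i

/-- extension by zero -/
noncomputable def extz (S : Finset ℕ) (y : S → ℝ) (n : ℕ) : ℝ := by
  classical exact if h : n ∈ S then y ⟨n, h⟩ else 0

theorem extz_meas (S : Finset ℕ) : Measurable (extz S) := by
  rw [measurable_pi_iff]
  intro n
  unfold extz
  by_cases h : n ∈ S
  · simp only [h, dif_pos]
    exact measurable_pi_apply _
  · simp only [h, dif_neg, not_false_eq_true]
    exact measurable_const

theorem transfer {r : ℕ} {Ω Ω' : Type} [MeasurableSpace Ω] [MeasurableSpace Ω'] (P : Measure Ω) (P' : Measure Ω')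
    (X : ℕ → Ω → ℝ) (X' : ℕ → Ω' → ℝ) (ν : Measure ℝ) (hX : ∀ n, Measurable (X n)) (hX' : ∀ n, Measurable (X' n))
    (h : KInd r P X ν) (h' : KInd r P' X' ν) (S : Finset ℕ) (hS : ∀ n ∈ S, 1 ≤ n) (hSr : S.card ≤ r)
    (Φ : (ℕ → ℝ) → ℝ) (hΦ : Measurable Φ) (hdep : ∀ x y : ℕ → ℝ, (∀ n ∈ S, x n = y n) → Φ x = Φ y) :
    ∫ ω, Φ (fun n => X n ω) ∂P = ∫ ω, Φ (fun n => X' n ω) ∂P' := by
  have key : ∀ (Ω : Type) [MeasurableSpace Ω] (P : Measure Ω) (X : ℕ → Ω → ℝ), (∀ n, Measurable (X n)) →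
      ∫ ω, Φ (fun n => X n ω) ∂P = ∫ y, Φ (extz S y) ∂(P.map (fun ω (i : S) => X i ω)) := by
    intro Ω _ P X hX
    rw [integral_map]
    · congr 1
      ext ω
      apply hdep
      intro n hn
      unfold extz
      rw [dif_pos hn]
    · exact (measurable_pi_iff.2 fun i : S => hX (i : ℕ)).aemeasurable
    · exact (hΦ.comp (extz_meas S)).aestronglyMeasurable
  rw [key Ω P X hX, key Ω' P' X' hX', h S hS hSr, h' S hS hSr]

theorem supp_card {s : ℕ} (p : (Fin s → ℕ) × (Fin s → ℕ)) : (supp p).card ≤ 2 * s := by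
  unfold supp
  calc _ ≤ (univ.image p.1).card + (univ.image p.2).card := card_union_le _ _
    _ ≤ s + s := add_le_add (card_image_le.trans (by simp)) (card_image_le.trans (by simp))
    _ = 2 * s := by ring

theorem supp_pos {s N : ℕ} {p : (Fin s → ℕ) × (Fin s → ℕ)} (hp : p ∈ pairs s N) : ∀ n ∈ supp p, 1 ≤ n :=
  fun n hn => (mem_Icc.1 (pairs_supp hp hn)).1

theorem ind_meas {k s : ℕ} (p : (Fin s → ℕ) × (Fin s → ℕ)) :
    Measurable (fun x : ℕ → ℝ => (Ev k p).indicator (fun _ => (1 : ℝ)) x) :=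
  measurable_const.indicator (Ev_meas k p)

theorem ind_dep {k s : ℕ} (p : (Fin s → ℕ) × (Fin s → ℕ)) (x y : ℕ → ℝ) (h : ∀ n ∈ supp p, x n = y n) :
    (Ev k p).indicator (fun _ => (1 : ℝ)) x = (Ev k p).indicator (fun _ => (1 : ℝ)) y := by
  have h1 := Ev_dep k p x y h
  by_cases hx : x ∈ Ev k p
  · rw [Set.indicator_of_mem hx, Set.indicator_of_mem (h1.1 hx)]
  · rw [Set.indicator_of_notMem hx, Set.indicator_of_notMem (fun hy => hx (h1.2 hy))]

theorem ind_le {k s : ℕ} (p : (Fin s → ℕ) × (Fin s → ℕ)) (x : ℕ → ℝ) :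
    0 ≤ (Ev k p).indicator (fun _ => (1 : ℝ)) x ∧ (Ev k p).indicator (fun _ => (1 : ℝ)) x ≤ 1 := by
  classical
  rw [Set.indicator_apply]
  split_ifs <;> simp

section

variable {r : ℕ} {Ω Ω' : Type} [MeasurableSpace Ω] [MeasurableSpace Ω'] (P : Measure Ω) (P' : Measure Ω')
    [IsProbabilityMeasure P] [IsProbabilityMeasure P']
    (X : ℕ → Ω → ℝ) (X' : ℕ → Ω' → ℝ) (ν : Measure ℝ) (hX : ∀ n, Measurable (X n)) (hX' : ∀ n, Measurable (X' n))
    (h : KInd r P X ν) (h' : KInd r P' X' ν)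

include hX hX' h h'

omit [IsProbabilityMeasure P] [IsProbabilityMeasure P'] in
theorem transfer_one {k s N : ℕ} (hr : 2 * s ≤ r) (p : (Fin s → ℕ) × (Fin s → ℕ)) (hp : p ∈ pairs s N) :
    ∫ ω, (Ev k p).indicator (fun _ => (1 : ℝ)) (fun n => X n ω) ∂P =
      ∫ ω, (Ev k p).indicator (fun _ => (1 : ℝ)) (fun n => X' n ω) ∂P' :=
  transfer P P' X X' ν hX hX' h h' (supp p) (supp_pos hp) ((supp_card p).trans hr) _ (ind_meas p)
    (fun x y hxy => ind_dep p x y hxy)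

theorem transfer_sum {k s N : ℕ} (hr : 2 * s ≤ r) (F : Finset ((Fin s → ℕ) × (Fin s → ℕ))) (hF : F ⊆ pairs s N) :
    ∫ ω, ∑ p ∈ F, (Ev k p).indicator (fun _ => (1 : ℝ)) (fun n => X n ω) ∂P =
      ∫ ω, ∑ p ∈ F, (Ev k p).indicator (fun _ => (1 : ℝ)) (fun n => X' n ω) ∂P' := by
  have hint : ∀ (Ω : Type) [MeasurableSpace Ω] (P : Measure Ω) [IsProbabilityMeasure P] (X : ℕ → Ω → ℝ),
      (∀ n, Measurable (X n)) → ∀ p : (Fin s → ℕ) × (Fin s → ℕ),
      Integrable (fun ω => (Ev k p).indicator (fun _ => (1 : ℝ)) (fun n => X n ω)) P := by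
    intro Ω _ P _ X hX p
    apply Integrable.of_bound ((ind_meas p).comp (measurable_pi_iff.2 hX)).aestronglyMeasurable (1 : ℝ)
    refine Filter.Eventually.of_forall fun ω => ?_
    have := ind_le (k := k) p (fun n => X n ω)
    rw [Function.comp_apply, Real.norm_eq_abs, abs_of_nonneg this.1]
    exact this.2
  rw [integral_finsetSum _ (fun p _ => hint Ω P X hX p), integral_finsetSum _ (fun p _ => hint Ω' P' X' hX' p)]
  exact sum_congr rfl fun p hp => transfer_one P P' X X' ν hX hX' h h' hr p (hF hp)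

theorem transfer_sq {k s N : ℕ} (hr : 4 * s ≤ r) (F : Finset ((Fin s → ℕ) × (Fin s → ℕ))) (hF : F ⊆ pairs s N) :
    ∫ ω, (∑ p ∈ F, (Ev k p).indicator (fun _ => (1 : ℝ)) (fun n => X n ω)) ^ 2 ∂P =
      ∫ ω, (∑ p ∈ F, (Ev k p).indicator (fun _ => (1 : ℝ)) (fun n => X' n ω)) ^ 2 ∂P' := by
  have hint : ∀ (Ω : Type) [MeasurableSpace Ω] (P : Measure Ω) [IsProbabilityMeasure P] (X : ℕ → Ω → ℝ),
      (∀ n, Measurable (X n)) → ∀ p q : (Fin s → ℕ) × (Fin s → ℕ),
      Integrable (fun ω => (Ev k p).indicator (fun _ => (1 : ℝ)) (fun n => X n ω) *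
        (Ev k q).indicator (fun _ => (1 : ℝ)) (fun n => X n ω)) P := by
    intro Ω _ P _ X hX p q
    apply Integrable.of_bound (((ind_meas p).comp (measurable_pi_iff.2 hX)).mul
      ((ind_meas q).comp (measurable_pi_iff.2 hX))).aestronglyMeasurable (1 : ℝ)
    refine Filter.Eventually.of_forall fun ω => ?_
    have h1 := ind_le (k := k) p (fun n => X n ω)
    have h2 := ind_le (k := k) q (fun n => X n ω)
    simp only [Pi.mul_apply, Function.comp_apply]
    rw [Real.norm_eq_abs, abs_of_nonneg (mul_nonneg h1.1 h2.1)]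
    exact mul_le_one₀ h1.2 h2.1 h2.2
  simp_rw [sq, sum_mul_sum]
  rw [integral_finsetSum _ (fun p _ => integrable_finsetSum _ fun q _ => hint Ω P X hX p q),
    integral_finsetSum _ (fun p _ => integrable_finsetSum _ fun q _ => hint Ω' P' X' hX' p q)]
  refine sum_congr rfl fun p hp => ?_
  rw [integral_finsetSum _ (fun q _ => hint Ω P X hX p q), integral_finsetSum _ (fun q _ => hint Ω' P' X' hX' p q)]
  refine sum_congr rfl fun q hq => ?_
  refine transfer P P' X X' ν hX hX' h h' (supp p ∪ supp q) ?_ ?_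
    (fun x => (Ev k p).indicator (fun _ => (1 : ℝ)) x * (Ev k q).indicator (fun _ => (1 : ℝ)) x)
    ((ind_meas p).mul (ind_meas q)) ?_
  · intro n hn
    rcases mem_union.1 hn with hn | hn
    · exact supp_pos (hF hp) n hn
    · exact supp_pos (hF hq) n hn
  · calc _ ≤ (supp p).card + (supp q).card := card_union_le _ _
      _ ≤ 2 * s + 2 * s := add_le_add (supp_card p) (supp_card q)
      _ ≤ r := by omega
  · intro x y hxy
    rw [ind_dep p x y (fun n hn => hxy n (mem_union_left _ hn)), ind_dep q x y (fun n hn => hxy n (mem_union_right _ hn))]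

end

theorem law_prob {ρ : ℝ → ℝ} {c : ℤ → ℂ} (hρ : Dens ρ c) : IsProbabilityMeasure (law ρ) := by
  have hi : Integrable (fun u => ρ u) (volume.restrict (Set.Icc (0 : ℝ) 1)) := by
    by_contra h
    have := hρ.mass
    rw [integral_undef h] at this
    norm_num at this
  constructor
  unfold law
  rw [withDensity_apply _ MeasurableSet.univ, Measure.restrict_univ,
    ← ofReal_integral_eq_lintegral_ofReal hi (Eventually.of_forall hρ.nonneg), hρ.mass]
  simp

/-- the number of solutions for `4s`-wise independent perturbations -/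
theorem upper_kind (hC : S_C) (hD : S_D) (hF1 : S_F1) (hF3 : S_F3) {ρ : ℝ → ℝ} {c : ℤ → ℂ} (hρ : Dens ρ c) (s k : ℕ)
    (hs : 1 ≤ s) (hk : 1 ≤ k) (Ω : Type) [MeasurableSpace Ω] (P : Measure Ω)
    [IsProbabilityMeasure P] (X : ℕ → Ω → ℝ)
    (hX : ∀ n, Measurable (X n)) (hind : KInd (4 * s) P X (law ρ)) :
    ∀ᵐ ω ∂P, ∃ C' : ℝ, 0 < C' ∧ ∀ N : ℕ, 1 ≤ N → (J (fun n => X n ω) s k N : ℝ) ≤ C' * BB (2 * s) k N := by
  obtain ⟨C, hC0, hv⟩ := var_J hC hD hF1 hF3 hρ s k hs hk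
  haveI := law_prob hρ
  set P' : Measure (ℕ → ℝ) := Measure.infinitePi (fun _ : ℕ => law ρ) with hP'
  have hind' : iIndepFun (fun (n : ℕ) (ω : ℕ → ℝ) => ω n) P' :=
    iIndepFun_infinitePi (X := fun _ x => x) (fun _ => measurable_id)
  have hlaw' : ∀ n, P'.map (fun ω : ℕ → ℝ => ω n) = law ρ := fun n => Measure.infinitePi_map_eval (fun _ => law ρ) n
  have hX' : ∀ n : ℕ, Measurable (fun ω : ℕ → ℝ => ω n) := fun n => measurable_pi_apply n
  have hk' : KInd (4 * s) P' (fun n ω => ω n) (law ρ) := kind_of_iInd P' _ _ hX' hind' hlaw'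
  refine bc P (fun N ω => (J (fun n => X n ω) s k N : ℝ)) (fun ω N M hNM => by exact_mod_cast J_mono _ _ _ hNM)
    (fun N => BB (2 * s) k N) (fun N hN => BB_ge_one s k N hN) (2 ^ (2 * s : ℝ)) (by positivity)
    (fun N M hN h1 h2 => BB_double s k hN h1 h2) (C + 1) (1 / 2) (by positivity) (by norm_num) ?_
  intro N hN
  obtain ⟨h1, h2⟩ := hv (ℕ → ℝ) P' (fun n ω => ω n) hX' hind' hlaw' N hN
  simp_rw [J_eq] at h1 h2
  rw [← transfer_sum P P' X (fun n ω => ω n) (law ρ) hX hX' hind hk' (k := k) (s := s) (N := N) (by omega) (pairs s N)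
    (Subset.refl _)] at h1 h2
  rw [← transfer_sq P P' X (fun n ω => ω n) (law ρ) hX hX' hind hk' (k := k) (s := s) (N := N) le_rfl (pairs s N)
    (Subset.refl _)] at h2
  simp_rw [← J_eq] at h1 h2
  -- Chebyshev
  set Y : Ω → ℝ := fun ω => (J (fun n => X n ω) s k N : ℝ) with hY
  have hYm : Measurable Y := by
    have : Y = fun ω => ∑ p ∈ pairs s N, (Ev k p).indicator (fun _ => (1 : ℝ)) (fun n => X n ω) := by
      ext ω; exact J_eq _ _ _ _
    rw [this]
    exact Finset.measurable_sum _ fun p _ => (ind_meas p).comp (measurable_pi_iff.2 hX)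
  have hY0 : ∀ ω, 0 ≤ Y ω := fun ω => by positivity
  have hYb : ∀ ω, Y ω ≤ (pairs s N).card := fun ω => J_bd _ _ _ _
  have hYi : Integrable Y P := Integrable.of_bound hYm.aestronglyMeasurable ((pairs s N).card : ℝ)
    (Filter.Eventually.of_forall fun ω => by rw [Real.norm_eq_abs, abs_of_nonneg (hY0 ω)]; exact hYb ω)
  have hYi2 : Integrable (fun ω => Y ω ^ 2) P := Integrable.of_bound (hYm.pow_const 2).aestronglyMeasurable
    (((pairs s N).card : ℝ) ^ 2) (Filter.Eventually.of_forall fun ω => by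
      rw [Real.norm_eq_abs, abs_of_nonneg (sq_nonneg _)]; exact pow_le_pow_left₀ (hY0 ω) (hYb ω) 2)
  set A := BB (2 * s) k N with hA
  have hA0 : 0 < A := BB_pos _ _ _ hN
  set a : ℝ := ∫ ω, Y ω ∂P with ha
  have hvar : ∫ ω, (Y ω - a) ^ 2 ∂P ≤ C * ((N : ℝ) ^ (-(1 / 2) : ℝ) * A ^ 2) := by
    have h3 : ∀ ω, (Y ω - a) ^ 2 = Y ω ^ 2 - 2 * a * Y ω + a ^ 2 := fun ω => by ring
    simp_rw [h3]
    have h4 : Integrable (fun ω => Y ω ^ 2 - 2 * a * Y ω) P := hYi2.sub (hYi.const_mul _)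
    rw [integral_add h4 (integrable_const _), integral_sub hYi2 (hYi.const_mul _), integral_const_mul, integral_const,
      ← ha]
    simp only [probReal_univ, one_smul]
    nlinarith [h2]
  have hYai : Integrable (fun ω => (Y ω - a) ^ 2) P := by
    have h3 : ∀ ω, (Y ω - a) ^ 2 = Y ω ^ 2 - 2 * a * Y ω + a ^ 2 := fun ω => by ring
    simp_rw [h3]
    exact (hYi2.sub (hYi.const_mul _)).add (integrable_const _)
  have hmark := mul_meas_ge_le_integral_of_nonneg (μ := P) (f := fun ω => (Y ω - a) ^ 2)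
    (Filter.Eventually.of_forall fun ω => sq_nonneg _) hYai (A ^ 2)
  have hsub : P.real {ω | (C + 1) * A ≤ Y ω} ≤ P.real {ω | A ^ 2 ≤ (Y ω - a) ^ 2} := by
    refine measureReal_mono (fun ω hω => ?_) (measure_ne_top _ _)
    simp only [Set.mem_ofPred_eq] at hω ⊢
    have h3 : A ≤ Y ω - a := by nlinarith
    exact pow_le_pow_left₀ hA0.le h3 2
  refine hsub.trans ?_
  have h6 : P.real {ω | A ^ 2 ≤ (Y ω - a) ^ 2} ≤ C * (N : ℝ) ^ (-(1 / 2) : ℝ) := by
    have h7 : A ^ 2 * P.real {ω | A ^ 2 ≤ (Y ω - a) ^ 2} ≤ A ^ 2 * (C * (N : ℝ) ^ (-(1 / 2) : ℝ)) := by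
      refine (hmark.trans hvar).trans (le_of_eq (by ring))
    exact le_of_mul_le_mul_left h7 (by positivity)
  refine h6.trans ?_
  apply mul_le_mul_of_nonneg_right (by linarith) (by positivity)

open scoped Classical in
theorem ND_eq (θ : ℕ → ℝ) (s k N : ℕ) : (ND θ s k N : ℝ) =
    ∑ p ∈ (pairs s N).filter (fun p => ¬ ∃ σ : Equiv.Perm (Fin s), p.2 = p.1 ∘ σ),
      (Ev k p).indicator (fun _ => (1 : ℝ)) θ := by
  unfold ND
  rw [sum_filter, card_filter]
  push_cast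
  refine sum_congr rfl fun p _ => ?_
  by_cases h4 : ∀ j : Fin k, |dif θ p j| < 1
  · rw [Set.indicator_of_mem (show θ ∈ Ev k p from h4)]
    simp only [h4, implies_true, true_and]
  · rw [Set.indicator_of_notMem (show θ ∉ Ev k p from h4)]
    simp [h4]

/-- few non-diagonal solutions for `2s`-wise independent perturbations -/
theorem paucity_kind (hP1 : S_P1) (hP2 : S_P2) {ρ : ℝ → ℝ} {c : ℤ → ℂ} (hρ : Dens ρ c) (s k : ℕ)
    (hs : 1 ≤ s) (hk : 1 ≤ k) (hsk : 2 * s < k * (k + 1)) (Ω : Type) [MeasurableSpace Ω] (P : Measure Ω)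
    [IsProbabilityMeasure P] (X : ℕ → Ω → ℝ)
    (hX : ∀ n, Measurable (X n)) (hind : KInd (4 * s) P X (law ρ)) :
    ∀ᵐ ω ∂P, ∃ C' : ℝ, 0 < C' ∧ ∀ N : ℕ, 1 ≤ N → (ND (fun n => X n ω) s k N : ℝ) ≤
      C' * (N : ℝ) ^ ((s : ℝ) - 1 / (4 * k + 2)) := by
  classical
  obtain ⟨C, hC0, h⟩ := mean_ND hP1 hP2 hρ s k hk
  haveI := law_prob hρ
  set P' : Measure (ℕ → ℝ) := Measure.infinitePi (fun _ : ℕ => law ρ) with hP'
  have hind' : iIndepFun (fun (n : ℕ) (ω : ℕ → ℝ) => ω n) P' :=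
    iIndepFun_infinitePi (X := fun _ x => x) (fun _ => measurable_id)
  have hlaw' : ∀ n, P'.map (fun ω : ℕ → ℝ => ω n) = law ρ := fun n => Measure.infinitePi_map_eval (fun _ => law ρ) n
  have hX' : ∀ n : ℕ, Measurable (fun ω : ℕ → ℝ => ω n) := fun n => measurable_pi_apply n
  have hk' : KInd (4 * s) P' (fun n ω => ω n) (law ρ) := kind_of_iInd P' _ _ hX' hind' hlaw'
  have hs1 : (1 : ℝ) ≤ s := by exact_mod_cast hs
  have hk1 : (1 : ℝ) ≤ k := by exact_mod_cast hk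
  have hη : (1 : ℝ) / (2 * k + 1) = 2 * (1 / (4 * k + 2)) := by field_simp; ring
  have hη1 : (1 : ℝ) / (4 * k + 2) ≤ 1 / 6 := by
    apply one_div_le_one_div_of_le (by norm_num); linarith
  have hη0 : (0 : ℝ) < 1 / (4 * k + 2) := by positivity
  set η : ℝ := 1 / (4 * k + 2) with hηd
  refine bc P (fun N ω => (ND (fun n => X n ω) s k N : ℝ)) (fun ω N M hNM => by exact_mod_cast ND_mono _ _ _ hNM)
    (fun N => (N : ℝ) ^ ((s : ℝ) - η)) ?_ (2 ^ (s : ℝ)) (by positivity) ?_ (2 * C + 1) η (by positivity) hη0 ?_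
  · intro N hN
    exact Real.one_le_rpow (by exact_mod_cast hN) (by linarith)
  · intro N M hN h1 h2
    exact rpow_step _ _ (by positivity) (by linarith) hN h1 h2
  · intro N hN
    have hN0 : (0 : ℝ) < N := by exact_mod_cast hN
    have hN1 : (1 : ℝ) ≤ N := by exact_mod_cast hN
    have h3 := h (ℕ → ℝ) P' (fun n ω => ω n) hX' hind' hlaw' N hN
    simp_rw [ND_eq] at h3
    rw [← transfer_sum P P' X (fun n ω => ω n) (law ρ) hX hX' hind hk' (k := k) (s := s) (N := N) (by omega) _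
      (filter_subset _ _)] at h3
    simp_rw [← ND_eq] at h3
    have h4 : (N : ℝ) ^ (2 * (s : ℝ) - (k : ℝ) * ((k : ℝ) + 1) / 2) ≤ (N : ℝ) ^ ((s : ℝ) - 1 / (2 * k + 1)) := by
      apply Real.rpow_le_rpow_of_exponent_le hN1
      rw [hη]
      have h5 : 2 * s + 2 ≤ k * (k + 1) := by
        have he : 2 ∣ k * (k + 1) := (Nat.even_mul_succ_self k).two_dvd
        omega
      have h6 : (2 * (s : ℝ) + 2) ≤ (k : ℝ) * (k + 1) := by exact_mod_cast h5
      linarith
    have h5 : ∫ ω, (ND (fun n => X n ω) s k N : ℝ) ∂P ≤ 2 * C * (N : ℝ) ^ ((s : ℝ) - 2 * η) := by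
      rw [hη] at h3 h4
      nlinarith
    have hmeas : Measurable (fun ω => (ND (fun n => X n ω) s k N : ℝ)) := by
      simp_rw [ND_eq]
      exact Finset.measurable_sum _ fun p _ => (ind_meas p).comp (measurable_pi_iff.2 hX)
    have hint : Integrable (fun ω => (ND (fun n => X n ω) s k N : ℝ)) P := by
      apply Integrable.of_bound hmeas.aestronglyMeasurable ((pairs s N).card : ℝ)
      refine Filter.Eventually.of_forall fun ω => ?_
      rw [Real.norm_eq_abs, abs_of_nonneg (by positivity)]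
      unfold ND
      exact_mod_cast card_filter_le _ _
    have hmark := mul_meas_ge_le_integral_of_nonneg (μ := P) (f := fun ω => (ND (fun n => X n ω) s k N : ℝ))
      (Filter.Eventually.of_forall fun ω => by positivity) hint ((2 * C + 1) * (N : ℝ) ^ ((s : ℝ) - η))
    have h6 : (2 * C + 1) * (N : ℝ) ^ ((s : ℝ) - η) * P.real {ω | (2 * C + 1) * (N : ℝ) ^ ((s : ℝ) - η) ≤
        (ND (fun n => X n ω) s k N : ℝ)} ≤ 2 * C * (N : ℝ) ^ ((s : ℝ) - 2 * η) := hmark.trans h5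
    have h7 : (N : ℝ) ^ ((s : ℝ) - 2 * η) = (N : ℝ) ^ ((s : ℝ) - η) * (N : ℝ) ^ (-η) := by
      rw [← Real.rpow_add hN0]; congr 1; ring
    rw [h7] at h6
    have h8 : 0 < (N : ℝ) ^ ((s : ℝ) - η) := by positivity
    have h9 : 0 < (N : ℝ) ^ (-η) := by positivity
    have h10 : (2 * C + 1) * P.real {ω | (2 * C + 1) * (N : ℝ) ^ ((s : ℝ) - η) ≤
        (ND (fun n => X n ω) s k N : ℝ)} ≤ 2 * C * (N : ℝ) ^ (-η) := by
      have h11 : (N : ℝ) ^ ((s : ℝ) - η) * ((2 * C + 1) * P.real {ω | (2 * C + 1) * (N : ℝ) ^ ((s : ℝ) - η) ≤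
        (ND (fun n => X n ω) s k N : ℝ)}) ≤ (N : ℝ) ^ ((s : ℝ) - η) * (2 * C * (N : ℝ) ^ (-η)) := by
        calc _ = (2 * C + 1) * (N : ℝ) ^ ((s : ℝ) - η) * P.real {ω | (2 * C + 1) * (N : ℝ) ^ ((s : ℝ) - η) ≤
              (ND (fun n => X n ω) s k N : ℝ)} := by ring
          _ ≤ 2 * C * ((N : ℝ) ^ ((s : ℝ) - η) * (N : ℝ) ^ (-η)) := h6
          _ = _ := by ring
      exact le_of_mul_le_mul_left h11 h8
    have h12 : 0 ≤ P.real {ω | (2 * C + 1) * (N : ℝ) ^ ((s : ℝ) - η) ≤ (ND (fun n => X n ω) s k N : ℝ)} :=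
      measureReal_nonneg
    nlinarith [mul_nonneg hC0.le h12, mul_nonneg hC0.le h9.le]

end Pool.Agent.U160.VP
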