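import Pool.Agent.U160.VP.GProb

set_option autoImplicit false

namespace Pool.Agent.U160.VP

open MeasureTheory ProbabilityTheory Finset

/-- the integral of the power of the sum -/
noncomputable def WW (k q N : ℕ) (θ : ℕ → ℝ) : ℝ := ∫ γ : Fin k → ℝ in box k 0 (1 / 8), ‖SS θ N γ‖ ^ q

theorem WW_nonneg (k q N : ℕ) (θ : ℕ → ℝ) : 0 ≤ WW k q N θ := integral_nonneg fun γ => by positivity

instance box_fin (k : ℕ) : IsFiniteMeasure (volume.restrict (box k (0 : Fin k → ℝ) (1 / 8))) :=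
  ⟨by rw [Measure.restrict_apply_univ]; exact (box_compact k _ _).measure_lt_top⟩

theorem WW_le (k q N : ℕ) (θ : ℕ → ℝ) : WW k q N θ ≤ (N : ℝ) ^ q := by
  unfold WW
  have h1 : ∫ γ : Fin k → ℝ in box k 0 (1 / 8), ‖SS θ N γ‖ ^ q ≤ ∫ γ : Fin k → ℝ in box k 0 (1 / 8), (N : ℝ) ^ q := by
    apply integral_mono
    · exact ((continuous_SS θ N).norm.pow q).continuousOn.integrableOn_compact (box_compact k _ _)
    · exact integrable_const _
    · intro γ
      exact pow_le_pow_left₀ (norm_nonneg _) (SS_norm θ N γ) q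
  refine h1.trans ?_
  rw [integral_const, smul_eq_mul]
  calc _ ≤ 1 * (N : ℝ) ^ q := mul_le_mul_of_nonneg_right (box_mass k) (by positivity)
    _ = _ := one_mul _

theorem WW_meas {Ω : Type} [MeasurableSpace Ω] (X : ℕ → Ω → ℝ) (hX : ∀ n, Measurable (X n)) (k q N : ℕ) :
    Measurable (fun ω => WW k q N (fun n => X n ω)) := by
  unfold WW
  have h1 : StronglyMeasurable (fun p : Ω × (Fin k → ℝ) => ‖SS (fun n => X n p.1) N p.2‖ ^ q) := by
    apply Measurable.stronglyMeasurable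
    exact (((SS_meas X hX N).comp measurable_swap).norm).pow_const q
  exact (h1.integral_prod_right).measurable

theorem WW_bound (hF3 : S_F3) (hD : S_D) {ρ : ℝ → ℝ} {c : ℤ → ℂ} (hρ : Dens ρ c) (k q : ℕ) (hk : 1 ≤ k) :
    ∃ C : ℝ, 0 < C ∧ ∀ (Ω : Type) [MeasurableSpace Ω] (P : Measure Ω) [IsProbabilityMeasure P] (X : ℕ → Ω → ℝ),
    (∀ n, Measurable (X n)) → iIndepFun X P → (∀ n, P.map (X n) = law ρ) → ∀ N : ℕ, 1 ≤ N →
      ∫ ω, WW k q N (fun n => X n ω) ^ 2 ∂P ≤ C * BB q k N ^ 2 := by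
  obtain ⟨C1, hC1, h1⟩ := DD_moment hF3 q
  obtain ⟨C2, hC2, h2⟩ := hD ρ c hρ k q hk (1 / 8) (by norm_num)
  refine ⟨4 ^ q * 2 * (C2 ^ 2 + C1), by positivity, ?_⟩
  intro Ω _ P _ X hX hind hlaw N hN
  set μ := volume.restrict (box k (0 : Fin k → ℝ) (1 / 8)) with hμ
  set a : ℝ := ∫ γ : Fin k → ℝ in box k 0 (1 / 8), ‖MM ρ N γ‖ ^ q with ha
  set V : Ω → ℝ := fun ω => ∫ γ : Fin k → ℝ in box k 0 (1 / 8), ‖DD X ρ N γ ω‖ ^ q with hV
  have ha0 : 0 ≤ a := integral_nonneg fun γ => by positivity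
  have ha1 : a ≤ C2 * BB q k N := (h2 N hN).trans (mul_le_mul_of_nonneg_left (AA_le_BB q k N hN) hC2.le)
  have hDc : ∀ ω, Continuous (fun γ : Fin k → ℝ => DD X ρ N γ ω) := fun ω => by
    unfold DD
    exact (continuous_SS _ N).sub (MM_cont hρ N)
  have hDi : ∀ (r : ℕ) ω, Integrable (fun γ : Fin k → ℝ => ‖DD X ρ N γ ω‖ ^ r) μ := fun r ω =>
    ((hDc ω).norm.pow r).continuousOn.integrableOn_compact (box_compact k _ _)
  have hWV : ∀ ω, WW k q N (fun n => X n ω) ≤ 2 ^ q * (a + V ω) := by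
    intro ω
    unfold WW
    have h3 : ∫ γ : Fin k → ℝ in box k 0 (1 / 8), ‖SS (fun n => X n ω) N γ‖ ^ q ≤
        ∫ γ : Fin k → ℝ in box k 0 (1 / 8), 2 ^ q * (‖MM ρ N γ‖ ^ q + ‖DD X ρ N γ ω‖ ^ q) := by
      apply integral_mono
      · exact ((continuous_SS _ N).norm.pow q).continuousOn.integrableOn_compact (box_compact k _ _)
      · apply Integrable.const_mul
        exact (((MM_cont hρ N).norm.pow q).continuousOn.integrableOn_compact (box_compact k _ _)).add (hDi q ω)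
      · intro γ
        have h4 : SS (fun n => X n ω) N γ = MM ρ N γ + DD X ρ N γ ω := by unfold DD; ring
        have h5 : ‖SS (fun n => X n ω) N γ‖ ≤ ‖MM ρ N γ‖ + ‖DD X ρ N γ ω‖ := by rw [h4]; exact norm_add_le _ _
        have h6 : ∀ x y : ℝ, 0 ≤ x → 0 ≤ y → (x + y) ^ q ≤ 2 ^ q * (x ^ q + y ^ q) := by
          intro x y hx hy
          rcases le_total x y with h | h
          · calc (x + y) ^ q ≤ (2 * y) ^ q := pow_le_pow_left₀ (by positivity) (by linarith) q
              _ = 2 ^ q * y ^ q := mul_pow _ _ _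
              _ ≤ _ := by have : 0 ≤ x ^ q := by positivity
                          nlinarith [pow_pos (show (0 : ℝ) < 2 by norm_num) q]
          · calc (x + y) ^ q ≤ (2 * x) ^ q := pow_le_pow_left₀ (by positivity) (by linarith) q
              _ = 2 ^ q * x ^ q := mul_pow _ _ _
              _ ≤ _ := by have : 0 ≤ y ^ q := by positivity
                          nlinarith [pow_pos (show (0 : ℝ) < 2 by norm_num) q]
        exact (pow_le_pow_left₀ (norm_nonneg _) h5 q).trans (h6 _ _ (norm_nonneg _) (norm_nonneg _))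
    refine h3.trans (le_of_eq ?_)
    rw [integral_const_mul, integral_add]
    · exact ((MM_cont hρ N).norm.pow q).continuousOn.integrableOn_compact (box_compact k _ _)
    · exact hDi q ω
  have hV0 : ∀ ω, 0 ≤ V ω := fun ω => integral_nonneg fun γ => by positivity
  have hV2 : ∀ ω, V ω ^ 2 ≤ ∫ γ, ‖DD X ρ N γ ω‖ ^ (2 * q) ∂μ := by
    intro ω
    have h3 := sq_integral_le (box_mass k) (hDi q ω) (by
      have := hDi (q * 2) ω
      simpa only [← pow_mul] using this)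
    refine h3.trans (le_of_eq ?_)
    congr 1
    ext γ
    rw [← pow_mul]; congr 1; ring
  have hjoint : Measurable (fun p : Ω × (Fin k → ℝ) => ‖DD X ρ N p.2 p.1‖ ^ (2 * q)) :=
    (((DD_meas X hρ hX N).comp measurable_swap).norm).pow_const _
  have hjb : ∀ ω (γ : Fin k → ℝ), ‖(‖DD X ρ N γ ω‖ ^ (2 * q))‖ ≤ (2 * N : ℝ) ^ (2 * q) := by
    intro ω γ
    rw [norm_pow, norm_norm]
    exact pow_le_pow_left₀ (norm_nonneg _) (DD_norm X hρ N γ ω) _
  have hji : Integrable (fun p : Ω × (Fin k → ℝ) => ‖DD X ρ N p.2 p.1‖ ^ (2 * q)) (P.prod μ) :=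
    Integrable.of_bound hjoint.aestronglyMeasurable _ (Filter.Eventually.of_forall fun p => hjb p.1 p.2)
  have hmeas2 : Measurable (fun ω => ∫ γ, ‖DD X ρ N γ ω‖ ^ (2 * q) ∂μ) :=
    (hjoint.stronglyMeasurable.integral_prod_right).measurable
  have hi2 : Integrable (fun ω => ∫ γ, ‖DD X ρ N γ ω‖ ^ (2 * q) ∂μ) P := hji.integral_prod_left
  have hEV : ∫ ω, ∫ γ, ‖DD X ρ N γ ω‖ ^ (2 * q) ∂μ ∂P ≤ C1 * (N : ℝ) ^ q := by
    rw [integral_integral_swap hji]
    have h3 : ∫ γ, ∫ ω, ‖DD X ρ N γ ω‖ ^ (2 * q) ∂P ∂μ ≤ ∫ γ, C1 * (N : ℝ) ^ q ∂μ := by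
      apply integral_mono
      · exact hji.integral_prod_right
      · exact integrable_const _
      · intro γ
        exact h1 k ρ c hρ Ω P X hX hind hlaw N γ
    refine h3.trans ?_
    rw [integral_const, smul_eq_mul]
    calc _ ≤ 1 * (C1 * (N : ℝ) ^ q) := mul_le_mul_of_nonneg_right (box_mass k) (by positivity)
      _ = _ := one_mul _
  have hfin : ∀ ω, WW k q N (fun n => X n ω) ^ 2 ≤
      4 ^ q * 2 * (a ^ 2 + ∫ γ, ‖DD X ρ N γ ω‖ ^ (2 * q) ∂μ) := by
    intro ω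
    calc WW k q N (fun n => X n ω) ^ 2 ≤ (2 ^ q * (a + V ω)) ^ 2 :=
          pow_le_pow_left₀ (WW_nonneg _ _ _ _) (hWV ω) 2
      _ = 4 ^ q * (a + V ω) ^ 2 := by
          rw [mul_pow, ← pow_mul, mul_comm q 2, pow_mul]; norm_num
      _ ≤ 4 ^ q * (2 * (a ^ 2 + V ω ^ 2)) := by
          apply mul_le_mul_of_nonneg_left _ (by positivity)
          nlinarith [sq_nonneg (a - V ω)]
      _ ≤ _ := by
          rw [mul_assoc]
          apply mul_le_mul_of_nonneg_left _ (by positivity)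
          linarith [hV2 ω]
  calc ∫ ω, WW k q N (fun n => X n ω) ^ 2 ∂P ≤
        ∫ ω, 4 ^ q * 2 * (a ^ 2 + ∫ γ, ‖DD X ρ N γ ω‖ ^ (2 * q) ∂μ) ∂P := by
        apply integral_mono
        · apply Integrable.of_bound ((WW_meas X hX k q N).pow_const 2).aestronglyMeasurable (((N : ℝ) ^ q) ^ 2)
          refine Filter.Eventually.of_forall fun ω => ?_
          rw [Real.norm_eq_abs, abs_of_nonneg (sq_nonneg _)]
          exact pow_le_pow_left₀ (WW_nonneg _ _ _ _) (WW_le _ _ _ _) 2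
        · exact ((integrable_const _).add hi2).const_mul _
        · exact hfin
    _ = 4 ^ q * 2 * (a ^ 2 + ∫ ω, ∫ γ, ‖DD X ρ N γ ω‖ ^ (2 * q) ∂μ ∂P) := by
        rw [integral_const_mul, integral_add (integrable_const _) hi2, integral_const]
        simp
    _ ≤ 4 ^ q * 2 * ((C2 * BB q k N) ^ 2 + C1 * BB q k N ^ 2) := by
        apply mul_le_mul_of_nonneg_left _ (by positivity)
        apply add_le_add
        · exact pow_le_pow_left₀ ha0 ha1 2
        · exact hEV.trans (mul_le_mul_of_nonneg_left (BB_sq q k N hN) hC1.le)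
    _ = _ := by ring

end Pool.Agent.U160.VP
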