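import Pool.Agent.U160.VP.GBas

set_option autoImplicit false

namespace Pool.Agent.U160.VP

open MeasureTheory ProbabilityTheory Finset

/-- `N^(q/2) + N^(q - k(k+1)/2)` -/
noncomputable def BB (q k N : ℕ) : ℝ :=
  (N : ℝ) ^ ((q : ℝ) / 2) + (N : ℝ) ^ ((q : ℝ) - (k : ℝ) * ((k : ℝ) + 1) / 2)

theorem AA_le_BB (q k N : ℕ) (hN : 1 ≤ N) : AA q k N ≤ BB q k N := by
  unfold AA BB
  have h1 : (1 : ℝ) ≤ N := by exact_mod_cast hN
  have h2 : (q : ℝ) * k / (2 * k + 1) ≤ (q : ℝ) / 2 := by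
    rw [div_le_div_iff₀ (by positivity) (by positivity)]
    have : (0 : ℝ) ≤ q := by positivity
    nlinarith [mul_nonneg this (Nat.cast_nonneg (α := ℝ) k)]
  have h3 := Real.rpow_le_rpow_of_exponent_le h1 h2
  linarith

theorem BB_pos (q k N : ℕ) (hN : 1 ≤ N) : 0 < BB q k N := by
  unfold BB
  have h1 : (0 : ℝ) < N := by exact_mod_cast hN
  positivity

theorem BB_sq (q k N : ℕ) (hN : 1 ≤ N) : (N : ℝ) ^ q ≤ BB q k N ^ 2 := by
  have h1 : (0 : ℝ) < N := by exact_mod_cast hN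
  have h2 : (N : ℝ) ^ q = ((N : ℝ) ^ ((q : ℝ) / 2)) ^ 2 := by
    rw [← Real.rpow_natCast, ← Real.rpow_natCast, ← Real.rpow_mul h1.le]
    congr 1; push_cast; ring
  rw [h2]
  apply pow_le_pow_left₀ (by positivity)
  unfold BB
  have : 0 < (N : ℝ) ^ ((q : ℝ) - (k : ℝ) * ((k : ℝ) + 1) / 2) := by positivity
  linarith

theorem BB_step (s k N : ℕ) (hs : 1 ≤ s) (hN : 1 ≤ N) :
    BB (2 * s - 1) k N ≤ (N : ℝ) ^ (-(1 / 2) : ℝ) * BB (2 * s) k N := by
  have h1 : (0 : ℝ) < N := by exact_mod_cast hN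
  have h1' : (1 : ℝ) ≤ N := by exact_mod_cast hN
  unfold BB
  rw [mul_add ((N : ℝ) ^ (-(1 / 2) : ℝ)), ← Real.rpow_add h1, ← Real.rpow_add h1]
  have h2 : ((2 * s - 1 : ℕ) : ℝ) = 2 * (s : ℝ) - 1 := by
    rw [Nat.cast_sub (by omega)]; push_cast; ring
  rw [h2]
  push_cast
  apply add_le_add
  · exact le_of_eq (by congr 1; ring)
  · apply Real.rpow_le_rpow_of_exponent_le h1'
    linarith

/-- mean of a function of `X n` -/
theorem mean_ee {k : ℕ} {ρ : ℝ → ℝ} {c : ℤ → ℂ} (hρ : Dens ρ c) {Ω : Type} [MeasurableSpace Ω] {P : Measure Ω}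
    {Z : Ω → ℝ} (hZ : Measurable Z) (hlaw : P.map Z = law ρ) (n : ℕ) (γ : Fin k → ℝ) :
    ∫ ω, ee (ph γ ((n : ℝ) + Z ω)) ∂P = zz ρ n γ := by
  have hc : Continuous (fun x : ℝ => ee (ph γ ((n : ℝ) + x))) := by
    have h1 : Continuous (fun x : ℝ => (γ, (n : ℝ) + x)) := by fun_prop
    exact continuous_ee.comp ((continuous_ph k).comp h1)
  have h1 : ∫ ω, ee (ph γ ((n : ℝ) + Z ω)) ∂P = ∫ x, ee (ph γ ((n : ℝ) + x)) ∂(P.map Z) := by
    rw [integral_map hZ.aemeasurable hc.aestronglyMeasurable]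
  rw [h1, hlaw]
  unfold law zz
  rw [integral_withDensity_eq_integral_toReal_smul (hρ.meas.ennreal_ofReal) (Filter.Eventually.of_forall fun x => ENNReal.ofReal_lt_top)]
  congr 1
  ext x
  rw [ENNReal.toReal_ofReal (hρ.nonneg x)]
  simp

section

variable {Ω : Type} [MeasurableSpace Ω] (P : Measure Ω) [IsProbabilityMeasure P] (X : ℕ → Ω → ℝ)

/-- the deviation -/
noncomputable def DD {k : ℕ} (ρ : ℝ → ℝ) (N : ℕ) (γ : Fin k → ℝ) (ω : Ω) : ℂ :=
  SS (fun n => X n ω) N γ - MM ρ N γ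

theorem zz_cont {k : ℕ} {ρ : ℝ → ℝ} {c : ℤ → ℂ} (hρ : Dens ρ c) (n : ℕ) :
    Continuous (fun γ : Fin k → ℝ => zz ρ n γ) := by
  unfold zz
  have hi : Integrable (fun u => ρ u) (volume.restrict (Set.Icc (0 : ℝ) 1)) := by
    by_contra h
    have := hρ.mass
    rw [integral_undef h] at this
    norm_num at this
  apply continuous_of_dominated (bound := fun u => ρ u)
  · intro γ
    refine (Complex.measurable_ofReal.comp hρ.meas).aestronglyMeasurable.mul ?_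
    have h1 : Continuous (fun x : ℝ => (γ, (n : ℝ) + x)) := by fun_prop
    exact (continuous_ee.comp ((continuous_ph k).comp h1)).aestronglyMeasurable
  · intro γ
    refine Filter.Eventually.of_forall fun u => ?_
    rw [norm_mul, norm_ee, mul_one, Complex.norm_real, Real.norm_eq_abs, abs_of_nonneg (hρ.nonneg u)]
  · exact hi
  · refine Filter.Eventually.of_forall fun u => ?_
    have h1 : Continuous (fun γ : Fin k → ℝ => (γ, (n : ℝ) + u)) := by fun_prop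
    exact continuous_const.mul (continuous_ee.comp ((continuous_ph k).comp h1))

theorem zz_norm {k : ℕ} {ρ : ℝ → ℝ} {c : ℤ → ℂ} (hρ : Dens ρ c) (n : ℕ) (γ : Fin k → ℝ) : ‖zz ρ n γ‖ ≤ 1 := by
  unfold zz
  refine (norm_integral_le_integral_norm _).trans (le_of_eq ?_)
  refine Eq.trans ?_ hρ.mass
  refine integral_congr_ae (Filter.Eventually.of_forall fun u => ?_)
  show ‖(ρ u : ℂ) * ee (ph γ ((n : ℝ) + u))‖ = ρ u
  rw [norm_mul, norm_ee, mul_one, Complex.norm_real, Real.norm_eq_abs, abs_of_nonneg (hρ.nonneg u)]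

theorem MM_cont {k : ℕ} {ρ : ℝ → ℝ} {c : ℤ → ℂ} (hρ : Dens ρ c) (N : ℕ) :
    Continuous (fun γ : Fin k → ℝ => MM ρ N γ) := by
  unfold MM
  exact continuous_finsetSum _ fun n _ => zz_cont hρ n

theorem SS_norm {k : ℕ} (θ : ℕ → ℝ) (N : ℕ) (γ : Fin k → ℝ) : ‖SS θ N γ‖ ≤ N := by
  unfold SS
  refine (norm_sum_le _ _).trans ?_
  simp only [norm_ee, sum_const, Nat.card_Icc, nsmul_eq_mul, mul_one]
  simp

theorem MM_norm {k : ℕ} {ρ : ℝ → ℝ} {c : ℤ → ℂ} (hρ : Dens ρ c) (N : ℕ) (γ : Fin k → ℝ) : ‖MM ρ N γ‖ ≤ N := by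
  unfold MM
  refine (norm_sum_le _ _).trans ?_
  refine (sum_le_sum fun n _ => zz_norm hρ n γ).trans ?_
  simp

theorem SS_meas {k : ℕ} (hX : ∀ n, Measurable (X n)) (N : ℕ) :
    Measurable (fun q : (Fin k → ℝ) × Ω => SS (fun n => X n q.2) N q.1) := by
  unfold SS
  refine Finset.measurable_sum _ fun n _ => ?_
  have h1 : Measurable (fun q : (Fin k → ℝ) × Ω => (q.1, (n : ℝ) + X n q.2)) := by
    refine Measurable.prodMk measurable_fst ?_
    exact ((hX n).comp measurable_snd).const_add _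
  exact (continuous_ee.measurable.comp ((continuous_ph k).measurable)).comp h1

theorem DD_meas {k : ℕ} {ρ : ℝ → ℝ} {c : ℤ → ℂ} (hρ : Dens ρ c) (hX : ∀ n, Measurable (X n)) (N : ℕ) :
    Measurable (fun q : (Fin k → ℝ) × Ω => DD X ρ N q.1 q.2) := by
  unfold DD
  exact (SS_meas X hX N).sub ((MM_cont hρ N).measurable.comp measurable_fst)

theorem DD_norm {k : ℕ} {ρ : ℝ → ℝ} {c : ℤ → ℂ} (hρ : Dens ρ c) (N : ℕ) (γ : Fin k → ℝ) (ω : Ω) :
    ‖DD X ρ N γ ω‖ ≤ 2 * N := by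
  unfold DD
  refine (norm_sub_le _ _).trans ?_
  linarith [SS_norm (fun n => X n ω) N γ, MM_norm hρ N γ]

/-- moments of the deviation -/
theorem DD_moment (hF3 : S_F3) (m : ℕ) : ∃ C : ℝ, 0 < C ∧ ∀ (k : ℕ) (ρ : ℝ → ℝ) (c : ℤ → ℂ), Dens ρ c →
    ∀ (Ω : Type) [MeasurableSpace Ω] (P : Measure Ω) [IsProbabilityMeasure P] (X : ℕ → Ω → ℝ),
    (∀ n, Measurable (X n)) → iIndepFun X P → (∀ n, P.map (X n) = law ρ) →
    ∀ (N : ℕ) (γ : Fin k → ℝ), ∫ ω, ‖DD X ρ N γ ω‖ ^ (2 * m) ∂P ≤ C * (N : ℝ) ^ m := by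
  obtain ⟨C, hC0, hC⟩ := hF3 m
  refine ⟨C, hC0, ?_⟩
  intro k ρ c hρ Ω _ P _ X hX hind hlaw N γ
  have hg : ∀ n : ℕ, Measurable (fun x : ℝ => ee (ph γ ((n : ℝ) + x))) := by
    intro n
    have h1 : Continuous (fun x : ℝ => (γ, (n : ℝ) + x)) := by fun_prop
    exact (continuous_ee.comp ((continuous_ph k).comp h1)).measurable
  have h := hC Ω P (fun n ω => ee (ph γ ((n : ℝ) + X n ω))) (fun n => (hg n).comp (hX n))
    (hind.comp (fun n x => ee (ph γ ((n : ℝ) + x))) hg) (fun n ω => (norm_ee _).le) (Finset.Icc 1 N)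
  rw [Nat.card_Icc, Nat.add_sub_cancel] at h
  refine (le_of_eq ?_).trans h
  congr 1
  ext ω
  rw [sum_sub_distrib]
  unfold DD SS MM
  congr 3
  refine sum_congr rfl fun n _ => ?_
  exact (mean_ee hρ (hX n) (hlaw n) n γ).symm

/-- the square of an integral over a set of measure at most one -/
theorem sq_integral_le {α : Type*} [MeasurableSpace α] {μ : Measure α} [IsFiniteMeasure μ] (hμ : μ.real Set.univ ≤ 1)
    {f : α → ℝ} (hf : Integrable f μ) (hf2 : Integrable (fun x => f x ^ 2) μ) :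
    (∫ x, f x ∂μ) ^ 2 ≤ ∫ x, f x ^ 2 ∂μ := by
  set a := ∫ x, f x ∂μ with ha
  have h0 : 0 ≤ ∫ x, (f x - a) ^ 2 ∂μ := integral_nonneg fun x => sq_nonneg _
  have h1 : ∫ x, (f x - a) ^ 2 ∂μ = ∫ x, f x ^ 2 ∂μ - 2 * a * a + a ^ 2 * μ.real Set.univ := by
    have h2 : ∀ x, (f x - a) ^ 2 = f x ^ 2 - 2 * a * f x + a ^ 2 := fun x => by ring
    simp_rw [h2]
    have h3 : Integrable (fun x => f x ^ 2 - 2 * a * f x) μ := hf2.sub (hf.const_mul _)
    rw [integral_add h3 (integrable_const _), integral_sub hf2 (hf.const_mul _),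
      integral_const_mul, integral_const, smul_eq_mul, ← ha]
    ring
  rw [h1] at h0
  nlinarith [sq_nonneg a, mul_nonneg (sq_nonneg a) (sub_nonneg.2 hμ)]

theorem box_mass (k : ℕ) : (volume.restrict (box k 0 (1 / 8))).real Set.univ ≤ 1 := by
  rw [measureReal_restrict_apply_univ]
  unfold box
  rw [measureReal_def, Real.volume_Icc_pi, ENNReal.toReal_prod]
  apply prod_le_one
  · intro i _; exact ENNReal.toReal_nonneg
  · intro i _
    simp only [Pi.zero_apply]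
    rw [ENNReal.toReal_ofReal (by norm_num)]
    norm_num

end

end Pool.Agent.U160.VP
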