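import Pool.Agent.U160.VP.GMom

set_option autoImplicit false

namespace Pool.Agent.U160.VP

open MeasureTheory ProbabilityTheory Finset

/-- the event of a pair of tuples -/
def Ev (k : ℕ) {s : ℕ} (p : (Fin s → ℕ) × (Fin s → ℕ)) : Set (ℕ → ℝ) := {x | ∀ j : Fin k, |dif x p j| < 1}

theorem dif_meas {s : ℕ} (p : (Fin s → ℕ) × (Fin s → ℕ)) (j : ℕ) : Measurable (fun x : ℕ → ℝ => dif x p j) := by
  unfold dif
  fun_prop

theorem Ev_meas (k : ℕ) {s : ℕ} (p : (Fin s → ℕ) × (Fin s → ℕ)) : MeasurableSet (Ev k p) := by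
  unfold Ev
  rw [Set.ofPred_forall]
  refine MeasurableSet.iInter fun j => ?_
  exact measurableSet_lt (dif_meas p j).abs measurable_const

theorem Ev_dep (k : ℕ) {s : ℕ} (p : (Fin s → ℕ) × (Fin s → ℕ)) (x y : ℕ → ℝ) (h : ∀ n ∈ supp p, x n = y n) :
    x ∈ Ev k p ↔ y ∈ Ev k p := by
  have h1 : ∀ j, dif x p j = dif y p j := by
    intro j
    unfold dif
    congr 1
    · refine sum_congr rfl fun i _ => ?_
      rw [h _ (by unfold supp; exact mem_union_left _ (mem_image_of_mem _ (mem_univ i)))]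
    · refine sum_congr rfl fun i _ => ?_
      rw [h _ (by unfold supp; exact mem_union_right _ (mem_image_of_mem _ (mem_univ i)))]
  unfold Ev
  simp only [Set.mem_ofPred_eq, h1]

open scoped Classical in
theorem J_eq (θ : ℕ → ℝ) (s k N : ℕ) :
    (J θ s k N : ℝ) = ∑ p ∈ pairs s N, (Ev k p).indicator (fun _ => (1 : ℝ)) θ := by
  unfold J
  rw [card_filter]
  push_cast
  refine sum_congr rfl fun p _ => ?_
  by_cases h : ∀ j : Fin k, |dif θ p j| < 1
  · rw [if_pos h, Set.indicator_of_mem (show θ ∈ Ev k p from h)]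
  · rw [if_neg h, Set.indicator_of_notMem (show θ ∉ Ev k p from h)]

open scoped Classical in
/-- the number of solutions with the number `m` -/
noncomputable def RR (θ : ℕ → ℝ) (s k N m : ℕ) : ℕ :=
  ((pairs s N).filter fun p => (∀ j : Fin k, |dif θ p j| < 1) ∧ m ∈ supp p).card

open scoped Classical in
theorem RR_eq (θ : ℕ → ℝ) (s k N m : ℕ) :
    (RR θ s k N m : ℝ) = ∑ p ∈ pairs s N with m ∈ supp p, (Ev k p).indicator (fun _ => (1 : ℝ)) θ := by
  unfold RR
  rw [sum_filter, card_filter]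
  push_cast
  refine sum_congr rfl fun p _ => ?_
  by_cases h : ∀ j : Fin k, |dif θ p j| < 1
  · rw [Set.indicator_of_mem (show θ ∈ Ev k p from h)]
    simp only [h, implies_true, true_and]
  · rw [Set.indicator_of_notMem (show θ ∉ Ev k p from h)]
    simp [h]

theorem pairs_supp {s N : ℕ} {p : (Fin s → ℕ) × (Fin s → ℕ)} (hp : p ∈ pairs s N) : supp p ⊆ Finset.Icc 1 N := by
  intro m hm
  simp only [pairs, mem_product, Fintype.mem_piFinset] at hp
  simp only [supp, mem_union, mem_image, mem_univ, true_and] at hm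
  rcases hm with ⟨i, rfl⟩ | ⟨i, rfl⟩
  · exact hp.1 i
  · exact hp.2 i

theorem J_mono (θ : ℕ → ℝ) (s k : ℕ) {N M : ℕ} (h : N ≤ M) : J θ s k N ≤ J θ s k M := by
  classical
  unfold J
  apply card_le_card
  apply filter_subset_filter
  intro p hp
  simp only [pairs, mem_product, Fintype.mem_piFinset] at hp ⊢
  exact ⟨fun i => Icc_subset_Icc_right h (hp.1 i), fun i => Icc_subset_Icc_right h (hp.2 i)⟩

theorem ND_mono (θ : ℕ → ℝ) (s k : ℕ) {N M : ℕ} (h : N ≤ M) : ND θ s k N ≤ ND θ s k M := by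
  classical
  unfold ND
  apply card_le_card
  apply filter_subset_filter
  intro p hp
  simp only [pairs, mem_product, Fintype.mem_piFinset] at hp ⊢
  exact ⟨fun i => Icc_subset_Icc_right h (hp.1 i), fun i => Icc_subset_Icc_right h (hp.2 i)⟩

theorem J_bd (θ : ℕ → ℝ) (s k N : ℕ) : (J θ s k N : ℝ) ≤ (pairs s N).card := by
  classical
  unfold J
  exact_mod_cast card_filter_le _ _

/-- Markov for a bounded variable and its square -/
theorem tail_J (hC : S_C) (hD : S_D) (hF1 : S_F1) (hF3 : S_F3) {ρ : ℝ → ℝ} {c : ℤ → ℂ} (hρ : Dens ρ c) (s k : ℕ)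
    (hs : 1 ≤ s) (hk : 1 ≤ k) : ∃ C : ℝ, 0 < C ∧ ∀ (Ω : Type) [MeasurableSpace Ω] (P : Measure Ω)
    [IsProbabilityMeasure P] (X : ℕ → Ω → ℝ),
    (∀ n, Measurable (X n)) → iIndepFun X P → (∀ n, P.map (X n) = law ρ) → ∀ N : ℕ, 1 ≤ N →
      P.real {ω | C * BB (2 * s) k N ≤ (J (fun n => X n ω) s k N : ℝ)} ≤ C * (N : ℝ) ^ (-(1 / 2) : ℝ) := by
  classical
  obtain ⟨c0, hc0, hc⟩ := hC k
  obtain ⟨C1, hC1, h1⟩ := WW_bound hF3 hD hρ k (2 * s - 1) hk
  obtain ⟨C2, hC2, h2⟩ := WW_bound hF3 hD hρ k (2 * s) hk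
  set C3 : ℝ := Real.sqrt C2 / c0 + 1 with hC3
  set C4 : ℝ := (2 * s / c0) * (2 * s / c0) * ((C1 + C2) / 2) with hC4
  have hs0 : (0 : ℝ) < s := by exact_mod_cast hs
  refine ⟨C3 + C4, by positivity, ?_⟩
  intro Ω _ P _ X hX hind hlaw N hN
  have hN0 : (0 : ℝ) < N := by exact_mod_cast hN
  set Y : Ω → ℝ := fun ω => (J (fun n => X n ω) s k N : ℝ) with hY
  have hXm : Measurable (fun ω => (fun n => X n ω)) := measurable_pi_iff.2 hX
  have hYe : ∀ ω, Y ω = ∑ p ∈ pairs s N, (Ev k p).indicator (fun _ => (1 : ℝ)) (fun n => X n ω) :=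
    fun ω => J_eq _ _ _ _
  have hYm : Measurable Y := by
    have : Y = fun ω => ∑ p ∈ pairs s N, (Ev k p).indicator (fun _ => (1 : ℝ)) (fun n => X n ω) := funext hYe
    rw [this]
    refine Finset.measurable_sum _ fun p _ => ?_
    exact (measurable_const.indicator (Ev_meas k p)).comp hXm
  have hY0 : ∀ ω, 0 ≤ Y ω := fun ω => by positivity
  have hYb : ∀ ω, Y ω ≤ (pairs s N).card := fun ω => J_bd _ _ _ _
  have hYi : Integrable Y P := Integrable.of_bound hYm.aestronglyMeasurable ((pairs s N).card : ℝ)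
    (Filter.Eventually.of_forall fun ω => by rw [Real.norm_eq_abs, abs_of_nonneg (hY0 ω)]; exact hYb ω)
  have hYi2 : Integrable (fun ω => Y ω ^ 2) P := Integrable.of_bound (hYm.pow_const 2).aestronglyMeasurable
    (((pairs s N).card : ℝ) ^ 2) (Filter.Eventually.of_forall fun ω => by
      rw [Real.norm_eq_abs, abs_of_nonneg (sq_nonneg _)]; exact pow_le_pow_left₀ (hY0 ω) (hYb ω) 2)
  set W1 : Ω → ℝ := fun ω => WW k (2 * s - 1) N (fun n => X n ω) with hW1
  set W2 : Ω → ℝ := fun ω => WW k (2 * s) N (fun n => X n ω) with hW2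
  have hW1m : Measurable W1 := WW_meas X hX k _ N
  have hW2m : Measurable W2 := WW_meas X hX k _ N
  have hW1i : Integrable (fun ω => W1 ω ^ 2) P := Integrable.of_bound (hW1m.pow_const 2).aestronglyMeasurable
    (((N : ℝ) ^ (2 * s - 1)) ^ 2) (Filter.Eventually.of_forall fun ω => by
      rw [Real.norm_eq_abs, abs_of_nonneg (sq_nonneg _)]; exact pow_le_pow_left₀ (WW_nonneg _ _ _ _) (WW_le _ _ _ _) 2)
  have hW2i : Integrable (fun ω => W2 ω ^ 2) P := Integrable.of_bound (hW2m.pow_const 2).aestronglyMeasurable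
    (((N : ℝ) ^ (2 * s)) ^ 2) (Filter.Eventually.of_forall fun ω => by
      rw [Real.norm_eq_abs, abs_of_nonneg (sq_nonneg _)]; exact pow_le_pow_left₀ (WW_nonneg _ _ _ _) (WW_le _ _ _ _) 2)
  have hW2i1 : Integrable W2 P := Integrable.of_bound hW2m.aestronglyMeasurable
    (((N : ℝ) ^ (2 * s))) (Filter.Eventually.of_forall fun ω => by
      rw [Real.norm_eq_abs, abs_of_nonneg (WW_nonneg _ _ _ _)]; exact WW_le _ _ _ _)
  set A := BB (2 * s) k N with hA
  set A1 := BB (2 * s - 1) k N with hA1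
  have hA0 : 0 < A := BB_pos _ _ _ hN
  have hA10 : 0 < A1 := BB_pos _ _ _ hN
  -- the mean
  set a : ℝ := ∫ ω, Y ω ∂P with ha
  have hYW : ∀ ω, c0 * Y ω ≤ W2 ω := fun ω => J_le hc _
  have haA : a ≤ (Real.sqrt C2 / c0) * A := by
    have h3 : c0 * a ≤ ∫ ω, W2 ω ∂P := by
      rw [ha, ← integral_const_mul]
      exact integral_mono (hYi.const_mul _) hW2i1 hYW
    have h4 : (∫ ω, W2 ω ∂P) ^ 2 ≤ C2 * A ^ 2 :=
      (sq_integral_le (by simp) hW2i1 hW2i).trans (h2 Ω P X hX hind hlaw N hN)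
    have h5 : ∫ ω, W2 ω ∂P ≤ Real.sqrt C2 * A := by
      refine (pow_le_pow_iff_left₀ (integral_nonneg fun ω => WW_nonneg _ _ _ _) (by positivity) two_ne_zero).1 ?_
      rw [mul_pow, Real.sq_sqrt hC2.le]
      exact h4
    rw [div_mul_eq_mul_div, le_div_iff₀ hc0]
    linarith
  -- the variance
  have hsecond : ∫ ω, Y ω ^ 2 ∂P ≤ a ^ 2 + ∫ ω, ∑ m ∈ Finset.Icc 1 N, (RR (fun n => X n ω) s k N m : ℝ) ^ 2 ∂P := by
    have h3 := hF1 Ω P X hX hind _ (pairs s N) supp (fun p => Ev k p) (Finset.Icc 1 N)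
      (fun p _ => Ev_meas k p) (fun p hp => pairs_supp hp) (fun p _ x y h => Ev_dep k p x y h)
    simp_rw [← J_eq] at h3
    refine h3.trans (le_of_eq ?_)
    congr 1
    congr 1
    ext ω
    refine sum_congr rfl fun m _ => ?_
    rw [RR_eq]
  have hRle : ∀ ω, ∑ m ∈ Finset.Icc 1 N, (RR (fun n => X n ω) s k N m : ℝ) ^ 2 ≤
      (2 * s / c0) * (2 * s / c0) * (W1 ω * W2 ω) := by
    intro ω
    have h3 : ∀ m, (RR (fun n => X n ω) s k N m : ℝ) ≤ (2 * s / c0) * W1 ω := by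
      intro m
      have h4 := R_le (N := N) (s := s) hc0 hc (fun n => X n ω) m
      rw [div_mul_eq_mul_div, le_div_iff₀ hc0, mul_comm]
      refine (le_of_eq ?_).trans h4
      unfold RR
      rfl
    have h4 : ∑ m ∈ Finset.Icc 1 N, (RR (fun n => X n ω) s k N m : ℝ) ≤ 2 * s * Y ω := by
      refine (le_of_eq ?_).trans (sum_R_le (k := k) (s := s) (N := N) (fun n => X n ω))
      unfold RR
      rfl
    have h5 : Y ω ≤ W2 ω / c0 := by
      rw [le_div_iff₀ hc0, mul_comm]; exact hYW ω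
    calc ∑ m ∈ Finset.Icc 1 N, (RR (fun n => X n ω) s k N m : ℝ) ^ 2 ≤
          ∑ m ∈ Finset.Icc 1 N, ((2 * s / c0) * W1 ω) * (RR (fun n => X n ω) s k N m : ℝ) := by
          refine sum_le_sum fun m _ => ?_
          rw [sq]
          exact mul_le_mul_of_nonneg_right (h3 m) (by positivity)
      _ = ((2 * s / c0) * W1 ω) * ∑ m ∈ Finset.Icc 1 N, (RR (fun n => X n ω) s k N m : ℝ) := by rw [mul_sum]
      _ ≤ ((2 * s / c0) * W1 ω) * (2 * s * (W2 ω / c0)) := by
          have hW10 : 0 ≤ W1 ω := WW_nonneg _ _ _ _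
          apply mul_le_mul_of_nonneg_left _ (by positivity)
          exact h4.trans (mul_le_mul_of_nonneg_left h5 (by positivity))
      _ = _ := by ring
  have hprod : ∀ ω, W1 ω * W2 ω ≤ (A / A1 * W1 ω ^ 2 + A1 / A * W2 ω ^ 2) / 2 := by
    intro ω
    have h3 : 0 ≤ (A * W1 ω - A1 * W2 ω) ^ 2 / (A * A1) := by positivity
    have h4 : (A * W1 ω - A1 * W2 ω) ^ 2 / (A * A1) = A / A1 * W1 ω ^ 2 + A1 / A * W2 ω ^ 2 - 2 * (W1 ω * W2 ω) := by
      field_simp
      ring
    linarith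
  have hRR : ∫ ω, ∑ m ∈ Finset.Icc 1 N, (RR (fun n => X n ω) s k N m : ℝ) ^ 2 ∂P ≤ C4 * (A1 * A) := by
    calc _ ≤ ∫ ω, (2 * s / c0) * (2 * s / c0) * ((A / A1 * W1 ω ^ 2 + A1 / A * W2 ω ^ 2) / 2) ∂P := by
          apply integral_mono_of_nonneg
          · exact Filter.Eventually.of_forall fun ω => sum_nonneg fun m _ => sq_nonneg _
          · exact ((((hW1i.const_mul _).add (hW2i.const_mul _)).div_const 2).const_mul _)
          · exact Filter.Eventually.of_forall fun ω => (hRle ω).trans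
              (mul_le_mul_of_nonneg_left (hprod ω) (by positivity))
      _ = (2 * s / c0) * (2 * s / c0) * ((A / A1 * ∫ ω, W1 ω ^ 2 ∂P) + (A1 / A * ∫ ω, W2 ω ^ 2 ∂P)) / 2 := by
          rw [integral_const_mul, integral_div, integral_add (hW1i.const_mul _) (hW2i.const_mul _),
            integral_const_mul, integral_const_mul]
          ring
      _ ≤ (2 * s / c0) * (2 * s / c0) * ((A / A1 * (C1 * A1 ^ 2)) + (A1 / A * (C2 * A ^ 2))) / 2 := by
          apply div_le_div_of_nonneg_right _ (by norm_num)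
          apply mul_le_mul_of_nonneg_left _ (by positivity)
          apply add_le_add
          · exact mul_le_mul_of_nonneg_left (h1 Ω P X hX hind hlaw N hN) (by positivity)
          · exact mul_le_mul_of_nonneg_left (h2 Ω P X hX hind hlaw N hN) (by positivity)
      _ = C4 * (A1 * A) := by rw [hC4]; field_simp
  have hvar : ∫ ω, (Y ω - a) ^ 2 ∂P ≤ C4 * (A1 * A) := by
    have h3 : ∀ ω, (Y ω - a) ^ 2 = Y ω ^ 2 - 2 * a * Y ω + a ^ 2 := fun ω => by ring
    simp_rw [h3]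
    have h4 : Integrable (fun ω => Y ω ^ 2 - 2 * a * Y ω) P := hYi2.sub (hYi.const_mul _)
    rw [integral_add h4 (integrable_const _), integral_sub hYi2 (hYi.const_mul _), integral_const_mul, integral_const,
      ← ha]
    simp only [probReal_univ, one_smul]
    nlinarith [hsecond, hRR]
  have hYai : Integrable (fun ω => (Y ω - a) ^ 2) P := by
    have h3 : ∀ ω, (Y ω - a) ^ 2 = Y ω ^ 2 - 2 * a * Y ω + a ^ 2 := fun ω => by ring
    simp_rw [h3]
    exact (hYi2.sub (hYi.const_mul _)).add (integrable_const _)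
  have hmark := mul_meas_ge_le_integral_of_nonneg (μ := P) (f := fun ω => (Y ω - a) ^ 2)
    (Filter.Eventually.of_forall fun ω => sq_nonneg _) hYai (A ^ 2)
  have hsub : P.real {ω | (C3 + C4) * A ≤ Y ω} ≤ P.real {ω | A ^ 2 ≤ (Y ω - a) ^ 2} := by
    refine measureReal_mono (fun ω hω => ?_) (measure_ne_top _ _)
    simp only [Set.mem_ofPred_eq] at hω ⊢
    have h3 : A ≤ Y ω - a := by
      have : 0 ≤ C4 * A := by positivity
      rw [hC3] at hω
      nlinarith
    exact pow_le_pow_left₀ hA0.le h3 2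
  refine hsub.trans ?_
  have h6 : P.real {ω | A ^ 2 ≤ (Y ω - a) ^ 2} ≤ C4 * (A1 * A) / A ^ 2 := by
    rw [le_div_iff₀ (by positivity), mul_comm]
    exact hmark.trans hvar
  refine h6.trans ?_
  have h7 : A1 ≤ (N : ℝ) ^ (-(1 / 2) : ℝ) * A := BB_step s k N hs hN
  have h8 : C4 * (A1 * A) / A ^ 2 = C4 * (A1 / A) := by field_simp
  rw [h8]
  have h9 : A1 / A ≤ (N : ℝ) ^ (-(1 / 2) : ℝ) := by rw [div_le_iff₀ hA0]; exact h7
  have h10 : 0 ≤ (N : ℝ) ^ (-(1 / 2) : ℝ) := by positivity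
  calc C4 * (A1 / A) ≤ C4 * (N : ℝ) ^ (-(1 / 2) : ℝ) := mul_le_mul_of_nonneg_left h9 (by positivity)
    _ ≤ (C3 + C4) * (N : ℝ) ^ (-(1 / 2) : ℝ) := by
      apply mul_le_mul_of_nonneg_right _ h10
      have : 0 ≤ C3 := by positivity
      linarith

end Pool.Agent.U160.VP
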