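import Mathlib

set_option autoImplicit false

namespace Pool.Agent.U160.VP

open MeasureTheory

/-- package Q: the quantile function; every probability measure on the line is the image of Lebesgue measure
on `[0,1]` under a measurable function; if the measure is carried by `[0, δ]` the function can be taken with
values in `[0, δ]` -/
def S_Q : Prop := ∀ (ν : Measure ℝ) [IsProbabilityMeasure ν] (δ : ℝ), 0 ≤ δ → ν (Set.Icc 0 δ)ᶜ = 0 →
  ∃ G : ℝ → ℝ, Measurable G ∧ (∀ u, 0 ≤ G u ∧ G u ≤ δ) ∧
    Measure.map G ((volume : Measure ℝ).restrict (Set.Icc 0 1)) = ν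

end Pool.Agent.U160.VP
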