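import Pool.Agent.U160.VP.Poly
import Pool.Agent.U160.VP.Stm3

set_option autoImplicit false

namespace Pool.Agent.U160.VP

open MeasureTheory ProbabilityTheory Finset Filter

theorem kind_comp {r : ℕ} {Ω : Type} [MeasurableSpace Ω] (P : Measure Ω) (X : ℕ → Ω → ℝ) (ν ν' : Measure ℝ)
    [IsProbabilityMeasure ν] (hX : ∀ n, Measurable (X n)) (h : KInd r P X ν) (G : ℝ → ℝ) (hG : Measurable G)
    (hν : ν.map G = ν') : KInd r P (fun n ω => G (X n ω)) ν' := by
  intro S hS hc
  have h1 := h S hS hc
  have h2 : (fun ω (i : S) => G (X i ω)) = (fun (y : S → ℝ) (i : S) => G (y i)) ∘ (fun ω (i : S) => X i ω) := by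
    ext ω i; rfl
  have hm : Measurable (fun (y : S → ℝ) (i : S) => G (y i)) := measurable_pi_iff.2 fun i => hG.comp (measurable_pi_apply i)
  rw [h2, ← Measure.map_map hm (measurable_pi_iff.2 fun i => hX _), h1, ← hν]
  exact Measure.pi_map_pi (fun _ => hG.aemeasurable)

/-- almost every polynomial, with a function of the fractional part -/
theorem main_poly2 {ρ : ℝ → ℝ} {c : ℤ → ℂ} (hρ : Dens ρ c) (G : ℝ → ℝ) (hG : Measurable G)
    (hGρ : Measure.map G ((volume : Measure ℝ).restrict (Set.Icc 0 1)) = law ρ) (r : ℕ) :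
    ∀ᵐ x : Fin r → ℝ, ∀ s : ℕ, 1 ≤ s → 4 * s ≤ r → Concl (fun n => G (frac x n)) s := by
  rw [ae_all_iff]
  intro s
  by_cases hs : 1 ≤ s
  · by_cases hr : 4 * s ≤ r
    · have h1 := t_R2 r (fun θ => Concl (fun n => G (θ n)) s) (by
        have := cube_prob r
        have hp : IsProbabilityMeasure (law (fun _ => 1)) := law_prob dens_one
        refine main_kind hρ s hs (Fin r → ℝ) (volume.restrict (cube r)) (fun n x => G (frac x n))
          (fun n => hG.comp (frac_meas n)) ?_
        refine kind_comp (volume.restrict (cube r)) (fun n x => frac x n) (law (fun _ => 1)) (law ρ)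
          (fun n => frac_meas n) (frac_kind r (4 * s) hr) G hG ?_
        rw [law_one]; exact hGρ)
      filter_upwards [h1] with x hx _ _ using hx
    · exact Eventually.of_forall fun x _ h => absurd h hr
  · exact Eventually.of_forall fun x h => absurd h hs

end Pool.Agent.U160.VP
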