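import Mathlib

set_option autoImplicit false

/-!
# Project VP: Vinogradov's mean value without the epsilon for almost every perturbation of the integers

Statements of the packages. Every `S_X` is a `Prop`; package `X` proves `theorem t_X : ... → S_X`
(the arrows are the statements which may be used as hypotheses).

THEOREM. Let `ρ` be a density on `[0,1]` with an absolutely summable Fourier series (the uniform law; there are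
such densities with support in `[0,δ]` for every `δ > 0`), `θ n` independent with density `ρ`. For almost every
`θ`, for all `s, k ≥ 1`: the number `J` of pairs of `s`-tuples in `[1,N]` with
`|∑ (x_i + θ(x_i))^j - ∑ (y_i + θ(y_i))^j| < 1`, `1 ≤ j ≤ k`, satisfies
`c (N^s + N^(2s-k(k+1)/2)) ≤ J ≤ C (N^s + N^(2s-k(k+1)/2))` for all `N`, and for `s < k(k+1)/2` the number of
non-diagonal ones is at most `C N^(s-η)`.
-/

namespace Pool.Agent.U160.VP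

open MeasureTheory ProbabilityTheory Finset

noncomputable section

/-- `e(x) = exp(2 π i x)` -/
def ee (x : ℝ) : ℂ := Complex.exp (2 * (Real.pi : ℂ) * Complex.I * (x : ℂ))

/-- `α_1 x + ... + α_k x^k` -/
def ph {k : ℕ} (α : Fin k → ℝ) (x : ℝ) : ℝ := ∑ j : Fin k, α j * x ^ (j.val + 1)

/-- the box with centre `v` and half side `r` -/
def box (k : ℕ) (v : Fin k → ℝ) (r : ℝ) : Set (Fin k → ℝ) := Set.Icc (fun j => v j - r) (fun j => v j + r)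

/-- `N^(p k/(2k+1)) + N^(p - k(k+1)/2)` -/
def AA (p k N : ℕ) : ℝ :=
  (N : ℝ) ^ ((p : ℝ) * k / (2 * k + 1)) + (N : ℝ) ^ ((p : ℝ) - (k : ℝ) * ((k : ℝ) + 1) / 2)

/-! ## oscillatory integrals -/

/-- package A1: the derivative test of order `j ≥ 2` for polynomials -/
def S_A1 : Prop := ∀ j : ℕ, 2 ≤ j → ∃ C : ℝ, 0 < C ∧ ∀ (P : Polynomial ℝ) (a b lam : ℝ), a ≤ b → 0 < lam →
  (∀ x ∈ Set.Icc a b, lam ≤ |((Polynomial.derivative^[j]) P).eval x|) →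
  ‖∫ x in a..b, ee (P.eval x)‖ ≤ C * lam ^ (-(1 / (j : ℝ)))

/-- package A (from `S_A1`): the bound for the oscillatory integral -/
def S_A : Prop := ∀ k : ℕ, 1 ≤ k → ∃ C : ℝ, 0 < C ∧ ∀ (β : Fin k → ℝ) (a b : ℝ), 0 ≤ a → a ≤ b → b ≤ 1 →
  ‖∫ x in a..b, ee (ph β x)‖ ≤ C * (1 + ‖β‖) ^ (-(1 / (k : ℝ)))

/-- package B0: scaling -/
def S_B0 : Prop := ∀ k : ℕ, 1 ≤ k → ∃ C : ℝ, 0 < C ∧ ∀ R : ℝ, 1 ≤ R →
  Integrable (fun β : Fin k → ℝ => (1 + ‖fun j : Fin k => R ^ (j.val + 1) * β j‖) ^ (-((k : ℝ) + 1 / 2))) ∧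
  ∫ β : Fin k → ℝ, (1 + ‖fun j : Fin k => R ^ (j.val + 1) * β j‖) ^ (-((k : ℝ) + 1 / 2)) ≤
    C * R ^ (-((k : ℝ) * ((k : ℝ) + 1) / 2))

/-- the integral `∫_1^{N+1} e(β_1 x + ... + β_k x^k) dx` -/
def II {k : ℕ} (N : ℕ) (β : Fin k → ℝ) : ℂ := ∫ x in (1 : ℝ)..((N : ℝ) + 1), ee (ph β x)

/-- package B (from `S_A` and `S_B0`): moments of `II` over boxes -/
def S_B : Prop := ∀ k p : ℕ, 1 ≤ k → ∀ r : ℝ, 0 < r → ∃ C : ℝ, 0 < C ∧ ∀ N : ℕ, 1 ≤ N → ∀ v : Fin k → ℝ,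
  ∫ β in box k v r, ‖II N β‖ ^ p ≤ C * AA p k N

/-! ## the density and the mean value -/

/-- a density on `[0,1]` with an absolutely summable Fourier series -/
structure Dens (ρ : ℝ → ℝ) (c : ℤ → ℂ) : Prop where
  meas : Measurable ρ
  nonneg : ∀ u, 0 ≤ ρ u
  mass : ∫ u in Set.Icc (0 : ℝ) 1, ρ u = 1
  summable : Summable fun h : ℤ => ‖c h‖
  expansion : ∀ u ∈ Set.Icc (0 : ℝ) 1, (ρ u : ℂ) = ∑' h : ℤ, c h * ee (h * u)

/-- the mean of `e(φ_α(n + X_n))` -/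
def zz {k : ℕ} (ρ : ℝ → ℝ) (n : ℕ) (α : Fin k → ℝ) : ℂ :=
  ∫ u in Set.Icc (0 : ℝ) 1, (ρ u : ℂ) * ee (ph α ((n : ℝ) + u))

/-- the mean of the exponential sum -/
def MM {k : ℕ} (ρ : ℝ → ℝ) (N : ℕ) (α : Fin k → ℝ) : ℂ := ∑ n ∈ Finset.Icc 1 N, zz ρ n α

/-- package D (from `S_B`): moments of the mean; `MM = ∑_h c_h II(α + h e_1)` -/
def S_D : Prop := ∀ (ρ : ℝ → ℝ) (c : ℤ → ℂ), Dens ρ c → ∀ k p : ℕ, 1 ≤ k → ∀ r : ℝ, 0 < r →
  ∃ C : ℝ, 0 < C ∧ ∀ N : ℕ, 1 ≤ N → ∫ α in box k 0 r, ‖MM ρ N α‖ ^ p ≤ C * AA p k N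

/-- package I: densities with small support (and the uniform one is `c 0 = 1`, `c h = 0` otherwise) -/
def S_I : Prop := ∀ δ : ℝ, 0 < δ → ∃ (ρ : ℝ → ℝ) (c : ℤ → ℂ), Dens ρ c ∧ Continuous ρ ∧
  ∀ u : ℝ, δ ≤ u → ρ u = 0

/-! ## counting -/

/-- the kernel `∏ (1/8 - |γ_j|)` -/
def ker {k : ℕ} (γ : Fin k → ℝ) : ℝ := ∏ j : Fin k, (1 / 8 - |γ j|)

/-- its Fourier transform over the box of half side `1/8` -/
def kerhat {k : ℕ} (u : Fin k → ℝ) : ℂ := ∫ γ in box k 0 (1 / 8), (ker γ : ℂ) * ee (∑ j : Fin k, γ j * u j)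

/-- package C: the Fourier transform of the kernel is nonnegative, and large for `|u_j| < 1` -/
def S_C : Prop := ∀ k : ℕ, ∃ c : ℝ, 0 < c ∧ ∀ u : Fin k → ℝ, 0 ≤ (kerhat u).re ∧ (kerhat u).im = 0 ∧
  ((∀ j, |u j| < 1) → c ≤ (kerhat u).re)

/-- pairs of `s`-tuples in `[1,N]` -/
def pairs (s N : ℕ) : Finset ((Fin s → ℕ) × (Fin s → ℕ)) :=
  (Fintype.piFinset fun _ : Fin s => Finset.Icc 1 N) ×ˢ (Fintype.piFinset fun _ : Fin s => Finset.Icc 1 N)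

/-- `∑ (x_i + θ(x_i))^(j+1) - ∑ (y_i + θ(y_i))^(j+1)` -/
def dif (θ : ℕ → ℝ) {s : ℕ} (p : (Fin s → ℕ) × (Fin s → ℕ)) (j : ℕ) : ℝ :=
  ∑ i : Fin s, ((p.1 i : ℝ) + θ (p.1 i)) ^ (j + 1) - ∑ i : Fin s, ((p.2 i : ℝ) + θ (p.2 i)) ^ (j + 1)

open scoped Classical in
/-- the number of pairs of tuples with all `|dif| < 1` -/
def J (θ : ℕ → ℝ) (s k N : ℕ) : ℕ := ((pairs s N).filter fun p => ∀ j : Fin k, |dif θ p j| < 1).card

open scoped Classical in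
/-- the number of non-diagonal ones -/
def ND (θ : ℕ → ℝ) (s k N : ℕ) : ℕ := ((pairs s N).filter fun p => (∀ j : Fin k, |dif θ p j| < 1) ∧
  ¬ ∃ σ : Equiv.Perm (Fin s), p.2 = p.1 ∘ σ).card

/-- package H: the lower bound (diagonal solutions; pigeonhole and Cauchy-Schwarz) -/
def S_H : Prop := ∀ s k : ℕ, 1 ≤ s → 1 ≤ k → ∃ c : ℝ, 0 < c ∧ ∀ θ : ℕ → ℝ, (∀ n, 0 ≤ θ n ∧ θ n ≤ 1) →
  ∀ N : ℕ, 1 ≤ N →
    c * ((N : ℝ) ^ (s : ℝ) + (N : ℝ) ^ (2 * (s : ℝ) - (k : ℝ) * ((k : ℝ) + 1) / 2)) ≤ (J θ s k N : ℝ)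

/-! ## probability -/

/-- package F1: covariances come from pairs of events with a common coordinate -/
def S_F1 : Prop := ∀ (Ω : Type) [MeasurableSpace Ω] (P : Measure Ω) [IsProbabilityMeasure P] (X : ℕ → Ω → ℝ),
  (∀ n, Measurable (X n)) → iIndepFun X P →
  ∀ (ι : Type) (F : Finset ι) (supp : ι → Finset ℕ) (B : ι → Set (ℕ → ℝ)) (U : Finset ℕ),
  (∀ i ∈ F, MeasurableSet (B i)) → (∀ i ∈ F, supp i ⊆ U) →
  (∀ i ∈ F, ∀ x y : ℕ → ℝ, (∀ n ∈ supp i, x n = y n) → (x ∈ B i ↔ y ∈ B i)) →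
  ∫ ω, (∑ i ∈ F, (B i).indicator (fun _ => (1 : ℝ)) (fun n => X n ω)) ^ 2 ∂P ≤
    (∫ ω, (∑ i ∈ F, (B i).indicator (fun _ => (1 : ℝ)) (fun n => X n ω)) ∂P) ^ 2 +
    ∫ ω, (∑ m ∈ U, (∑ i ∈ F with m ∈ supp i, (B i).indicator (fun _ => (1 : ℝ)) (fun n => X n ω)) ^ 2) ∂P

/-- package F3: moments of sums of independent bounded complex variables -/
def S_F3 : Prop := ∀ m : ℕ, ∃ C : ℝ, 0 < C ∧ ∀ (Ω : Type) [MeasurableSpace Ω] (P : Measure Ω)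
  [IsProbabilityMeasure P] (Y : ℕ → Ω → ℂ), (∀ n, Measurable (Y n)) → iIndepFun Y P → (∀ n ω, ‖Y n ω‖ ≤ 1) →
  ∀ F : Finset ℕ, ∫ ω, ‖∑ n ∈ F, (Y n ω - ∫ ω', Y n ω' ∂P)‖ ^ (2 * m) ∂P ≤ C * (F.card : ℝ) ^ m

/-- the law with density `ρ` on `[0,1]` -/
def law (ρ : ℝ → ℝ) : Measure ℝ :=
  ((volume : Measure ℝ).restrict (Set.Icc 0 1)).withDensity fun u => ENNReal.ofReal (ρ u)

/-! ## non-diagonal solutions -/

/-- the counting function of `x` minus the counting function of `y` -/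
def cnt {s : ℕ} (p : (Fin s → ℕ) × (Fin s → ℕ)) : ℕ →₀ ℤ :=
  ∑ i : Fin s, Finsupp.single (p.1 i) (1 : ℤ) - ∑ i : Fin s, Finsupp.single (p.2 i) (1 : ℤ)

open scoped Classical in
/-- package P2: combinatorics: reduction of the non-diagonal pairs to weighted systems in distinct variables -/
def S_P2 : Prop :=
  (∀ (s : ℕ) (p : (Fin s → ℕ) × (Fin s → ℕ)), cnt p = 0 ↔ ∃ σ : Equiv.Perm (Fin s), p.2 = p.1 ∘ σ) ∧
  ∀ s : ℕ, ∃ C : ℝ, 0 < C ∧ ∀ (N : ℕ) (g : (ℕ →₀ ℤ) → ℝ), (∀ m, 0 ≤ g m) →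
    ∑ p ∈ (pairs s N).filter (fun p => cnt p ≠ 0), g (cnt p) ≤
      C * ∑ q ∈ Finset.Icc 1 s, (N : ℝ) ^ (s - q) * ∑ d ∈ Finset.Icc 1 (2 * q),
        ∑ w ∈ Fintype.piFinset (fun _ : Fin d => (Finset.Icc (-(2 * s : ℤ)) (2 * s)).erase 0),
          ∑ f ∈ (Fintype.piFinset (fun _ : Fin d => Finset.Icc 1 N)).filter (fun f => Function.Injective f),
            g (∑ i : Fin d, Finsupp.single (f i) (w i))

open scoped Classical in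
/-- package P1 (from `S_C`, `S_D`): probability of the weighted systems in distinct variables -/
def S_P1 : Prop := ∀ (ρ : ℝ → ℝ) (c : ℤ → ℂ), Dens ρ c → ∀ k d W : ℕ, 1 ≤ k → 1 ≤ d → ∃ C : ℝ, 0 < C ∧
  ∀ (Ω : Type) [MeasurableSpace Ω] (P : Measure Ω) [IsProbabilityMeasure P] (X : ℕ → Ω → ℝ),
  (∀ n, Measurable (X n)) → iIndepFun X P → (∀ n, P.map (X n) = law ρ) →
  ∀ N : ℕ, 1 ≤ N → ∀ w : Fin d → ℤ, (∀ i, w i ≠ 0 ∧ |w i| ≤ (W : ℤ)) →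
    ∑ f ∈ (Fintype.piFinset (fun _ : Fin d => Finset.Icc 1 N)).filter (fun f => Function.Injective f),
      P.real {ω | ∀ j : Fin k, |∑ i : Fin d, (w i : ℝ) * ((f i : ℝ) + X (f i) ω) ^ (j.val + 1)| < 1} ≤
    C * AA d k N

end

end Pool.Agent.U160.VP
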