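import Mathlib

set_option autoImplicit false

/-!
# Project VP, second part: fractional parts of random polynomials

`frac x n = {x_1 n + x_2 n^2 + ... + x_r n^r}`. For uniform `x` in the cube `[0,1)^r` any at most `r` of the
variables `frac x n`, `n ≥ 1`, are independent and uniform on `[0,1)` (the integer matrix `(n_i^j)` has a nonzero
determinant, so `x ↦ (∑ x_j n_i^j)_i` is a surjective homomorphism of tori).
-/

namespace Pool.Agent.U160.VP

open MeasureTheory

noncomputable section

/-- the fractional part of `x_1 n + x_2 n^2 + ... + x_r n^r` -/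
def frac {r : ℕ} (x : Fin r → ℝ) (n : ℕ) : ℝ := Int.fract (∑ j : Fin r, x j * (n : ℝ) ^ (j.val + 1))

/-- the unit cube -/
def cube (r : ℕ) : Set (Fin r → ℝ) := Set.pi Set.univ fun _ => Set.Ico (0 : ℝ) 1

/-- package R1: `r`-wise independence -/
def S_R1 : Prop := ∀ (r : ℕ) (S : Finset ℕ), (∀ n ∈ S, 1 ≤ n) → S.card ≤ r →
  Measure.map (fun (x : Fin r → ℝ) (i : S) => frac x (i : ℕ)) (volume.restrict (cube r)) =
    Measure.pi (fun _ : S => (volume : Measure ℝ).restrict (Set.Icc 0 1))

/-- package R2: a property of the sequence of the fractional parts which holds for almost all `x` in the cube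
holds for almost all `x` -/
def S_R2 : Prop := ∀ (r : ℕ) (Q : (ℕ → ℝ) → Prop), (∀ᵐ x ∂(volume.restrict (cube r)), Q (frac x)) →
  ∀ᵐ x : Fin r → ℝ, Q (frac x)

end

end Pool.Agent.U160.VP
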